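import Mathlib

/-!
Definitions: Hurwitz products of families of nonnegative matrices and their encoding by words.
-/

set_option autoImplicit false

namespace Pool.Agent.Lib.MP_9c2350_lc

/-- The Hurwitz product `A ^ α` of the family `A` of `m` nonnegative `n × n` matrices: the sum of
all products `A (d 0) * A (d 1) * ⋯` of `∑ i, α i` factors in which, for each `i`, exactly `α i`
of the factors are `A i`. -/
noncomputable def hurwitz {n m : ℕ} (A : Fin m → Matrix (Fin n) (Fin n) ℚ≥0) (α : Fin m → ℕ) :
    Matrix (Fin n) (Fin n) ℚ≥0 :=
  ∑ d ∈ (Finset.univ : Finset (Fin (∑ i, α i) → Fin m)).filter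
    (fun d => ∀ i, (Finset.univ.filter fun k => d k = i).card = α i),
    (List.ofFn fun k => A (d k)).prod

/-- A matrix is positive if all its entries are positive. -/
def IsPositive {n : ℕ} (M : Matrix (Fin n) (Fin n) ℚ≥0) : Prop := ∀ i j, 0 < M i j

/-- The family is `m`-primitive: some Hurwitz product is positive. -/
def MPrimitive {n m : ℕ} (A : Fin m → Matrix (Fin n) (Fin n) ℚ≥0) : Prop :=
  ∃ α : Fin m → ℕ, 1 ≤ ∑ i, α i ∧ IsPositive (hurwitz A α)

/-- The alphabet: the digits `0` and `1`, a fraction slash and three separators. -/
inductive Sym : Type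
  | zero
  | one
  | slash
  | comma
  | semi
  | bar
  deriving DecidableEq, Fintype

/-- The symbol of a binary digit. -/
def dig (b : Bool) : Sym := if b then .one else .zero

/-- The binary digits of a natural number, least significant digit first. -/
def digits (k : ℕ) : List Sym := k.bits.map dig

/-- An entry `p / q` in lowest terms: digits of `p`, slash, digits of `q`, comma. -/
def encEntry (q : ℚ≥0) : List Sym := digits q.num ++ [.slash] ++ digits q.den ++ [.comma]

/-- A row: its entries followed by a semicolon. -/
def encRow {n : ℕ} (r : Fin n → ℚ≥0) : List Sym :=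
  (List.ofFn fun j => encEntry (r j)).flatten ++ [.semi]

/-- A matrix: its rows followed by a bar. -/
def encMatrix {n : ℕ} (M : Matrix (Fin n) (Fin n) ℚ≥0) : List Sym :=
  (List.ofFn fun i => encRow fun j => M i j).flatten ++ [.bar]

/-- A family of matrices: the matrices one after the other. -/
def encFamily {n m : ℕ} (A : Fin m → Matrix (Fin n) (Fin n) ℚ≥0) : List Sym :=
  (List.ofFn fun c => encMatrix (A c)).flatten

/-- A colour vector: the binary digits of its entries, each entry followed by a comma. -/
def encVector {m : ℕ} (α : Fin m → ℕ) : List Sym :=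
  (List.ofFn fun c => digits (α c) ++ [.comma]).flatten

end Pool.Agent.Lib.MP_9c2350_lc
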