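import Pool.Agent.Lib.MP_9c2350_lc.Comb

/-!
The algorithm, and the proof that it runs in polynomial time.
-/

set_option autoImplicit false
set_option linter.unusedSimpArgs false
set_option linter.unusedSectionVars false

namespace Pool.Agent.Lib.MP_9c2350_lc

variable {α β γ σ δ : Type} [Enc α] [Enc β] [Enc γ] [Enc σ] [Enc δ]

/-- Binary numbers, least significant digit first. -/
abbrev Num2 := List Bool

/-- Vectors of binary numbers. -/
abbrev Vec2 := List Num2

/-- Lists of zero-one matrices, given by their lists of rows. -/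
abbrev Fam := List (List (List Bool))

/-! ### More combinators -/

theorem Poly.modifyHead {l : α → List γ} {f : α × γ → γ} (hl : Poly l) (hf : Poly f) :
    Poly (fun x => (l x).modifyHead fun a => f (x, a)) := by
  have h : Poly (fun x => match l x with
      | [] => (fun _ : α => ([] : List γ)) x
      | a :: t => (fun y : α × (γ × List γ) => f (y.1, y.2.1) :: y.2.2) (x, (a, t))) :=
    hl.listCase (Poly.const _) (Poly.cons (hf.comp (Poly.pair Poly.fst (Poly.fst.comp Poly.snd)))
      (Poly.snd.comp Poly.snd))
  exact h.of_eq fun x => by cases l x <;> rfl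

theorem foldl_flatMap_eq {α β : Type} (f : α → List β) (l : List α) (s : List β) :
    l.foldl (fun s b => f b ++ s) s = (l.reverse.flatMap f) ++ s := by
  induction l generalizing s with
  | nil => rfl
  | cons a l ih => rw [List.foldl_cons, ih]; simp

theorem sz_flatMap_le {α : Type} (l : List α) (f : α → List β) (B : ℕ)
    (h : ∀ a ∈ l, sz (f a) ≤ B + 1) : sz (l.flatMap f) ≤ l.length * B + 1 := by
  induction l with
  | nil => simp [sz_nil]
  | cons a l ih =>
    have h1 := h a (by simp)
    have h2 := ih fun b hb => h b (by simp [hb])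
    rw [List.flatMap_cons]
    have h3 := sz_append (f a) (l.flatMap f)
    rw [List.length_cons, Nat.succ_mul]
    omega

theorem Poly.flatMap {l : α → List γ} {f : α × γ → List β} (hl : Poly l) (hf : Poly f) :
    Poly (fun x => (l x).flatMap fun b => f (x, b)) := by
  obtain ⟨ql, hql, Hql⟩ := hl.size
  obtain ⟨qf, hqf, Hqf⟩ := hf.size
  have h := Poly.foldl (step := fun y : α × (List β × γ) => f (y.1, y.2.2) ++ y.2.1)
    hl.reverse (Poly.const ([] : List β))
    (Poly.append (hf.comp (Poly.pair Poly.fst (Poly.snd.comp Poly.snd)))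
      (Poly.fst.comp Poly.snd))
    ((hql.mul (hqf.comp ((PB.id.add hql).add (PB.const 1)))).add (PB.const 1)) (by
      intro x l' hl'
      show sz (l'.foldl (fun s b => f (x, b) ++ s) []) ≤
        ql (sz x) * (qf (sz x + ql (sz x) + 1)) + 1
      rw [foldl_flatMap_eq (fun b => f (x, b)), List.append_nil]
      have h1 := Hql x
      have h2 : l'.length ≤ ql (sz x) := by
        have := (sz_take_le hl')
        rw [sz_reverse] at this
        exact (length_le_sz l').le.trans (this.trans h1)
      refine (sz_flatMap_le _ _ (qf (sz x + ql (sz x) + 1)) ?_).trans ?_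
      · intro b hb
        refine ((Hqf _).trans (hqf.1 ?_)).trans (Nat.le_succ _)
        rw [sz_pair]
        have h3 : b ∈ l x := by
          have := hl'.subset (List.mem_reverse.1 hb)
          exact List.mem_reverse.1 this
        have h4 := sz_le_of_mem h3
        omega
      · rw [List.length_reverse]
        exact Nat.add_le_add_right (Nat.mul_le_mul_right _ h2) 1)
  exact h.of_eq fun x => by
    rw [foldl_flatMap_eq (fun b => f (x, b))]; simp

/-! ### Parsing -/

/-- One step of the parser, which reads the input from right to left. -/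
def pstep (fam : Fam) (s : Sym) : Fam :=
  if s = .bar then [] :: fam
  else if s = .semi then fam.modifyHead fun M => [] :: M
  else if s = .comma then fam.modifyHead fun M => M.modifyHead fun r => false :: r
  else if s = .slash then
    fam.modifyHead fun M => M.modifyHead fun r => r.modifyHead fun _ => false
  else if s = .one then
    fam.modifyHead fun M => M.modifyHead fun r => r.modifyHead fun _ => true
  else fam

/-- The parser. -/
def parse (x : List Sym) : Fam := x.reverse.foldl pstep []

theorem sz_modifyHead_le (l : List α) (f : α → α) (B : ℕ) (h : ∀ a, sz (f a) ≤ sz a + B) :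
    sz (l.modifyHead f) ≤ sz l + B := by
  cases l with
  | nil => simp [sz_nil]
  | cons a l =>
    have := h a
    rw [List.modifyHead_cons, sz_cons, sz_cons]
    omega

theorem sz_pstep_le (fam : Fam) (s : Sym) : sz (pstep fam s) ≤ sz fam + 3 := by
  unfold pstep
  split_ifs
  · rw [sz_cons, sz_nil]; omega
  · refine sz_modifyHead_le _ _ _ fun M => ?_
    rw [sz_cons, sz_nil]; omega
  · refine sz_modifyHead_le _ _ _ fun M => sz_modifyHead_le _ _ _ fun r => ?_
    rw [sz_cons]
    have : sz false = 1 := rfl
    omega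
  · refine sz_modifyHead_le _ _ _ fun M => sz_modifyHead_le _ _ _ fun r =>
      sz_modifyHead_le _ _ _ fun b => ?_
    have : sz false = 1 := rfl
    omega
  · refine sz_modifyHead_le _ _ _ fun M => sz_modifyHead_le _ _ _ fun r =>
      sz_modifyHead_le _ _ _ fun b => ?_
    have : sz true = 3 := rfl
    omega
  · omega

theorem sz_foldl_le {f : σ → γ → σ} {B : ℕ} (h : ∀ s b, sz (f s b) ≤ sz s + B) (l : List γ)
    (s : σ) : sz (l.foldl f s) ≤ sz s + l.length * B := by
  induction l generalizing s with
  | nil => simp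
  | cons a l ih =>
    have h1 := ih (f s a)
    have h2 := h s a
    rw [List.foldl_cons, List.length_cons, Nat.succ_mul]
    omega

theorem Poly.pstep : Poly (fun p : Fam × Sym => pstep p.1 p.2) := by
  have hM : Poly (fun p : Fam × Sym => p.1.modifyHead fun M => ([] : List Bool) :: M) :=
    Poly.modifyHead (f := fun q : (Fam × Sym) × List (List Bool) => [] :: q.2) Poly.fst
      (Poly.cons (Poly.const _) Poly.snd)
  have key : ∀ g : List Bool → List Bool, Poly g →
      Poly (fun p : Fam × Sym => p.1.modifyHead fun M => M.modifyHead fun r => g r) := by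
    intro g hg
    exact Poly.modifyHead (f := fun q : (Fam × Sym) × List (List Bool) =>
      q.2.modifyHead fun r => g r) Poly.fst
      (Poly.modifyHead (f := fun q : ((Fam × Sym) × List (List Bool)) × List Bool => g q.2)
        Poly.snd (hg.comp Poly.snd))
  have h1 := key _ (Poly.cons (Poly.const false) Poly.id)
  have h2 := key _ (Poly.modifyHead (f := fun _ : List Bool × Bool => false) Poly.id
    (Poly.const false))
  have h3 := key _ (Poly.modifyHead (f := fun _ : List Bool × Bool => true) Poly.id
    (Poly.const true))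
  have hs : ∀ a : Sym, Poly (fun p : Fam × Sym => decide (p.2 = a)) := fun a =>
    Poly.eqSym Poly.snd a
  have h := (hs .bar).ite (Poly.cons (Poly.const ([] : List (List Bool))) Poly.fst)
    ((hs .semi).ite hM ((hs .comma).ite h1 ((hs .slash).ite h2 ((hs .one).ite h3 Poly.fst))))
  exact h.of_eq fun p => by simp only [Pool.Agent.Lib.MP_9c2350_lc.pstep, decide_eq_true_eq]

theorem Poly.parse : Poly parse := by
  have h := Poly.foldl (α := List Sym) (l := fun x => x.reverse) (s0 := fun _ => ([] : Fam))
    (step := fun y => Pool.Agent.Lib.MP_9c2350_lc.pstep y.2.1 y.2.2)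
    (Poly.reverse Poly.id) (Poly.const _) (Poly.pstep.comp Poly.snd)
    (q := fun n => 1 + n * 3) ((PB.const 1).add (PB.id.mul (PB.const 3))) (by
      intro x l' hl'
      refine (sz_foldl_le (fun s b => sz_pstep_le s b) l' _).trans ?_
      rw [sz_nil]
      have := (length_le_sz l').le.trans (sz_take_le hl')
      rw [sz_reverse] at this
      show 1 + _ ≤ 1 + sz x * 3
      omega)
  exact h

/-! ### Addition -/

theorem sz_bools_le (l : List Bool) : sz l ≤ 4 * l.length + 1 := by
  have := sz_list_le l 3 fun b _ => sz_bool b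
  omega

theorem sz_tail_le (l : List α) : sz l.tail ≤ sz l := by
  cases l with
  | nil => exact le_refl _
  | cons a l => rw [List.tail_cons, sz_cons]; omega

/-- One step of the addition. -/
def addStep (s : Bool × (Num2 × Num2)) (b : Bool) : Bool × (Num2 × Num2) :=
  ((b && s.2.1.headD false) || ((b && s.1) || (s.2.1.headD false && s.1)),
    (s.2.1.tail, ((b ^^ s.2.1.headD false) ^^ s.1) :: s.2.2))

/-- Addition of binary numbers. -/
def add (x y : Num2) : Num2 :=
  let s := x.foldl addStep (false, (y, []))
  let s' := s.2.1.foldl addStep (s.1, ([], s.2.2))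
  (s'.1 :: s'.2.2).reverse

theorem Poly.addStep : Poly (fun p : (Bool × (Num2 × Num2)) × Bool => addStep p.1 p.2) := by
  have hb : Poly (fun p : (Bool × (Num2 × Num2)) × Bool => p.2) := Poly.snd
  have hc : Poly (fun p : (Bool × (Num2 × Num2)) × Bool => p.1.1) := Poly.fst.comp Poly.fst
  have hy : Poly (fun p : (Bool × (Num2 × Num2)) × Bool => p.1.2.1) :=
    Poly.fst.comp (Poly.snd.comp Poly.fst)
  have ho : Poly (fun p : (Bool × (Num2 × Num2)) × Bool => p.1.2.2) :=
    Poly.snd.comp (Poly.snd.comp Poly.fst)
  have hh := hy.headD false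
  exact Poly.pair ((hb.and hh).or ((hb.and hc).or (hh.and hc)))
    (Poly.pair hy.tail (Poly.cons ((hb.xor hh).xor hc) ho))

theorem foldl_addStep_length (l : List Bool) (s : Bool × (Num2 × Num2)) :
    (l.foldl addStep s).2.2.length = l.length + s.2.2.length := by
  induction l generalizing s with
  | nil => simp
  | cons a l ih => rw [List.foldl_cons, ih]; simp [Pool.Agent.Lib.MP_9c2350_lc.addStep]; omega

theorem foldl_addStep_drop (l : List Bool) (s : Bool × (Num2 × Num2)) :
    (l.foldl addStep s).2.1 = s.2.1.drop l.length := by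
  induction l generalizing s with
  | nil => simp
  | cons a l ih =>
    rw [List.foldl_cons, ih]
    simp [Pool.Agent.Lib.MP_9c2350_lc.addStep, List.drop_succ_cons, List.drop_drop,
      Nat.add_comm]

theorem sz_foldl_addStep (l : List Bool) (s : Bool × (Num2 × Num2)) :
    sz (l.foldl addStep s) ≤ 3 + (4 * (s.2.1.length) + 1 + (4 * (l.length + s.2.2.length) + 1) + 1)
      + 1 := by
  have h1 := foldl_addStep_length l s
  have h2 := foldl_addStep_drop l s
  set r := l.foldl addStep s with hr
  have e : r = (r.1, (r.2.1, r.2.2)) := rfl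
  rw [e, sz_pair, sz_pair]
  have h3 := sz_bool r.1
  have h4 := sz_bools_le r.2.1
  have h5 := sz_bools_le r.2.2
  have h6 : r.2.1.length ≤ s.2.1.length := by rw [h2, List.length_drop]; omega
  omega

theorem Poly.add {x y : α → Num2} (hx : Poly x) (hy : Poly y) :
    Poly (fun a => add (x a) (y a)) := by
  obtain ⟨qx, hqx, Hx⟩ := hx.size
  obtain ⟨qy, hqy, Hy⟩ := hy.size
  have h1 : Poly (fun a => (x a).foldl Pool.Agent.Lib.MP_9c2350_lc.addStep (false, (y a, []))) :=
    Poly.foldl (step := fun p : α × ((Bool × (Num2 × Num2)) × Bool) =>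
        Pool.Agent.Lib.MP_9c2350_lc.addStep p.2.1 p.2.2) hx
      (Poly.pair (Poly.const false) (Poly.pair hy (Poly.const []))) (Poly.addStep.comp Poly.snd)
      (q := fun n => 3 + (4 * qy n + 1 + (4 * (qx n + 0) + 1) + 1) + 1)
      ((((PB.const 3).add (((((PB.const 4).mul hqy).add (PB.const 1)).add
        (((PB.const 4).mul (hqx.add (PB.const 0))).add (PB.const 1))).add (PB.const 1)))).add
        (PB.const 1)) (by
        intro a l' hl'
        refine (sz_foldl_addStep l' _).trans ?_
        have e1 := (length_le_sz l').le.trans ((sz_take_le hl').trans (Hx a))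
        have e2 := (length_le_sz (y a)).le.trans (Hy a)
        simp only [List.length_nil]
        omega)
  obtain ⟨q1, hq1, H1⟩ := h1.size
  set f : α → Bool × (Num2 × Num2) :=
    fun a => (x a).foldl Pool.Agent.Lib.MP_9c2350_lc.addStep (false, (y a, [])) with hf
  have h2 : Poly (fun a => (f a).2.1.foldl Pool.Agent.Lib.MP_9c2350_lc.addStep
      ((f a).1, ([], (f a).2.2))) :=
    Poly.foldl (step := fun p : α × ((Bool × (Num2 × Num2)) × Bool) =>
        Pool.Agent.Lib.MP_9c2350_lc.addStep p.2.1 p.2.2) (Poly.fst.comp (Poly.snd.comp h1))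
      (Poly.pair (Poly.fst.comp h1) (Poly.pair (Poly.const []) (Poly.snd.comp (Poly.snd.comp h1))))
      (Poly.addStep.comp Poly.snd)
      (q := fun n => 3 + (1 + (4 * (q1 n + q1 n) + 1) + 1) + 1)
      ((((PB.const 3).add (((PB.const 1).add
        (((PB.const 4).mul (hq1.add hq1)).add (PB.const 1))).add (PB.const 1)))).add
        (PB.const 1)) (by
        intro a l' hl'
        refine (sz_foldl_addStep l' _).trans ?_
        have e0 : sz (f a) = sz (f a).1 + (sz (f a).2.1 + sz (f a).2.2 + 1) + 1 := by
          rw [← sz_pair, ← sz_pair]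
        have e1 := (length_le_sz l').le.trans (sz_take_le hl')
        have e2 := (length_le_sz (f a).2.2).le
        have e3 : sz (f a) ≤ q1 (sz a) := H1 a
        simp only [List.length_nil]
        omega)
  exact (Poly.cons (Poly.fst.comp h2) (Poly.snd.comp (Poly.snd.comp h2))).reverse

theorem add_length (x y : Num2) : (add x y).length = max x.length y.length + 1 := by
  unfold Pool.Agent.Lib.MP_9c2350_lc.add
  simp only [List.length_reverse, List.length_cons, foldl_addStep_length, foldl_addStep_drop,
    List.length_drop, List.length_nil]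
  omega

/-! ### Scalar product -/

/-- One step of the scalar product. -/
def dotStep (s : Vec2 × Num2) (b : Bool) : Vec2 × Num2 :=
  (s.1.tail, if b then add s.2 (s.1.headD []) else s.2)

/-- Product of a zero-one row with a vector. -/
def dot (row : List Bool) (v : Vec2) : Num2 := (row.foldl dotStep (v, [])).2

/-- All entries of the vector have at most `L` digits. -/
def Sh (L : ℕ) (v : Vec2) : Prop := ∀ x ∈ v, x.length ≤ L

theorem Sh.tail {L : ℕ} {v : Vec2} (h : Sh L v) : Sh L v.tail := fun x hx =>
  h x (List.mem_of_mem_tail hx)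

theorem Sh.headD {L : ℕ} {v : Vec2} (h : Sh L v) : (v.headD []).length ≤ L := by
  cases v with
  | nil => simp
  | cons a v => exact h a (by simp)

theorem Sh.mono {L L' : ℕ} {v : Vec2} (h : Sh L v) (hL : L ≤ L') : Sh L' v := fun x hx =>
  (h x hx).trans hL

theorem sz_vec_le {L N : ℕ} {v : Vec2} (h : Sh L v) (hN : v.length ≤ N) :
    sz v ≤ N * (4 * L + 2) + 1 := by
  refine (sz_list_le v (4 * L + 1) fun x hx => ?_).trans ?_
  · have h1 := sz_bools_le x
    have h2 := h x hx
    omega
  · exact Nat.add_le_add_right (Nat.mul_le_mul_right _ hN) 1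

theorem Sh.of_sz (v : Vec2) : Sh (sz v) v := fun _ hx =>
  (length_le_sz _).le.trans (sz_le_of_mem hx).le

theorem foldl_dotStep (L : ℕ) (l : List Bool) (s : Vec2 × Num2) (k : ℕ) (hv : Sh L s.1)
    (ha : s.2.length ≤ L + k) :
    Sh L (l.foldl dotStep s).1 ∧ (l.foldl dotStep s).1.length ≤ s.1.length ∧
      (l.foldl dotStep s).2.length ≤ L + (k + l.length) := by
  induction l generalizing s k with
  | nil => exact ⟨hv, le_refl _, by simpa using ha⟩
  | cons b l ih =>
    have h1 : Sh L (dotStep s b).1 := hv.tail
    have h2 : (dotStep s b).2.length ≤ L + (k + 1) := by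
      unfold dotStep
      cases b
      · simp; omega
      · simp only [if_true]
        rw [add_length]
        have := hv.headD
        omega
    have h3 : (dotStep s b).1.length ≤ s.1.length := by
      simp [dotStep]
    obtain ⟨e1, e2, e3⟩ := ih (dotStep s b) (k + 1) h1 h2
    rw [List.foldl_cons]
    refine ⟨e1, e2.trans h3, e3.trans ?_⟩
    simp only [List.length_cons]
    omega

theorem dot_length_le {L : ℕ} (row : List Bool) {v : Vec2} (hv : Sh L v) :
    (dot row v).length ≤ L + row.length := by
  have := (foldl_dotStep L row (v, []) 0 hv (by simp)).2.2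
  simpa [dot] using this

theorem Poly.dotStep : Poly (fun p : (Vec2 × Num2) × Bool => dotStep p.1 p.2) := by
  have hb : Poly (fun p : (Vec2 × Num2) × Bool => p.2) := Poly.snd
  have hv : Poly (fun p : (Vec2 × Num2) × Bool => p.1.1) := Poly.fst.comp Poly.fst
  have ha : Poly (fun p : (Vec2 × Num2) × Bool => p.1.2) := Poly.snd.comp Poly.fst
  exact Poly.pair hv.tail (hb.ite (ha.add (hv.headD [])) ha)

theorem Poly.dot {r : α → List Bool} {v : α → Vec2} (hr : Poly r) (hv : Poly v) :
    Poly (fun a => dot (r a) (v a)) := by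
  obtain ⟨qr, hqr, Hr⟩ := hr.size
  obtain ⟨qv, hqv, Hv⟩ := hv.size
  refine Poly.snd.comp (Poly.foldl (step := fun p : α × ((Vec2 × Num2) × Bool) =>
        Pool.Agent.Lib.MP_9c2350_lc.dotStep p.2.1 p.2.2) hr
      (Poly.pair hv (Poly.const [])) (Poly.dotStep.comp Poly.snd)
      (q := fun n => (qv n * (4 * qv n + 2) + 1) + (4 * (qv n + qr n) + 1) + 1) ?_ ?_)
  · exact ((((hqv.mul (((PB.const 4).mul hqv).add (PB.const 2))).add (PB.const 1))).add
      (((PB.const 4).mul (hqv.add hqr)).add (PB.const 1))).add (PB.const 1)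
  · intro a l' hl'
    have e1 := (length_le_sz l').le.trans ((sz_take_le hl').trans (Hr a))
    have e2 := Hv a
    obtain ⟨h1, h2, h3⟩ := foldl_dotStep (qv (sz a)) l' (v a, []) 0
      ((Sh.of_sz (v a)).mono e2) (by simp)
    set r := l'.foldl Pool.Agent.Lib.MP_9c2350_lc.dotStep (v a, []) with hr
    have e : r = (r.1, r.2) := rfl
    have e3 : r.1.length ≤ qv (sz a) := h2.trans ((length_le_sz _).le.trans e2)
    have e4 := sz_vec_le h1 e3
    have e5 := sz_bools_le r.2
    show sz r ≤ _
    rw [e, sz_pair]
    omega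

/-! ### Matrix times vector -/

/-- One step of `accum`. -/
def accStep (v : Vec2) (s : Vec2 × Vec2) (row : List Bool) : Vec2 × Vec2 :=
  (s.1.tail, add (s.1.headD []) (dot row v) :: s.2)

/-- `w + A v`. -/
def accum (v w : Vec2) (A : List (List Bool)) : Vec2 := (A.foldl (accStep v) (w, [])).2.reverse

theorem foldl_accStep (L M R : ℕ) (v : Vec2) (hv : Sh L v) (A : List (List Bool))
    (hA : ∀ r ∈ A, r.length ≤ R) (s : Vec2 × Vec2) (hw : Sh M s.1)
    (ho : Sh (max M (L + R) + 1) s.2) :
    Sh M (A.foldl (accStep v) s).1 ∧ (A.foldl (accStep v) s).1.length ≤ s.1.length ∧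
      Sh (max M (L + R) + 1) (A.foldl (accStep v) s).2 ∧
      (A.foldl (accStep v) s).2.length = A.length + s.2.length := by
  induction A generalizing s with
  | nil => exact ⟨hw, le_refl _, ho, by simp⟩
  | cons r A ih =>
    have h2 : Sh (max M (L + R) + 1) (accStep v s r).2 := by
      intro x hx
      rcases List.mem_cons.1 hx with h | h
      · rw [h, add_length]
        have e1 := hw.headD
        have e2 := dot_length_le r hv
        have e3 := hA r (by simp)
        omega
      · exact ho x h
    obtain ⟨e1, e2, e3, e4⟩ := ih (fun r' hr' => hA r' (by simp [hr'])) (accStep v s r)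
      hw.tail h2
    rw [List.foldl_cons]
    refine ⟨e1, e2.trans (by simp [accStep]), e3, ?_⟩
    rw [e4]
    simp [accStep]
    omega

theorem accum_length (v w : Vec2) (A : List (List Bool)) : (accum v w A).length = A.length := by
  obtain ⟨L, hL⟩ : ∃ L, L = sz v := ⟨_, rfl⟩
  have h := foldl_accStep (sz v) (sz w) (sz A) v (Sh.of_sz v) A
    (fun r hr => (length_le_sz r).le.trans (sz_le_of_mem hr).le) (w, []) (Sh.of_sz w)
    (fun x hx => by simp at hx)
  simpa [accum] using h.2.2.2

theorem accum_sh {L M R : ℕ} {v w : Vec2} (hv : Sh L v) (hw : Sh M w)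
    {A : List (List Bool)} (hA : ∀ r ∈ A, r.length ≤ R) :
    Sh (max M (L + R) + 1) (accum v w A) := by
  have h := foldl_accStep L M R v hv A hA (w, []) hw (fun x hx => by simp at hx)
  intro x hx
  exact h.2.2.1 x (List.mem_reverse.1 hx)

theorem Poly.accum {v w : α → Vec2} {A : α → List (List Bool)} (hv : Poly v) (hw : Poly w)
    (hA : Poly A) : Poly (fun a => accum (v a) (w a) (A a)) := by
  obtain ⟨qv, hqv, Hv⟩ := hv.size
  obtain ⟨qw, hqw, Hw⟩ := hw.size
  obtain ⟨qA, hqA, HA⟩ := hA.size
  have hstep : Poly (fun p : α × ((Vec2 × Vec2) × List Bool) => accStep (v p.1) p.2.1 p.2.2) := by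
    have hs : Poly (fun p : α × ((Vec2 × Vec2) × List Bool) => p.2.1) := Poly.fst.comp Poly.snd
    have h1 : Poly (fun p : α × ((Vec2 × Vec2) × List Bool) => p.2.1.1) := Poly.fst.comp hs
    have h2 : Poly (fun p : α × ((Vec2 × Vec2) × List Bool) => p.2.1.2) := Poly.snd.comp hs
    have h3 : Poly (fun p : α × ((Vec2 × Vec2) × List Bool) => p.2.2) := Poly.snd.comp Poly.snd
    exact Poly.pair h1.tail (Poly.cons ((h1.headD []).add (h3.dot (hv.comp Poly.fst))) h2)
  refine (Poly.snd.comp (Poly.foldl (step := fun p : α × ((Vec2 × Vec2) × List Bool) =>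
        accStep (v p.1) p.2.1 p.2.2) hA (Poly.pair hw (Poly.const [])) hstep
      (q := fun n => (qw n * (4 * qw n + 2) + 1) +
        (qA n * (4 * (qw n + (qv n + qA n) + 1) + 2) + 1) + 1) ?_ ?_)).reverse
  · exact ((((hqw.mul (((PB.const 4).mul hqw).add (PB.const 2))).add (PB.const 1))).add
      ((hqA.mul ((((PB.const 4).mul ((hqw.add (hqv.add hqA)).add (PB.const 1))).add
        (PB.const 2)))).add (PB.const 1))).add (PB.const 1)
  · intro a l' hl'
    have e1 := (length_le_sz l').le.trans ((sz_take_le hl').trans (HA a))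
    have e2 := Hv a
    have e3 := Hw a
    have e4 := HA a
    obtain ⟨h1, h2, h3, h4⟩ := foldl_accStep (qv (sz a)) (qw (sz a)) (qA (sz a)) (v a)
      ((Sh.of_sz (v a)).mono e2) l'
      (fun r hr => (length_le_sz r).le.trans ((sz_le_of_mem (hl'.subset hr)).le.trans e4))
      (w a, []) ((Sh.of_sz (w a)).mono e3) (fun x hx => by simp at hx)
    set r := l'.foldl (accStep (v a)) (w a, []) with hr
    have e : r = (r.1, r.2) := rfl
    have e5 : r.1.length ≤ qw (sz a) := h2.trans ((length_le_sz _).le.trans e3)
    have e6 := sz_vec_le h1 e5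
    have e7 : r.2.length ≤ qA (sz a) := by rw [h4]; simpa using e1
    have h3' : Sh (qw (sz a) + (qv (sz a) + qA (sz a)) + 1) r.2 := h3.mono (by omega)
    have e8 := sz_vec_le h3' e7
    show sz r ≤ _
    rw [e, sz_pair]
    omega

/-! ### One step of the iteration -/

/-- `v + ∑ A v`, the sum over all matrices `A` of the family. -/
def stepv (fam : Fam) (v : Vec2) : Vec2 := fam.foldl (fun w A => accum v w A) v

theorem foldl_stepv (L R N : ℕ) (v : Vec2) (hv : Sh L v) (fam : Fam)
    (hR : ∀ A ∈ fam, ∀ r ∈ A, r.length ≤ R) (hN : ∀ A ∈ fam, A.length ≤ N) (w : Vec2) (k : ℕ)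
    (hw : Sh (L + R + k) w) (hwN : w.length ≤ N) :
    Sh (L + R + (k + fam.length)) (fam.foldl (fun w A => accum v w A) w) ∧
      (fam.foldl (fun w A => accum v w A) w).length ≤ N := by
  induction fam generalizing w k with
  | nil => exact ⟨by simpa using hw, hwN⟩
  | cons A fam ih =>
    have h1 : Sh (L + R + (k + 1)) (accum v w A) :=
      (accum_sh hv hw (hR A (by simp))).mono (by omega)
    have h2 : (accum v w A).length ≤ N := by
      rw [accum_length]; exact hN A (by simp)
    obtain ⟨e1, e2⟩ := ih (fun A' hA' => hR A' (by simp [hA'])) (fun A' hA' => hN A' (by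
      simp [hA'])) (accum v w A) (k + 1) h1 h2
    rw [List.foldl_cons]
    exact ⟨e1.mono (by simp only [List.length_cons]; omega), e2⟩

theorem fam_R (fam : Fam) : ∀ A ∈ fam, ∀ r ∈ A, r.length ≤ sz fam := fun A hA r hr =>
  (length_le_sz r).le.trans ((sz_le_of_mem hr).le.trans (sz_le_of_mem hA).le)

theorem fam_N (fam : Fam) : ∀ A ∈ fam, A.length ≤ sz fam := fun A hA =>
  (length_le_sz A).le.trans (sz_le_of_mem hA).le

theorem stepv_bound {L N : ℕ} (fam : Fam) {v : Vec2} (hv : Sh L v) (hf : sz fam ≤ N)
    (hN : v.length ≤ N) : Sh (L + 2 * N) (stepv fam v) ∧ (stepv fam v).length ≤ N := by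
  obtain ⟨h1, h2⟩ := foldl_stepv L N N v hv fam (fun A hA r hr => (fam_R fam A hA r hr).trans hf)
    (fun A hA => (fam_N fam A hA).trans hf) v 0 (hv.mono (by omega)) hN
  have h3 := (length_le_sz fam).le
  exact ⟨h1.mono (by omega), h2⟩

theorem Poly.stepv {fam : α → Fam} {v : α → Vec2} (hf : Poly fam) (hv : Poly v) :
    Poly (fun a => stepv (fam a) (v a)) := by
  obtain ⟨qf, hqf, Hf⟩ := hf.size
  obtain ⟨qv, hqv, Hv⟩ := hv.size
  refine Poly.foldl (step := fun p : α × (Vec2 × List (List Bool)) =>
        Pool.Agent.Lib.MP_9c2350_lc.accum (v p.1) p.2.1 p.2.2) hf hv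
      (Poly.accum (hv.comp Poly.fst) (Poly.fst.comp Poly.snd) (Poly.snd.comp Poly.snd))
      (q := fun n => (qv n + qf n) * (4 * (qv n + qf n + qf n) + 2) + 1) ?_ ?_
  · exact ((hqv.add hqf).mul ((((PB.const 4).mul ((hqv.add hqf).add hqf))).add
      (PB.const 2))).add (PB.const 1)
  · intro a l' hl'
    have e1 := (length_le_sz l').le.trans ((sz_take_le hl').trans (Hf a))
    have e2 := Hv a
    have e3 := Hf a
    have e4 := (length_le_sz (v a)).le
    obtain ⟨h1, h2⟩ := foldl_stepv (qv (sz a)) (qf (sz a)) (qv (sz a) + qf (sz a)) (v a)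
      ((Sh.of_sz (v a)).mono e2) l' (fun A hA r hr => (fam_R _ A (hl'.subset hA) r hr).trans e3)
      (fun A hA => (fam_N _ A (hl'.subset hA)).trans (by omega)) (v a) 0
      ((Sh.of_sz (v a)).mono (by omega)) (by omega)
    exact sz_vec_le (h1.mono (by omega)) h2

/-! ### The iteration -/

/-- Apply `stepv` as many times as `A` has rows. -/
def iter (fam : Fam) (A : List (List Bool)) (v : Vec2) : Vec2 :=
  A.foldl (fun v _ => stepv fam v) v

theorem foldl_iter {L N : ℕ} (fam : Fam) (hf : sz fam ≤ N) (A : List (List Bool)) (v : Vec2)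
    (hv : Sh L v) (hN : v.length ≤ N) :
    Sh (L + A.length * (2 * N)) (iter fam A v) ∧ (iter fam A v).length ≤ N := by
  unfold iter
  induction A generalizing v L with
  | nil => exact ⟨by simpa using hv, hN⟩
  | cons r A ih =>
    obtain ⟨h1, h2⟩ := stepv_bound fam hv hf hN
    obtain ⟨e1, e2⟩ := ih (stepv fam v) h1 h2
    rw [List.foldl_cons]
    refine ⟨e1.mono ?_, e2⟩
    have : (A.length + 1) * (2 * N) = A.length * (2 * N) + 2 * N := Nat.succ_mul _ _
    rw [List.length_cons]
    omega

theorem Poly.iter {fam : α → Fam} {A : α → List (List Bool)} {v : α → Vec2} (hf : Poly fam)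
    (hA : Poly A) (hv : Poly v) : Poly (fun a => iter (fam a) (A a) (v a)) := by
  obtain ⟨qf, hqf, Hf⟩ := hf.size
  obtain ⟨qA, hqA, HA⟩ := hA.size
  obtain ⟨qv, hqv, Hv⟩ := hv.size
  refine Poly.foldl (step := fun p : α × (Vec2 × List Bool) =>
        Pool.Agent.Lib.MP_9c2350_lc.stepv (fam p.1) p.2.1) hA hv
      (Poly.stepv (hf.comp Poly.fst) (Poly.fst.comp Poly.snd))
      (q := fun n => (qv n + qf n) * (4 * (qv n + qA n * (2 * (qv n + qf n))) + 2) + 1) ?_ ?_
  · exact ((hqv.add hqf).mul ((((PB.const 4).mul (hqv.add (hqA.mul ((PB.const 2).mul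
      (hqv.add hqf)))))).add (PB.const 2))).add (PB.const 1)
  · intro a l' hl'
    have e1 := (length_le_sz l').le.trans ((sz_take_le hl').trans (HA a))
    have e2 := Hv a
    have e3 := Hf a
    have e4 := (length_le_sz (v a)).le
    obtain ⟨h1, h2⟩ := foldl_iter (L := qv (sz a)) (N := qv (sz a) + qf (sz a)) (fam a)
      (by omega) l' (v a) ((Sh.of_sz (v a)).mono e2) (by omega)
    have e5 : l'.length * (2 * (qv (sz a) + qf (sz a))) ≤
      qA (sz a) * (2 * (qv (sz a) + qf (sz a))) := Nat.mul_le_mul_right _ e1
    exact sz_vec_le (h1.mono (by omega)) h2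

/-! ### The entries of the colour vector -/

/-- One step of `alphaOf`. -/
def alStep (fam : Fam) (A : List (List Bool)) (s : Vec2 × Num2) (row : List Bool) :
    Vec2 × Num2 := ([] :: s.1, add s.2 (dot row (iter fam A s.1)))

/-- The trace of `A (1 + ∑ B) ^ n`. -/
def alphaOf (fam : Fam) (A : List (List Bool)) : Num2 :=
  (A.foldl (alStep fam A) ([[true]], [])).2

theorem foldl_alStep {N : ℕ} (fam : Fam) (hf : sz fam ≤ N) (A : List (List Bool))
    (hA : A.length ≤ N) (B : List (List Bool)) (hB : ∀ r ∈ B, r.length ≤ N) (s : Vec2 × Num2)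
    (k : ℕ) (h1 : Sh 1 s.1) (h2 : s.1.length ≤ k) (hk : k + B.length ≤ N)
    (h3 : s.2.length ≤ (1 + N * (2 * N) + N) + k) :
    Sh 1 (B.foldl (alStep fam A) s).1 ∧ (B.foldl (alStep fam A) s).1.length ≤ k + B.length ∧
      (B.foldl (alStep fam A) s).2.length ≤ (1 + N * (2 * N) + N) + (k + B.length) := by
  induction B generalizing s k with
  | nil => exact ⟨h1, by simpa using h2, by simpa using h3⟩
  | cons r B ih =>
    rw [List.length_cons] at hk
    have g1 : Sh 1 (alStep fam A s r).1 := by
      intro x hx
      rcases List.mem_cons.1 hx with h | h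
      · rw [h]; simp
      · exact h1 x h
    have g2 : (alStep fam A s r).1.length ≤ k + 1 := by
      simp [alStep]; omega
    have g3 : (alStep fam A s r).2.length ≤ (1 + N * (2 * N) + N) + (k + 1) := by
      show (add s.2 (dot r (iter fam A s.1))).length ≤ _
      rw [add_length]
      obtain ⟨q1, q2⟩ := foldl_iter (L := 1) (N := N) fam hf A s.1 h1 (by omega)
      have q3 := dot_length_le r q1
      have q4 := hB r (by simp)
      have q5 : A.length * (2 * N) ≤ N * (2 * N) := Nat.mul_le_mul_right _ hA
      omega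
    obtain ⟨e1, e2, e3⟩ := ih (fun r' hr' => hB r' (by simp [hr'])) (alStep fam A s r) (k + 1)
      g1 g2 (by omega) g3
    rw [List.foldl_cons]
    refine ⟨e1, e2.trans ?_, e3.trans ?_⟩ <;> · simp only [List.length_cons]; omega

theorem Poly.alphaOf {fam : α → Fam} {A : α → List (List Bool)} (hf : Poly fam)
    (hA : Poly A) : Poly (fun a => alphaOf (fam a) (A a)) := by
  obtain ⟨qf, hqf, Hf⟩ := hf.size
  obtain ⟨qA, hqA, HA⟩ := hA.size
  have hstep : Poly (fun p : α × ((Vec2 × Num2) × List Bool) =>
      alStep (fam p.1) (A p.1) p.2.1 p.2.2) := by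
    have hs : Poly (fun p : α × ((Vec2 × Num2) × List Bool) => p.2.1) := Poly.fst.comp Poly.snd
    have h1 : Poly (fun p : α × ((Vec2 × Num2) × List Bool) => p.2.1.1) := Poly.fst.comp hs
    have h2 : Poly (fun p : α × ((Vec2 × Num2) × List Bool) => p.2.1.2) := Poly.snd.comp hs
    have h3 : Poly (fun p : α × ((Vec2 × Num2) × List Bool) => p.2.2) := Poly.snd.comp Poly.snd
    exact Poly.pair (Poly.cons (Poly.const []) h1)
      (h2.add (h3.dot (Poly.iter (hf.comp Poly.fst) (hA.comp Poly.fst) h1)))
  refine Poly.snd.comp (Poly.foldl (step := fun p : α × ((Vec2 × Num2) × List Bool) =>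
        alStep (fam p.1) (A p.1) p.2.1 p.2.2) hA
      (Poly.const (([[true]], []) : Vec2 × Num2)) hstep
      (q := fun n => ((qA n + qf n + 1) * (4 * 1 + 2) + 1) +
        (4 * (1 + (qA n + qf n + 1) * (2 * (qA n + qf n + 1)) + (qA n + qf n + 1) +
          (qA n + qf n + 1)) + 1) + 1) ?_ ?_)
  · have hN := ((hqA.add hqf).add (PB.const 1))
    exact (((hN.mul (PB.const (4 * 1 + 2))).add (PB.const 1)).add
      ((((PB.const 4).mul ((((PB.const 1).add (hN.mul ((PB.const 2).mul hN))).add hN).add
        hN))).add (PB.const 1))).add (PB.const 1)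
  · intro a l' hl'
    have e1 := (length_le_sz l').le.trans ((sz_take_le hl').trans (HA a))
    have e2 := Hf a
    have e3 := HA a
    have e4 := (length_le_sz (A a)).le
    obtain ⟨h1, h2, h3⟩ := foldl_alStep (N := qA (sz a) + qf (sz a) + 1) (fam a) (by omega) (A a)
      (by omega) l' (fun r hr => (length_le_sz r).le.trans
        ((sz_le_of_mem (hl'.subset hr)).le.trans (by omega))) ([[true]], []) 1
      (fun x hx => by
        simp only [List.mem_singleton] at hx
        rw [hx]; simp) (by simp) (by omega) (by simp)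
    set r := l'.foldl (alStep (fam a) (A a)) ([[true]], []) with hr
    have e : r = (r.1, r.2) := rfl
    have e6 := sz_vec_le h1 (h2.trans (show 1 + l'.length ≤ qA (sz a) + qf (sz a) + 1 by omega))
    have e7 := sz_bools_le r.2
    show sz r ≤ _
    rw [e, sz_pair]
    omega

/-! ### Scaling and output -/

/-- Ten zeros. -/
def ten : Num2 := List.replicate 10 false

/-- `10 n²` zeros, `n` the length of the input. -/
def zeros (x : List Sym) : Num2 := x.flatMap fun _ => x.flatMap fun _ => ten

theorem zeros_eq (x : List Sym) :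
    zeros x = List.replicate (x.length * (x.length * 10)) false := by
  unfold zeros ten
  rw [List.flatMap_def, List.flatMap_def]
  simp only [List.map_const', List.flatten_replicate_replicate]

theorem Poly.zeros : Poly zeros :=
  Poly.flatMap (f := fun p : List Sym × Sym => p.1.flatMap fun _ => ten) Poly.id
    (Poly.flatMap (f := fun _ : (List Sym × Sym) × Sym => ten) Poly.fst (Poly.const _))

/-- Remove leading zeros. -/
def strip (x : Num2) : Num2 :=
  x.reverse.foldl (fun acc b => if b || !acc.isEmpty then b :: acc else []) []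

theorem Poly.isEmpty {l : α → List γ} (hl : Poly l) : Poly (fun x => (l x).isEmpty) := by
  have h : Poly (fun x => match l x with
      | [] => (fun _ : α => true) x
      | a :: t => (fun _ : α × (γ × List γ) => false) (x, (a, t))) :=
    hl.listCase (Poly.const _) (Poly.const _)
  exact h.of_eq fun x => by cases l x <;> rfl

theorem Poly.strip {x : α → Num2} (hx : Poly x) : Poly (fun a => strip (x a)) := by
  obtain ⟨qx, hqx, Hx⟩ := hx.size
  have hstep : Poly (fun p : α × (Num2 × Bool) =>
      if p.2.2 || !p.2.1.isEmpty then p.2.2 :: p.2.1 else []) := by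
    have h1 : Poly (fun p : α × (Num2 × Bool) => p.2.2) := Poly.snd.comp Poly.snd
    have h2 : Poly (fun p : α × (Num2 × Bool) => p.2.1) := Poly.fst.comp Poly.snd
    exact (h1.or h2.isEmpty.not).ite (Poly.cons h1 h2) (Poly.const [])
  refine Poly.foldl (step := fun p : α × (Num2 × Bool) =>
      if p.2.2 || !p.2.1.isEmpty then p.2.2 :: p.2.1 else []) hx.reverse (Poly.const []) hstep
      (q := fun n => 1 + qx n * 4) ((PB.const 1).add (hqx.mul (PB.const 4))) ?_
  intro a l' hl'
  refine (sz_foldl_le (B := 4) (fun s b => ?_) l' _).trans ?_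
  · have h1 := sz_bool b
    have h2 := sz_pos s
    simp only []
    split_ifs
    · rw [sz_cons]; omega
    · rw [sz_nil]; omega
  · rw [sz_nil]
    have := (length_le_sz l').le.trans (sz_take_le hl')
    rw [sz_reverse] at this
    have := Hx a
    show 1 + _ ≤ 1 + qx (sz a) * 4
    omega

/-- Output of a list of numbers, each followed by a comma. -/
def outp (l : List Num2) : List Sym := l.flatMap fun x => x.map dig ++ [.comma]

/-- The algorithm. -/
def algo (x : List Sym) : List Sym :=
  outp ((parse x).map fun A => strip (zeros x ++ alphaOf (parse x) A))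

theorem poly_algo : Poly algo := by
  have h1 : Poly (fun x : List Sym =>
      (parse x).map fun A => strip (zeros x ++ alphaOf (parse x) A)) :=
    Poly.map (f := fun p : List Sym × List (List Bool) =>
      strip (zeros p.1 ++ alphaOf (parse p.1) p.2)) Poly.parse
      (Poly.strip (Poly.append (Poly.zeros.comp Poly.fst)
        (Poly.alphaOf (Poly.parse.comp Poly.fst) Poly.snd)))
  have h2 : Poly outp := by
    refine Poly.flatMap (f := fun p : List Num2 × Num2 => p.2.map dig ++ [.comma]) Poly.id
      (Poly.append (Poly.map (f := fun p : (List Num2 × Num2) × Bool => dig p.2) Poly.snd ?_)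
        (Poly.const _))
    exact Poly.snd.ite (Poly.const Sym.one) (Poly.const Sym.zero)
  exact h2.comp h1

end Pool.Agent.Lib.MP_9c2350_lc
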