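import Mathlib

/-!
A small structured language of stack programs and its compilation to the multi-stack Turing
machines `Turing.FinTM2` of Mathlib.
-/

set_option autoImplicit false

namespace Pool.Agent.Lib.MP_9c2350_lc

open Turing StateTransition

/-- Structured stack programs. The stacks are indexed by natural numbers and hold symbols
of `Γ`. -/
inductive Cmd (Γ : Type) : Type
  | skip : Cmd Γ
  | push (k : ℕ) (a : Γ) : Cmd Γ
  | pop (k : ℕ) : Cmd Γ
  | seq (c d : Cmd Γ) : Cmd Γ
  | case (k : ℕ) (f : Option Γ → Cmd Γ) : Cmd Γ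
  | loop (k : ℕ) (f : Γ → Cmd Γ) : Cmd Γ

/-- Contents of all stacks. -/
abbrev St (Γ : Type) := ℕ → List Γ

/-- `Exec c s s' t`: the program `c` started with the stacks `s` ends with the stacks `s'`
after `t` steps. -/
inductive Exec {Γ : Type} : Cmd Γ → St Γ → St Γ → ℕ → Prop
  | skip (s : St Γ) : Exec .skip s s 1
  | push (k : ℕ) (a : Γ) (s : St Γ) : Exec (.push k a) s (Function.update s k (a :: s k)) 1
  | pop (k : ℕ) (s : St Γ) : Exec (.pop k) s (Function.update s k (s k).tail) 1
  | seq {c d : Cmd Γ} {s s' s'' : St Γ} {t t' : ℕ} :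
      Exec c s s' t → Exec d s' s'' t' → Exec (.seq c d) s s'' (t + t' + 1)
  | case {k : ℕ} {f : Option Γ → Cmd Γ} {s s' : St Γ} {t : ℕ} :
      Exec (f (s k).head?) s s' t → Exec (.case k f) s s' (t + 1)
  | loop_nil {k : ℕ} {f : Γ → Cmd Γ} {s : St Γ} : s k = [] → Exec (.loop k f) s s 1
  | loop_cons {k : ℕ} {f : Γ → Cmd Γ} {s s' s'' : St Γ} {a : Γ} {l : List Γ} {t t' : ℕ} :
      s k = a :: l → Exec (f a) (Function.update s k l) s' t → Exec (.loop k f) s' s'' t' →
      Exec (.loop k f) s s'' (t + t' + 1)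

namespace Cmd

variable {Γ : Type}

/-- `c.Bdd N`: all stacks mentioned by `c` have index less than `N`. -/
def Bdd (N : ℕ) : Cmd Γ → Prop
  | skip => True
  | push k _ => k < N
  | pop k => k < N
  | seq c d => c.Bdd N ∧ d.Bdd N
  | case k f => k < N ∧ ∀ o, (f o).Bdd N
  | loop k f => k < N ∧ ∀ a, (f a).Bdd N

theorem Bdd.mono {N N' : ℕ} (h : N ≤ N') : ∀ {c : Cmd Γ}, c.Bdd N → c.Bdd N'
  | skip, _ => trivial
  | push _ _, hc => lt_of_lt_of_le hc h
  | pop _, hc => lt_of_lt_of_le hc h
  | seq _ _, hc => ⟨Bdd.mono h hc.1, Bdd.mono h hc.2⟩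
  | case _ _, hc => ⟨lt_of_lt_of_le hc.1 h, fun o => Bdd.mono h (hc.2 o)⟩
  | loop _ _, hc => ⟨lt_of_lt_of_le hc.1 h, fun o => Bdd.mono h (hc.2 o)⟩

theorem exists_bdd [Finite Γ] (c : Cmd Γ) : ∃ N, c.Bdd N := by
  induction c with
  | skip => exact ⟨0, trivial⟩
  | push k a => exact ⟨k + 1, Nat.lt_succ_self k⟩
  | pop k => exact ⟨k + 1, Nat.lt_succ_self k⟩
  | seq c d ihc ihd =>
    obtain ⟨N, hN⟩ := ihc
    obtain ⟨M, hM⟩ := ihd
    exact ⟨max N M, hN.mono (le_max_left _ _), hM.mono (le_max_right _ _)⟩
  | case k f ih =>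
    choose N hN using ih
    obtain ⟨M, hM⟩ := (Set.finite_range N).bddAbove
    refine ⟨max (k + 1) M, lt_of_lt_of_le (Nat.lt_succ_self k) (le_max_left _ _), fun o => ?_⟩
    exact (hN o).mono (le_trans (hM ⟨o, rfl⟩) (le_max_right _ _))
  | loop k f ih =>
    choose N hN using ih
    obtain ⟨M, hM⟩ := (Set.finite_range N).bddAbove
    refine ⟨max (k + 1) M, lt_of_lt_of_le (Nat.lt_succ_self k) (le_max_left _ _), fun o => ?_⟩
    exact (hN o).mono (le_trans (hM ⟨o, rfl⟩) (le_max_right _ _))

/-- Program points reachable when running `c` with the continuation `κ`. -/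
def points : Cmd Γ → List (Cmd Γ) → Set (List (Cmd Γ))
  | skip, κ => {skip :: κ}
  | push k a, κ => {push k a :: κ}
  | pop k, κ => {pop k :: κ}
  | seq c d, κ => insert (seq c d :: κ) (points c (d :: κ) ∪ points d κ)
  | case k f, κ => insert (case k f :: κ) (⋃ o, points (f o) κ)
  | loop k f, κ => insert (loop k f :: κ) (⋃ a, points (f a) (loop k f :: κ))

theorem points_finite [Finite Γ] (c : Cmd Γ) : ∀ κ, (points c κ).Finite := by
  induction c with
  | skip => intro κ; exact Set.finite_singleton _
  | push k a => intro κ; exact Set.finite_singleton _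
  | pop k => intro κ; exact Set.finite_singleton _
  | seq c d ihc ihd => intro κ; exact ((ihc _).union (ihd _)).insert _
  | case k f ih => intro κ; exact (Set.finite_iUnion fun o => ih o _).insert _
  | loop k f ih => intro κ; exact (Set.finite_iUnion fun o => ih o _).insert _

theorem self_mem_points (c : Cmd Γ) (κ : List (Cmd Γ)) : (c :: κ) ∈ points c κ := by
  cases c <;> simp [points]

end Cmd

section Compile

variable {Γ : Type}

/-- The stack with index `k`, or the last one. -/
def toFin (N : ℕ) (k : ℕ) : Fin (N + 1) := ⟨min k N, Nat.lt_succ_of_le (min_le_right _ _)⟩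

theorem toFin_val {N k : ℕ} (h : k < N + 1) : ((toFin N k : Fin (N + 1)) : ℕ) = k := by
  simp only [toFin]; omega

open Classical in
/-- The label belonging to a list of commands. -/
noncomputable def lab (P : Set (List (Cmd Γ))) (h : [] ∈ P) (κ : List (Cmd Γ)) : P :=
  if hκ : κ ∈ P then ⟨κ, hκ⟩ else ⟨[], h⟩

/-- The statement of the machine at a program point. -/
noncomputable def stmtOf (N : ℕ) (P : Set (List (Cmd Γ))) (h : [] ∈ P) :
    List (Cmd Γ) → TM2.Stmt (fun _ : Fin (N + 1) => Γ) P (Option Γ)
  | [] => .load (fun _ => none) .halt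
  | .skip :: κ => .goto fun _ => lab P h κ
  | .push k a :: κ => .push (toFin N k) (fun _ => a) (.goto fun _ => lab P h κ)
  | .pop k :: κ => .pop (toFin N k) (fun _ x => x) (.goto fun _ => lab P h κ)
  | .seq c d :: κ => .goto fun _ => lab P h (c :: d :: κ)
  | .case k f :: κ => .peek (toFin N k) (fun _ x => x) (.goto fun x => lab P h (f x :: κ))
  | .loop k f :: κ => .pop (toFin N k) (fun _ x => x)
      (.goto fun x => match x with
        | none => lab P h κ
        | some a => lab P h (f a :: .loop k f :: κ))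

/-- Restriction of the stacks to the first `N + 1`. -/
def restr (N : ℕ) (s : St Γ) : ∀ _ : Fin (N + 1), List Γ := fun i => s i

theorem restr_update {N k : ℕ} (h : k < N + 1) (s : St Γ) (l : List Γ) :
    restr N (Function.update s k l) = Function.update (restr N s) (toFin N k) l := by
  funext i
  by_cases hi : i = toFin N k
  · subst hi
    simp only [restr, Function.update_self]
    rw [toFin_val h, Function.update_self]
  · rw [Function.update_of_ne hi]
    simp only [restr]
    rw [Function.update_of_ne]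
    intro h2
    apply hi
    apply Fin.ext
    rw [toFin_val h, h2]

theorem restr_toFin {N k : ℕ} (h : k < N + 1) (s : St Γ) : restr N s (toFin N k) = s k := by
  simp only [restr, toFin_val h]

/-- The step function of the machine. -/
noncomputable def mstep (N : ℕ) (P : Set (List (Cmd Γ))) (h : [] ∈ P) :=
  TM2.step (K := Fin (N + 1)) (Γ := fun _ => Γ) (Λ := P) (σ := Option Γ) (fun l => stmtOf N P h l)

theorem iter_add {σ : Type*} (f : σ → Option σ) (m n : ℕ) (a b : σ) (c : Option σ)
    (h1 : (flip bind f)^[m] (some a) = some b) (h2 : (flip bind f)^[n] (some b) = c) :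
    (flip bind f)^[m + n] (some a) = c := by
  rw [Nat.add_comm, Function.iterate_add_apply, h1, h2]

theorem lab_of_mem {P : Set (List (Cmd Γ))} {h : [] ∈ P} {κ : List (Cmd Γ)} (hκ : κ ∈ P) :
    lab P h κ = ⟨κ, hκ⟩ := by
  unfold lab; rw [dif_pos hκ]

/-- The machine simulates the program. -/
theorem sim (N : ℕ) (P : Set (List (Cmd Γ))) (h0 : [] ∈ P)
    {c : Cmd Γ} {s s' : St Γ} {t : ℕ} (hE : Exec c s s' t) :
    ∀ (κ : List (Cmd Γ)) (v : Option Γ), c.Bdd (N + 1) → c.points κ ⊆ P → κ ∈ P →
      ∃ v', (flip bind (mstep N P h0))^[t] (some ⟨some (lab P h0 (c :: κ)), v, restr N s⟩) =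
        some ⟨some (lab P h0 κ), v', restr N s'⟩ := by
  induction hE with
  | skip s =>
    intro κ v hb hP hκ
    have hm : (Cmd.skip :: κ : List (Cmd Γ)) ∈ P := hP (Cmd.self_mem_points _ _)
    refine ⟨v, ?_⟩
    rw [Function.iterate_one, lab_of_mem hm]
    simp [flip, mstep, stmtOf]
  | push k a s =>
    intro κ v hb hP hκ
    have hm : (Cmd.push k a :: κ : List (Cmd Γ)) ∈ P := hP (Cmd.self_mem_points _ _)
    refine ⟨v, ?_⟩
    rw [Function.iterate_one, lab_of_mem hm]
    simp only [flip, mstep, Option.bind_eq_bind, Option.bind_some, TM2.step, stmtOf, TM2.stepAux]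
    rw [restr_update hb, restr_toFin hb]
  | pop k s =>
    intro κ v hb hP hκ
    have hm : (Cmd.pop k :: κ : List (Cmd Γ)) ∈ P := hP (Cmd.self_mem_points _ _)
    refine ⟨(s k).head?, ?_⟩
    rw [Function.iterate_one, lab_of_mem hm]
    simp only [flip, mstep, Option.bind_eq_bind, Option.bind_some, TM2.step, stmtOf, TM2.stepAux]
    rw [restr_update hb, restr_toFin hb]
  | @seq c d s s' s'' t t' h1 h2 ih1 ih2 =>
    intro κ v hb hP hκ
    have hm : (Cmd.seq c d :: κ : List (Cmd Γ)) ∈ P := hP (Cmd.self_mem_points _ _)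
    have hP1 : Cmd.points c (d :: κ) ⊆ P := fun x hx =>
      hP (Set.mem_insert_of_mem _ (Or.inl hx))
    have hP2 : Cmd.points d κ ⊆ P := fun x hx => hP (Set.mem_insert_of_mem _ (Or.inr hx))
    have hd : (d :: κ) ∈ P := hP2 (Cmd.self_mem_points _ _)
    obtain ⟨v1, e1⟩ := ih1 (d :: κ) v hb.1 hP1 hd
    obtain ⟨v2, e2⟩ := ih2 κ v1 hb.2 hP2 hκ
    refine ⟨v2, ?_⟩
    have e0 : (flip bind (mstep N P h0))^[1]
        (some ⟨some (lab P h0 (Cmd.seq c d :: κ)), v, restr N s⟩) =
        some ⟨some (lab P h0 (c :: d :: κ)), v, restr N s⟩ := by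
      rw [Function.iterate_one, lab_of_mem hm]
      simp [flip, mstep, stmtOf]
    have := iter_add _ _ _ _ _ _ e0 (iter_add _ _ _ _ _ _ e1 e2)
    rw [show t + t' + 1 = 1 + (t + t') by omega]
    exact this
  | @case k f s s' t h1 ih1 =>
    intro κ v hb hP hκ
    have hm : (Cmd.case k f :: κ : List (Cmd Γ)) ∈ P := hP (Cmd.self_mem_points _ _)
    have hP1 : Cmd.points (f (s k).head?) κ ⊆ P := fun x hx =>
      hP (Set.mem_insert_of_mem _ (Set.mem_iUnion.2 ⟨_, hx⟩))
    obtain ⟨v1, e1⟩ := ih1 κ (s k).head? (hb.2 _) hP1 hκ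
    refine ⟨v1, ?_⟩
    have e0 : (flip bind (mstep N P h0))^[1]
        (some ⟨some (lab P h0 (Cmd.case k f :: κ)), v, restr N s⟩) =
        some ⟨some (lab P h0 (f (s k).head? :: κ)), (s k).head?, restr N s⟩ := by
      rw [Function.iterate_one, lab_of_mem hm]
      simp only [flip, mstep, Option.bind_eq_bind, Option.bind_some, TM2.step, stmtOf,
        TM2.stepAux]
      rw [restr_toFin hb.1]
    have := iter_add _ _ _ _ _ _ e0 e1
    rw [show t + 1 = 1 + t by omega]
    exact this
  | @loop_nil k f s hs =>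
    intro κ v hb hP hκ
    have hm : (Cmd.loop k f :: κ : List (Cmd Γ)) ∈ P := hP (Cmd.self_mem_points _ _)
    refine ⟨none, ?_⟩
    rw [Function.iterate_one, lab_of_mem hm]
    simp only [flip, mstep, Option.bind_eq_bind, Option.bind_some, TM2.step, stmtOf, TM2.stepAux]
    rw [restr_toFin hb.1, hs]
    have : Function.update (restr N s) (toFin N k) ([] : List Γ).tail = restr N s := by
      rw [← restr_update hb.1]
      congr 1
      funext i
      by_cases hi : i = k
      · subst hi; simp [hs]
      · rw [Function.update_of_ne hi]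
    rw [this]
    rfl
  | @loop_cons k f s s' s'' a l t t' hs h1 h2 ih1 ih2 =>
    intro κ v hb hP hκ
    have hm : (Cmd.loop k f :: κ : List (Cmd Γ)) ∈ P := hP (Cmd.self_mem_points _ _)
    have hP1 : Cmd.points (f a) (Cmd.loop k f :: κ) ⊆ P := fun x hx =>
      hP (Set.mem_insert_of_mem _ (Set.mem_iUnion.2 ⟨a, hx⟩))
    obtain ⟨v1, e1⟩ := ih1 (Cmd.loop k f :: κ) (some a) (hb.2 _) hP1 hm
    obtain ⟨v2, e2⟩ := ih2 κ v1 hb hP hκ
    refine ⟨v2, ?_⟩
    have e0 : (flip bind (mstep N P h0))^[1]
        (some ⟨some (lab P h0 (Cmd.loop k f :: κ)), v, restr N s⟩) =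
        some ⟨some (lab P h0 (f a :: Cmd.loop k f :: κ)), some a,
          restr N (Function.update s k l)⟩ := by
      rw [Function.iterate_one, lab_of_mem hm]
      simp only [flip, mstep, Option.bind_eq_bind, Option.bind_some, TM2.step, stmtOf,
        TM2.stepAux]
      rw [restr_toFin hb.1, hs, restr_update hb.1]
      rfl
    have := iter_add _ _ _ _ _ _ e0 (iter_add _ _ _ _ _ _ e1 e2)
    rw [show t + t' + 1 = 1 + (t + t') by omega]
    exact this

/-- The stacks that are all empty except stack `0`. -/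
def single (x : List Γ) : St Γ := Function.update (fun _ => []) 0 x

/-- The machine of a program. -/
noncomputable def tmOf [Fintype Γ] (N : ℕ) (c : Cmd Γ) (P : Set (List (Cmd Γ))) (h0 : [] ∈ P)
    (hfin : P.Finite) : FinTM2 :=
  haveI : Fintype P := hfin.fintype
  { K := Fin (N + 1)
    k₀ := 0
    k₁ := 0
    Γ := fun _ => Γ
    Λ := P
    main := lab P h0 [c]
    σ := Option Γ
    initialState := none
    m := fun l => stmtOf N P h0 l }

/-- A function on strings computed by a stack program in polynomial time is computable in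
polynomial time by a machine `Turing.FinTM2`. -/
theorem polyTime_of_cmd [Fintype Γ] (c : Cmd Γ) (f : List Γ → List Γ) (p : Polynomial ℕ)
    (h : ∀ x, ∃ t ≤ p.eval x.length, Exec c (single x) (single (f x)) t) :
    Nonempty (TM2ComputableInPolyTime (id : List Γ → List Γ) (id : List Γ → List Γ) f) := by
  obtain ⟨N, hN⟩ := c.exists_bdd
  have hN' : c.Bdd (N + 1) := hN.mono (Nat.le_succ N)
  let P : Set (List (Cmd Γ)) := insert [] (c.points [])
  have h0 : [] ∈ P := Set.mem_insert _ _
  have hfin : P.Finite := (c.points_finite []).insert _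
  have hPc : c.points [] ⊆ P := Set.subset_insert _ _
  refine ⟨{ tm := tmOf N c P h0 hfin
            inputAlphabet := Equiv.refl Γ
            outputAlphabet := Equiv.refl Γ
            time := p + 1
            outputsFun := fun x => Classical.choice ?_ }⟩
  obtain ⟨t, ht, hE⟩ := h x
  obtain ⟨v, hv⟩ := sim N P h0 hE [] none hN' hPc h0
  refine ⟨⟨⟨t + 1, ?_⟩, ?_⟩⟩
  · have hinit : initList (tmOf N c P h0 hfin) (List.map (Equiv.refl Γ).invFun (id x)) =
        (⟨some (lab P h0 [c]), none, restr N (single x)⟩ :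
          TM2.Cfg (fun _ : Fin (N + 1) => Γ) P (Option Γ)) := by
      unfold initList
      congr 1
      funext i
      by_cases hi : i = (0 : Fin (N + 1))
      · subst hi
        refine (dif_pos (rfl : (0 : Fin (N + 1)) = 0)).trans ?_
        change List.map (fun a => a) x = single x 0
        simp [single]
      · refine (dif_neg hi).trans ?_
        change [] = restr N (single x) i
        simp only [restr, single]
        rw [Function.update_of_ne]
        intro h2
        exact hi (Fin.ext h2)
    have hhalt : haltList (tmOf N c P h0 hfin) (List.map (Equiv.refl Γ).invFun (id (f x))) =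
        (⟨none, none, restr N (single (f x))⟩ :
          TM2.Cfg (fun _ : Fin (N + 1) => Γ) P (Option Γ)) := by
      unfold haltList
      congr 1
      funext i
      by_cases hi : i = (0 : Fin (N + 1))
      · subst hi
        refine (dif_pos (rfl : (0 : Fin (N + 1)) = 0)).trans ?_
        change List.map (fun a => a) (f x) = single (f x) 0
        simp [single]
      · refine (dif_neg hi).trans ?_
        change [] = restr N (single (f x)) i
        simp only [restr, single]
        rw [Function.update_of_ne]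
        intro h2
        exact hi (Fin.ext h2)
    have hlast : (flip bind (mstep N P h0))^[1]
        (some ⟨some (lab P h0 []), v, restr N (single (f x))⟩) =
        some ⟨none, none, restr N (single (f x))⟩ := by
      rw [Function.iterate_one, lab_of_mem h0]
      simp [flip, mstep, stmtOf]
    have := iter_add _ _ _ _ _ _ hv hlast
    change (flip bind (mstep N P h0))^[t + 1] (some _) = some _
    erw [hinit, hhalt]
    exact this
  · simp only [Polynomial.eval_add, Polynomial.eval_one, id_eq]
    omega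

end Compile

end Pool.Agent.Lib.MP_9c2350_lc
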