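import Pool.Agent.Lib.MP_9c2350_lc.Poly

section

/-!
Closure of polynomial time functions under folding over a list.
-/

set_option autoImplicit false
set_option linter.unusedSimpArgs false

namespace Pool.Agent.Lib.MP_9c2350_lc



variable {α β γ σ δ : Type} [Enc α] [Enc β] [Enc γ] [Enc σ] [Enc δ]

/-- The body of the loop of a fold. -/
def foldBody (c : Cmd Sym) : Cmd Sym :=
  .seq (item 1 3 4) (.seq (mv 3 4) (.seq (mv 2 3) (.seq (mv 3 4) (.seq (.push 4 T)
    (.seq (cp 0 4 3) (.seq (.push 4 T) (.seq (c.shift 4) (.seq (mv 4 3) (mv 3 2)))))))))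

theorem runs_foldBody {step : α × (σ × γ) → σ} {c : Cmd Sym} {p : ℕ → ℕ}
    (H : ∀ x, Runs c (cs (word x) E) (cs (word (step x)) E) (p (sz x))) (x : α) (s : σ) (b : γ)
    (rest : List Sym) :
    Runs (foldBody c) (cs (word x) (cs (word b ++ rest) (cs (word s) E)))
      (cs (word x) (cs rest (cs (word (step (x, (s, b)))) E)))
      (11 * sz b + 4 * sz s + 6 * sz x + p (sz x + sz s + sz b + 2) +
        4 * sz (step (x, (s, b))) + 30) := by
  have h1 := runs_item (i := 1) (j := 3) (k := 4) (by decide) (by decide) (by decide)
    (Enc.enc b) rest (cs (word x) (cs (word b ++ rest) (cs (word s) E))) rfl rfl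
  simp only [update_cs_zero, cs_zero, update_cs_succ, cs_succ, update_E_zero, update_E_succ, E_apply,
    List.append_nil, List.reverse_reverse, cs_nil_E] at h1
  have h2 := runs_mv (i := 3) (j := 4) (by decide)
    (cs (word x) (cs rest (cs (word s) (cs (word b).reverse E))))
  simp only [update_cs_zero, cs_zero, update_cs_succ, cs_succ, update_E_zero, update_E_succ, E_apply,
    List.append_nil, List.reverse_reverse, cs_nil_E] at h2
  have h3 := runs_mv (i := 2) (j := 3) (by decide)
    (cs (word x) (cs rest (cs (word s) (cs [] (cs (word b) E)))))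
  simp only [update_cs_zero, cs_zero, update_cs_succ, cs_succ, update_E_zero, update_E_succ, E_apply,
    List.append_nil, List.reverse_reverse, cs_nil_E] at h3
  have h4 := runs_mv (i := 3) (j := 4) (by decide)
    (cs (word x) (cs rest (cs [] (cs (word s).reverse (cs (word b) E)))))
  simp only [update_cs_zero, cs_zero, update_cs_succ, cs_succ, update_E_zero, update_E_succ, E_apply,
    List.append_nil, List.reverse_reverse, cs_nil_E] at h4
  have h5 := Runs.push 4 T
    (cs (word x) (cs rest (cs [] (cs [] (cs (word s ++ word b) E)))))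
  simp only [update_cs_zero, cs_zero, update_cs_succ, cs_succ, update_E_zero, update_E_succ, E_apply,
    List.append_nil, List.reverse_reverse, cs_nil_E] at h5
  have h6 := runs_cp (i := 0) (j := 4) (t := 3) (by decide) (by decide) (by decide)
    (cs (word x) (cs rest (cs [] (cs [] (cs (T :: (word s ++ word b)) E))))) rfl
  simp only [update_cs_zero, cs_zero, update_cs_succ, cs_succ, update_E_zero, update_E_succ, E_apply,
    List.append_nil, List.reverse_reverse, cs_nil_E] at h6
  have h7 := Runs.push 4 T
    (cs (word x) (cs rest (cs [] (cs [] (cs (word x ++ T :: (word s ++ word b)) E)))))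
  simp only [update_cs_zero, cs_zero, update_cs_succ, cs_succ, update_E_zero, update_E_succ, E_apply,
    List.append_nil, List.reverse_reverse, cs_nil_E] at h7
  have h8 := (H (x, (s, b))).shift4 (word x) rest [] []
  have h9 := runs_mv (i := 4) (j := 3) (by decide)
    (cs (word x) (cs rest (cs [] (cs [] (cs (word (step (x, (s, b)))) E)))))
  simp only [update_cs_zero, cs_zero, update_cs_succ, cs_succ, update_E_zero, update_E_succ, E_apply,
    List.append_nil, List.reverse_reverse, cs_nil_E] at h9
  have h10 := runs_mv (i := 3) (j := 2) (by decide)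
    (cs (word x) (cs rest (cs [] (cs (word (step (x, (s, b)))).reverse E))))
  simp only [update_cs_zero, cs_zero, update_cs_succ, cs_succ, update_E_zero, update_E_succ, E_apply,
    List.append_nil, List.reverse_reverse, cs_nil_E] at h10
  refine (h1.seq (h2.seq (h3.seq (h4.seq (h5.seq (h6.seq (h7.seq (h8.seq (h9.seq
    h10))))))))).to rfl ?_
  have e : sz (x, (s, b)) = sz x + sz s + sz b + 2 := by rw [sz_pair, sz_pair]; omega
  rw [e]
  simp only [List.length_reverse]
  show 9 * sz b + 3 + (2 * sz b + 1 + (2 * sz s + 1 + (2 * sz s + 1 + (1 + (6 * sz x + 3 + (1 +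
    (p (sz x + sz s + sz b + 2) + (2 * sz (step (x, (s, b))) + 1 +
      (2 * sz (step (x, (s, b))) + 1) + 1) + 1) + 1) + 1) + 1) + 1) + 1) + 1) + 1 ≤ _
  omega

/-- The loop of a fold. -/
def foldLoop (c : Cmd Sym) : Cmd Sym := .loop 1 fun a => if a = T then foldBody c else .skip

theorem runs_foldLoop {step : α × (σ × γ) → σ} {c : Cmd Sym} {p : ℕ → ℕ}
    (H : ∀ x, Runs c (cs (word x) E) (cs (word (step x)) E) (p (sz x))) (x : α) (K : ℕ) :
    ∀ (l₂ l₁ : List γ) (s0 : σ), (∀ l', ∀ b, (l' ++ [b]) <+: (l₁ ++ l₂) →
        11 * sz b + 4 * sz (l'.foldl (fun s b => step (x, (s, b))) s0) + 6 * sz x +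
        p (sz x + sz (l'.foldl (fun s b => step (x, (s, b))) s0) + sz b + 2) +
        4 * sz ((l' ++ [b]).foldl (fun s b => step (x, (s, b))) s0) + 30 ≤ K) →
      Runs (foldLoop c) (cs (word x) (cs (word l₂)
        (cs (word (l₁.foldl (fun s b => step (x, (s, b))) s0)) E)))
      (cs (word x) (cs [] (cs (word ((l₁ ++ l₂).foldl (fun s b => step (x, (s, b))) s0)) E)))
      (l₂.length * (K + 1) + 3) := by
  intro l₂
  induction l₂ with
  | nil =>
    intro l₁ s0 _
    rw [List.append_nil]
    refine (Runs.loop_cons (k := 1) (a := F) (l := []) rfl (s' := cs (word x) (cs []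
      (cs (word (l₁.foldl (fun s b => step (x, (s, b))) s0)) E))) (B := 1) ?_
      (Runs.loop_nil rfl)).mono (by simp)
    refine (Runs.skip _).to ?_ (le_refl _)
    simp only [update_cs_zero, cs_zero, update_cs_succ, cs_succ]
  | cons b l₂ ih =>
    intro l₁ s0 hK
    have h2 := ih (l₁ ++ [b]) s0 (fun l' b' hl' => hK l' b' (by simpa using hl'))
    have hKb := hK l₁ b (by simp)
    have h1 := runs_foldBody H x (l₁.foldl (fun s b => step (x, (s, b))) s0) b (word l₂)
    have e1 : (l₁ ++ [b]).foldl (fun s b => step (x, (s, b))) s0 =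
        step (x, (l₁.foldl (fun s b => step (x, (s, b))) s0, b)) := by simp
    rw [e1] at h2 hKb
    refine (Runs.loop_cons (k := 1) (a := T) (l := word b ++ word l₂) rfl
      (s' := cs (word x) (cs (word l₂) (cs (word (step (x,
        (l₁.foldl (fun s b => step (x, (s, b))) s0, b)))) E))) (B := K) ?_ h2).to ?_ ?_
    · refine Runs.mono (B := _) ?_ hKb
      refine cast ?_ h1
      simp only [update_cs_zero, cs_zero, update_cs_succ, cs_succ, if_true]
    · simp [List.append_assoc]
    · simp only [List.length_cons, Nat.succ_mul]; omega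

theorem Poly.foldl {l : α → List γ} {s0 : α → σ} {step : α × (σ × γ) → σ} (hl : Poly l)
    (h0 : Poly s0) (hs : Poly step) {q : ℕ → ℕ} (hq : PB q)
    (hb : ∀ x, ∀ l', l' <+: l x →
      sz (l'.foldl (fun s b => step (x, (s, b))) (s0 x)) ≤ q (sz x)) :
    Poly (fun x => (l x).foldl (fun s b => step (x, (s, b))) (s0 x)) := by
  obtain ⟨ql, hql, Hql⟩ := hl.size
  obtain ⟨q0, hq0, Hq0⟩ := h0.size
  obtain ⟨cl, pl, hpl, Hl⟩ := hl
  obtain ⟨c0, p0, hp0, H0⟩ := h0
  obtain ⟨c, p, hp, H⟩ := hs
  refine ⟨.seq (cp 0 1 2) (.seq (cl.shift 1) (.seq (cp 0 2 3) (.seq (c0.shift 2)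
    (.seq (foldLoop c) (.seq (clr 0) (.seq (mv 2 1) (mv 1 0))))))),
    fun n => (6 * n + 3) + pl n + (6 * n + 3) + p0 n +
      (ql n * ((11 * ql n + 4 * q n + 6 * n + p (n + q n + ql n + 2) + 4 * q n + 30) + 1) + 3) +
      (2 * n + 1) + (2 * q n + 1) + (2 * q n + 1) + 7, ?_, fun x => ?_⟩
  · have l6 := ((PB.const 6).mul PB.id).add (PB.const 3)
    have l2 := ((PB.const 2).mul PB.id).add (PB.const 1)
    have q2 := ((PB.const 2).mul hq).add (PB.const 1)
    have hK := ((((((PB.const 11).mul hql).add ((PB.const 4).mul hq)).add
      ((PB.const 6).mul PB.id)).add (hp.comp (((PB.id.add hq).add hql).add (PB.const 2)))).add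
      ((PB.const 4).mul hq)).add (PB.const 30)
    have hL := (hql.mul (hK.add (PB.const 1))).add (PB.const 3)
    exact ((((((((l6.add hpl).add l6).add hp0).add hL).add l2).add q2).add q2).add (PB.const 7))
  · set n := sz x with hn
    set K := 11 * ql n + 4 * q n + 6 * n + p (n + q n + ql n + 2) + 4 * q n + 30 with hK
    have h1 := runs_cp (i := 0) (j := 1) (t := 2) (by decide) (by decide) (by decide)
      (cs (word x) E) rfl
    simp only [update_cs_zero, cs_zero, update_cs_succ, cs_succ, update_E_zero, update_E_succ, E_apply,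
      List.append_nil] at h1
    have h2 := (Hl x).shift1 (word x)
    have h3 := runs_cp (i := 0) (j := 2) (t := 3) (by decide) (by decide) (by decide)
      (cs (word x) (cs (word (l x)) E)) rfl
    simp only [update_cs_zero, cs_zero, update_cs_succ, cs_succ, update_E_zero, update_E_succ, E_apply,
      List.append_nil] at h3
    have h4 := (H0 x).shift2 (word x) (word (l x))
    have h5 := runs_foldLoop H x K (l x) [] (s0 x) (by
      intro l' b hl'
      rw [List.nil_append] at hl'
      have e1 : sz b ≤ ql n := (sz_le_of_mem (hl'.subset (by simp))).le.trans (Hql x)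
      have e2 := hb x l' ((List.prefix_append _ _).trans hl')
      have e3 := hb x _ hl'
      rw [← hn] at e2 e3
      have e4 : p (n + sz (l'.foldl (fun s b => step (x, (s, b))) (s0 x)) + sz b + 2) ≤
        p (n + q n + ql n + 2) := hp.1 (by omega)
      rw [← hn]
      omega)
    rw [List.nil_append, List.foldl_nil] at h5
    have h6 := runs_clr 0 (cs (word x) (cs []
      (cs (word ((l x).foldl (fun s b => step (x, (s, b))) (s0 x))) E)))
    simp only [update_cs_zero, cs_zero, update_cs_succ, cs_succ, update_E_zero, update_E_succ, E_apply,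
      List.append_nil] at h6
    have h7 := runs_mv (i := 2) (j := 1) (by decide) (cs [] (cs []
      (cs (word ((l x).foldl (fun s b => step (x, (s, b))) (s0 x))) E)))
    simp only [update_cs_zero, cs_zero, update_cs_succ, cs_succ, update_E_zero, update_E_succ, E_apply,
      List.append_nil, cs_nil_E] at h7
    have h8 := runs_mv (i := 1) (j := 0) (by decide) (cs []
      (cs (word ((l x).foldl (fun s b => step (x, (s, b))) (s0 x))).reverse E))
    simp only [update_cs_zero, cs_zero, update_cs_succ, cs_succ, update_E_zero, update_E_succ, E_apply,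
      List.append_nil, List.reverse_reverse, cs_nil_E] at h8
    refine (h1.seq (h2.seq (h3.seq (h4.seq (h5.seq (h6.seq (h7.seq h8))))))).to rfl ?_
    simp only [List.length_reverse]
    have e1 : (l x).length ≤ ql n := (length_le_sz _).le.trans (Hql x)
    have e2 : (l x).length * (K + 1) ≤ ql n * (K + 1) := Nat.mul_le_mul_right _ e1
    have e3 : (word ((l x).foldl (fun s b => step (x, (s, b))) (s0 x))).length ≤ q n :=
      hb x (l x) (List.prefix_refl _)
    have e4 : (word x).length = n := rfl
    show 6 * (word x).length + 3 + (pl n + (6 * (word x).length + 3 + (p0 n +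
      ((l x).length * (K + 1) + 3 + (2 * (word x).length + 1 +
      (2 * (word ((l x).foldl (fun s b => step (x, (s, b))) (s0 x))).length + 1 +
      (2 * (word ((l x).foldl (fun s b => step (x, (s, b))) (s0 x))).length + 1) + 1) + 1) + 1) +
      1) + 1) + 1) + 1 ≤ (6 * n + 3) + pl n + (6 * n + 3) + p0 n + (ql n * (K + 1) + 3) +
      (2 * n + 1) + (2 * q n + 1) + (2 * q n + 1) + 7
    omega

end Pool.Agent.Lib.MP_9c2350_lc
end

section

/-!
Derived closure properties, and the link with Turing machines working on words.
-/

set_option autoImplicit false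
set_option linter.unusedSimpArgs false

namespace Pool.Agent.Lib.MP_9c2350_lc

open Turing

variable {α β γ σ δ : Type} [Enc α] [Enc β] [Enc γ] [Enc σ] [Enc δ]

/-! ### Case distinction on lists -/

theorem Poly.listCase {l : α → List γ} {f : α → β} {g : α × (γ × List γ) → β} (hl : Poly l)
    (hf : Poly f) (hg : Poly g) :
    Poly (fun x => match l x with
      | [] => f x
      | a :: t => g (x, (a, t))) := by
  obtain ⟨ql, hql, Hql⟩ := hl.size
  obtain ⟨cl, pl, hpl, Hl⟩ := hl
  obtain ⟨cf, pf, hpf, Hf⟩ := hf
  obtain ⟨cg, pg, hpg, Hg⟩ := hg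
  refine ⟨.seq (cp 0 1 2) (.seq (cl.shift 1) (.case 1 fun o => if o = some T then
      .seq (mv 0 2) (.seq (mv 1 3) (.seq (mv 3 0) (.seq (mv 2 0) (.seq (.push 0 T) cg))))
      else .seq (clr 1) cf)),
    fun n => (6 * n + 3) + pl n + ((4 * n + 4 * ql n + 12) + pg (n + ql n + 1) + pf n + 5) + 2,
    ?_, fun x => ?_⟩
  · have l6 := ((PB.const 6).mul PB.id).add (PB.const 3)
    have l4 := (((PB.const 4).mul PB.id).add ((PB.const 4).mul hql)).add (PB.const 12)
    exact ((l6.add hpl).add (((l4.add (hpg.comp ((PB.id.add hql).add (PB.const 1)))).add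
      hpf).add (PB.const 5))).add (PB.const 2)
  · have h1 := runs_cp (i := 0) (j := 1) (t := 2) (by decide) (by decide) (by decide)
      (cs (word x) E) rfl
    simp only [update_cs_zero, cs_zero, update_cs_succ, cs_succ, update_E_zero, update_E_succ,
      E_apply, List.append_nil] at h1
    have h2 := (Hl x).shift1 (word x)
    set n := sz x with hn
    have hq : sz (l x) ≤ ql n := Hql x
    refine (h1.seq (h2.seq (Runs.case
      (B := (4 * n + 4 * ql n + 12) + pg (n + ql n + 1) + pf n + 4) ?_))).mono ?_
    · cases hlx : l x with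
      | nil =>
        have h3 := runs_clr 1 (cs (word x) (cs (word ([] : List γ)) E))
        simp only [update_cs_zero, cs_zero, update_cs_succ, cs_succ, update_E_zero,
          update_E_succ, E_apply, List.append_nil, cs_nil_E] at h3
        refine Runs.to (B := 3 + pf n + 1) (s' := cs (word (f x)) E) ?_ (by simp [hlx])
          (by omega)
        exact h3.seq (Hf x)
      | cons a t =>
        have h3 := runs_mv (i := 0) (j := 2) (by decide) (cs (word x) (cs (word (a :: t)) E))
        simp only [update_cs_zero, cs_zero, update_cs_succ, cs_succ, update_E_zero,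
          update_E_succ, E_apply, List.append_nil, cs_nil_E] at h3
        have h4 := runs_mv (i := 1) (j := 3) (by decide)
          (cs [] (cs (word (a :: t)) (cs (word x).reverse E)))
        simp only [update_cs_zero, cs_zero, update_cs_succ, cs_succ, update_E_zero,
          update_E_succ, E_apply, List.append_nil, cs_nil_E] at h4
        have h5 := runs_mv (i := 3) (j := 0) (by decide)
          (cs [] (cs [] (cs (word x).reverse (cs (word (a :: t)).reverse E))))
        simp only [update_cs_zero, cs_zero, update_cs_succ, cs_succ, update_E_zero,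
          update_E_succ, E_apply, List.append_nil, cs_nil_E, List.reverse_reverse] at h5
        have h6 := runs_mv (i := 2) (j := 0) (by decide)
          (cs (word (a :: t)) (cs [] (cs (word x).reverse E)))
        simp only [update_cs_zero, cs_zero, update_cs_succ, cs_succ, update_E_zero,
          update_E_succ, E_apply, List.append_nil, cs_nil_E, List.reverse_reverse] at h6
        have h7 := Runs.push 0 T (cs (word x ++ word (a :: t)) E)
        simp only [update_cs_zero, cs_zero] at h7
        have h8 := Hg (x, (a, t))
        have hat : sz (a, t) = sz (a :: t) := rfl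
        have hsz : sz (x, (a, t)) = n + sz (a :: t) + 1 := by
          rw [sz_pair, hat]
        have hle : sz (a :: t) ≤ ql n := by rw [← hlx]; exact hq
        have hpgle : pg (sz (x, (a, t))) ≤ pg (n + ql n + 1) := hpg.1 (by omega)
        refine Runs.to (B := (2 * n + 1) + ((2 * sz (a :: t) + 1) + ((2 * sz (a :: t) + 1) +
          ((2 * n + 1) + (1 + pg (sz (x, (a, t))) + 1) + 1) + 1) + 1) + 1)
          (s' := cs (word (g (x, (a, t)))) E) ?_ (by simp [hlx]) (by omega)
        have h9 := h3.seq (h4.seq (h5.seq (h6.seq (h7.seq h8))))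
        simp only [List.length_reverse] at h9
        exact h9
    · show 6 * n + 3 + (pl n + ((4 * n + 4 * ql n + 12) + pg (n + ql n + 1) + pf n + 4 + 1) + 1)
        + 1 ≤ _
      simp only []
      omega

/-- Head with default value. -/
theorem Poly.headD {l : α → List γ} (hl : Poly l) (d : γ) : Poly (fun x => (l x).headD d) := by
  have h : Poly (fun x => match l x with
      | [] => (fun _ : α => d) x
      | a :: t => (fun y : α × (γ × List γ) => y.2.1) (x, (a, t))) :=
    hl.listCase (Poly.const d) (Poly.fst.comp Poly.snd)
  exact h.of_eq fun x => by cases l x <;> rfl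

theorem Poly.tail {l : α → List γ} (hl : Poly l) : Poly (fun x => (l x).tail) := by
  have h : Poly (fun x => match l x with
      | [] => (fun _ : α => ([] : List γ)) x
      | a :: t => (fun y : α × (γ × List γ) => y.2.2) (x, (a, t))) :=
    hl.listCase (Poly.const _) (Poly.snd.comp Poly.snd)
  exact h.of_eq fun x => by cases l x <;> rfl

/-! ### Booleans -/

theorem Poly.not {b : α → Bool} (hb : Poly b) : Poly (fun x => !(b x)) :=
  (hb.ite (Poly.const false) (Poly.const true)).of_eq fun x => by cases b x <;> rfl

theorem Poly.and {b c : α → Bool} (hb : Poly b) (hc : Poly c) : Poly (fun x => b x && c x) :=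
  (hb.ite hc (Poly.const false)).of_eq fun x => by cases b x <;> rfl

theorem Poly.or {b c : α → Bool} (hb : Poly b) (hc : Poly c) : Poly (fun x => b x || c x) :=
  (hb.ite (Poly.const true) hc).of_eq fun x => by cases b x <;> rfl

theorem Poly.xor {b c : α → Bool} (hb : Poly b) (hc : Poly c) : Poly (fun x => b x ^^ c x) :=
  (hb.ite hc.not hc).of_eq fun x => by cases b x <;> cases c x <;> rfl

/-! ### Comparison with a constant -/

/-- Equality test for trees. -/
def beqD : Dat → Dat → Bool
  | .nil, .nil => true
  | .nil, .cons _ _ => false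
  | .cons _ _, .nil => false
  | .cons a b, .cons c d => beqD a c && beqD b d

theorem Poly.beqD (d : Dat) : Poly (beqD d) := by
  induction d with
  | nil =>
    exact Poly.isNil.of_eq fun x => by cases x <;> rfl
  | cons a b iha ihb =>
    have h := Poly.isNil.ite (Poly.const false) ((iha.comp Poly.car).and (ihb.comp Poly.cdr))
    exact h.of_eq fun x => by cases x <;> rfl

/-! ### Lists -/

theorem sz_reverse (l : List α) : sz l.reverse = sz l := by
  induction l with
  | nil => rfl
  | cons a l ih =>
    rw [List.reverse_cons]
    have := sz_append l.reverse [a]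
    rw [sz_cons, sz_nil] at this
    rw [sz_cons]
    omega

theorem sz_take_le {l l' : List α} (h : l' <+: l) : sz l' ≤ sz l := by
  obtain ⟨t, rfl⟩ := h
  have := sz_append l' t
  have := sz_pos t
  omega

omit [Enc α] in
theorem foldl_cons_eq (l s : List α) : l.foldl (fun s b => b :: s) s = l.reverse ++ s := by
  induction l generalizing s with
  | nil => rfl
  | cons a l ih => rw [List.foldl_cons, ih]; simp

/-- Reversing on top of another list. -/
theorem Poly.revAppend {l m : α → List γ} (hl : Poly l) (hm : Poly m) :
    Poly (fun x => (l x).reverse ++ m x) := by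
  obtain ⟨ql, hql, Hql⟩ := hl.size
  obtain ⟨qm, hqm, Hqm⟩ := hm.size
  have h := Poly.foldl (step := fun y : α × (List γ × γ) => y.2.2 :: y.2.1) hl hm
    (Poly.cons (Poly.snd.comp Poly.snd) (Poly.fst.comp Poly.snd)) (hql.add hqm) (by
      intro x l' hl'
      have e : (l'.foldl (fun s b => b :: s) (m x)) = l'.reverse ++ m x := foldl_cons_eq _ _
      show sz (l'.foldl (fun s b => b :: s) (m x)) ≤ _
      rw [e]
      have h1 := sz_append l'.reverse (m x)
      rw [sz_reverse] at h1
      have h2 := sz_take_le hl'
      have h3 := Hql x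
      have h4 := Hqm x
      show _ ≤ ql (sz x) + qm (sz x)
      omega)
  exact h.of_eq fun x => foldl_cons_eq _ _

theorem Poly.reverse {l : α → List γ} (hl : Poly l) : Poly (fun x => (l x).reverse) :=
  (hl.revAppend (Poly.const [])).of_eq fun x => by simp

theorem Poly.append {l m : α → List γ} (hl : Poly l) (hm : Poly m) :
    Poly (fun x => l x ++ m x) :=
  (hl.reverse.revAppend hm).of_eq fun x => by simp

theorem foldl_map_eq {α β : Type} (f : α → β) (l : List α) (s : List β) :
    l.foldl (fun s b => f b :: s) s = (l.map f).reverse ++ s := by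
  induction l generalizing s with
  | nil => rfl
  | cons a l ih => rw [List.foldl_cons, ih]; simp

/-- Mapping a function over a list. -/
theorem Poly.map {l : α → List γ} {f : α × γ → β} (hl : Poly l) (hf : Poly f) :
    Poly (fun x => (l x).map fun b => f (x, b)) := by
  obtain ⟨ql, hql, Hql⟩ := hl.size
  obtain ⟨qf, hqf, Hqf⟩ := hf.size
  have h := Poly.foldl (step := fun y : α × (List β × γ) => f (y.1, y.2.2) :: y.2.1) hl
    (Poly.const ([] : List β))
    (Poly.cons (hf.comp (Poly.pair Poly.fst (Poly.snd.comp Poly.snd)))
      (Poly.fst.comp Poly.snd))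
    ((hql.mul ((hqf.comp ((PB.id.add hql).add (PB.const 1))).add (PB.const 1))).add
      (PB.const 1)) (by
      intro x l' hl'
      show sz (l'.foldl (fun s b => f (x, b) :: s) []) ≤
        ql (sz x) * (qf (sz x + ql (sz x) + 1) + 1) + 1
      rw [foldl_map_eq (fun b => f (x, b)), List.append_nil, sz_reverse]
      have h1 := Hql x
      have h2 : l'.length ≤ ql (sz x) :=
        (length_le_sz l').le.trans ((sz_take_le hl').trans h1)
      refine (sz_list_le _ (qf (sz x + ql (sz x) + 1)) ?_).trans ?_
      · intro a ha
        obtain ⟨b, hb, rfl⟩ := List.mem_map.1 ha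
        refine (Hqf _).trans (hqf.1 ?_)
        rw [sz_pair]
        have h3 := sz_le_of_mem (hl'.subset hb)
        omega
      · rw [List.length_map]
        exact Nat.add_le_add_right (Nat.mul_le_mul_right _ h2) 1)
  exact (h.reverse).of_eq fun x => by
    rw [foldl_map_eq (fun b => f (x, b))]; simp

/-! ### Symbols -/

/-- Unary numbers. -/
def unD : ℕ → Dat
  | 0 => .nil
  | k + 1 => .cons .nil (unD k)

/-- All symbols. -/
def syms : List Sym := [.zero, .one, .slash, .comma, .semi, .bar]

instance : Enc Sym := ⟨fun a => unD (syms.idxOf a)⟩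

theorem Poly.eqSym {f : α → Sym} (hf : Poly f) (a : Sym) : Poly (fun x => decide (f x = a)) := by
  have h : Poly (fun s : Sym => decide (s = a)) := by
    refine (Poly.beqD (Enc.enc a)).of_word (fun s => Enc.enc s) (fun _ => rfl) (fun s => ?_)
    have : decide (s = a) = Pool.Agent.Lib.MP_9c2350_lc.beqD (Enc.enc a) (Enc.enc s) := by
      cases a <;> cases s <;> rfl
    rw [this]
  exact h.comp hf

/-! ### Conversion between words and encoded words -/

/-- Replace a word by its code. -/
def toCode : Cmd Sym :=
  .seq (mv 0 1) (.seq (.push 0 F) (.loop 1 fun a => .seq (wr 0 (word a)) (.push 0 T)))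

theorem word_sym_length (a : Sym) : (word a).length ≤ 11 := by
  cases a <;> decide

theorem runs_toCode_loop (x y : List Sym) :
    Runs (.loop 1 fun a => .seq (wr 0 (word a)) (.push 0 T)) (cs (word y) (cs x.reverse E))
      (cs (word (x ++ y)) E) (26 * x.length + 1) := by
  induction x using List.reverseRecOn generalizing y with
  | nil =>
    refine (Runs.loop_nil rfl).to ?_ (by simp)
    simp
  | append_singleton x a ih =>
    have e : (x ++ [a]).reverse = a :: x.reverse := by simp
    rw [e]
    have h1 := runs_wr 0 (word a) (cs (word y) (cs x.reverse E))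
    simp only [update_cs_zero, cs_zero] at h1
    have h2 := Runs.push 0 T (cs (word a ++ word y) (cs x.reverse E))
    simp only [update_cs_zero, cs_zero] at h2
    have h3 := ih (a :: y)
    refine (Runs.loop_cons (k := 1) (a := a) (l := x.reverse) rfl
      (s' := cs (word (a :: y)) (cs x.reverse E)) (B := 25) ?_ h3).to (by simp) ?_
    · simp only [update_cs_succ, update_cs_zero]
      refine (h1.seq h2).mono ?_
      have := word_sym_length a
      omega
    · simp only [List.length_append, List.length_cons, List.length_nil]; omega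

theorem runs_toCode (x : List Sym) :
    Runs toCode (cs x E) (cs (word x) E) (28 * x.length + 6) := by
  have h1 := runs_mv (i := 0) (j := 1) (by decide) (cs x E)
  simp only [update_cs_zero, cs_zero, update_cs_succ, cs_succ, update_E_zero,
    update_E_succ, E_apply, List.append_nil, cs_nil_E, List.reverse_reverse] at h1
  have h2 := Runs.push 0 F (cs [] (cs x.reverse E))
  simp only [update_cs_zero, cs_zero] at h2
  have h3 := runs_toCode_loop x []
  rw [List.append_nil] at h3
  exact (h1.seq (h2.seq h3)).mono (by omega)

/-- Read the code of a symbol of `as` from stack `0` and push the symbol on stack `1`. -/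
def dec : List Sym → Cmd Sym
  | [] => .skip
  | a :: as => .case 0 fun o => if o = some T then .seq (.pop 0) (.seq (.pop 0) (dec as))
      else .seq (.pop 0) (.push 1 a)

theorem runs_dec (as : List Sym) (k : ℕ) (hk : k < as.length) (rest z : List Sym) :
    Runs (dec as) (cs (code (unD k) ++ rest) (cs z E)) (cs rest (cs (as[k] :: z) E))
      (5 * k + 4) := by
  induction k generalizing as with
  | zero =>
    cases as with
    | nil => simp at hk
    | cons a as =>
      refine (Runs.case (B := 3) ?_).mono (by omega)
      have h1 := Runs.pop 0 (cs (F :: rest) (cs z E))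
      simp only [update_cs_zero, cs_zero, List.tail_cons] at h1
      have h2 := Runs.push 1 a (cs rest (cs z E))
      simp only [update_cs_zero, cs_zero, update_cs_succ, cs_succ, update_E_zero,
        update_E_succ, E_apply, List.append_nil, cs_nil_E, List.reverse_reverse] at h2
      exact h1.seq h2
  | succ k ih =>
    cases as with
    | nil => simp at hk
    | cons a as =>
      refine (Runs.case (B := 5 * k + 8) ?_).mono (by omega)
      have h1 := Runs.pop 0 (cs (T :: F :: (code (unD k) ++ rest)) (cs z E))
      simp only [update_cs_zero, cs_zero, List.tail_cons] at h1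
      have h2 := Runs.pop 0 (cs (F :: (code (unD k) ++ rest)) (cs z E))
      simp only [update_cs_zero, cs_zero, List.tail_cons] at h2
      have h3 := ih as (by simpa using hk)
      exact (h1.seq (h2.seq h3)).mono (by omega)

/-- The inverse of `toCode`. -/
def fromCode : Cmd Sym :=
  .seq (.loop 0 fun a => if a = T then dec syms else .skip) (mv 1 0)

theorem runs_fromCode_loop (x z : List Sym) :
    Runs (.loop 0 fun a => if a = T then dec syms else .skip) (cs (word x) (cs z E))
      (cs [] (cs (x.reverse ++ z) E)) (30 * x.length + 3) := by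
  induction x generalizing z with
  | nil =>
    refine (Runs.loop_cons (k := 0) (a := F) (l := []) rfl (s' := cs [] (cs z E)) (B := 1) ?_
      (Runs.loop_nil rfl)).mono (by simp)
    exact (Runs.skip _).to (by simp) (le_refl _)
  | cons a x ih =>
    have h2 := ih (a :: z)
    have hidx : syms.idxOf a < syms.length := by cases a <;> decide
    have hget : syms[syms.idxOf a] = a := by cases a <;> rfl
    have h1 := runs_dec syms (syms.idxOf a) hidx (word x) z
    rw [hget] at h1
    refine (Runs.loop_cons (k := 0) (a := T) (l := word a ++ word x) rfl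
      (s' := cs (word x) (cs (a :: z) E)) (B := 29) ?_ h2).to (by simp) ?_
    · have e : Function.update (cs (word (a :: x)) (cs z E)) 0 (word a ++ word x) =
        cs (code (unD (syms.idxOf a)) ++ word x) (cs z E) := by
        rw [update_cs_zero]; rfl
      rw [e]
      refine h1.mono ?_
      have : syms.length = 6 := rfl
      omega
    · simp only [List.length_cons]; omega

theorem runs_fromCode (x : List Sym) :
    Runs fromCode (cs (word x) E) (cs x E) (32 * x.length + 5) := by
  have h1 := runs_fromCode_loop x []
  rw [cs_nil_E, List.append_nil] at h1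
  have h2 := runs_mv (i := 1) (j := 0) (by decide) (cs [] (cs x.reverse E))
  simp only [update_cs_zero, cs_zero, update_cs_succ, cs_succ, update_E_zero,
    update_E_succ, E_apply, List.append_nil, cs_nil_E, List.reverse_reverse] at h2
  refine (h1.seq h2).mono ?_
  rw [List.length_reverse]; omega

theorem sz_list_sym (x : List Sym) : sz x ≤ 12 * x.length + 1 := by
  refine (sz_list_le x 11 fun a _ => word_sym_length a).trans ?_
  omega

/-- Polynomial time functions on words are computed by Turing machines in polynomial time. -/
theorem tm_of_poly {f : List Sym → List Sym} (hf : Poly f) :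
    Nonempty (TM2ComputableInPolyTime (id : List Sym → List Sym) (id : List Sym → List Sym)
      f) := by
  obtain ⟨q, hq, Hq⟩ := hf.size
  obtain ⟨c, g, hg, H⟩ := hf
  have hB : PB fun n => (28 * n + 6) + (g (12 * n + 1) + (32 * q (12 * n + 1) + 5) + 1) + 1 := by
    have l12 := ((PB.const 12).mul PB.id).add (PB.const 1)
    exact ((((PB.const 28).mul PB.id).add (PB.const 6)).add (((hg.comp l12).add
      (((PB.const 32).mul (hq.comp l12)).add (PB.const 5))).add (PB.const 1))).add (PB.const 1)
  obtain ⟨hmono, p, hp⟩ := hB
  refine polyTime_of_cmd (.seq toCode (.seq c fromCode)) f p fun x => ?_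
  have h1 := runs_toCode x
  have h2 := H x
  have h3 := runs_fromCode (f x)
  have e : ∀ y : List Sym, single y = cs y E := fun y => update_E_zero y
  rw [e, e]
  obtain ⟨t, ht, hE⟩ := (h1.seq (h2.seq h3))
  refine ⟨t, ht.trans (le_trans ?_ (hp x.length)), hE⟩
  have a1 : g (sz x) ≤ g (12 * x.length + 1) := hg.1 (sz_list_sym x)
  have a2 : (f x).length ≤ q (12 * x.length + 1) :=
    (length_le_sz (f x)).le.trans ((Hq x).trans (hq.1 (sz_list_sym x)))
  show 28 * x.length + 6 + (g (sz x) + (32 * (f x).length + 5) + 1) + 1 ≤ _
  simp only []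
  omega

end Pool.Agent.Lib.MP_9c2350_lc
end
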