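import Pool.Agent.Lib.MP_9c2350_lc.Cmd

/-!
Basic stack programs with time bounds.
-/

set_option autoImplicit false

namespace Pool.Agent.Lib.MP_9c2350_lc



variable {Γ : Type}

/-- All stacks empty. -/
def E : St Γ := fun _ => []

/-- Put a new stack in front. -/
def cs (x : List Γ) (s : St Γ) : St Γ
  | 0 => x
  | k + 1 => s k

@[simp] theorem cs_zero (x : List Γ) (s : St Γ) : cs x s 0 = x := rfl
@[simp] theorem cs_succ (x : List Γ) (s : St Γ) (k : ℕ) : cs x s (k + 1) = s k := rfl
@[simp] theorem E_apply (k : ℕ) : (E : St Γ) k = [] := rfl

@[simp] theorem update_cs_zero (x y : List Γ) (s : St Γ) :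
    Function.update (cs x s) 0 y = cs y s := by
  funext k
  cases k with
  | zero => simp
  | succ k => simp [Function.update_of_ne]

@[simp] theorem update_cs_succ (x y : List Γ) (s : St Γ) (k : ℕ) :
    Function.update (cs x s) (k + 1) y = cs x (Function.update s k y) := by
  funext j
  cases j with
  | zero => simp [Function.update_of_ne]
  | succ j =>
    by_cases h : j = k
    · subst h; simp
    · rw [Function.update_of_ne (by omega), cs_succ, cs_succ, Function.update_of_ne h]

@[simp] theorem update_E_zero (y : List Γ) : Function.update (E : St Γ) 0 y = cs y E := by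
  funext k
  cases k with
  | zero => simp
  | succ k => simp [Function.update_of_ne]

@[simp] theorem update_E_succ (k : ℕ) (y : List Γ) :
    Function.update (E : St Γ) (k + 1) y = cs [] (Function.update E k y) := by
  funext j
  cases j with
  | zero => simp [Function.update_of_ne]
  | succ j =>
    by_cases h : j = k
    · subst h; simp
    · rw [Function.update_of_ne (by omega), cs_succ, E_apply, Function.update_of_ne h, E_apply]

@[simp] theorem cs_nil_E : cs [] (E : St Γ) = E := by
  funext k; cases k <;> rfl

/-- `Runs c s s' B`: the program `c` leads from `s` to `s'` in at most `B` steps. -/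
def Runs (c : Cmd Γ) (s s' : St Γ) (B : ℕ) : Prop := ∃ t, t ≤ B ∧ Exec c s s' t

theorem Runs.mono {c : Cmd Γ} {s s' : St Γ} {B B' : ℕ} (h : Runs c s s' B) (hB : B ≤ B') :
    Runs c s s' B' := by
  obtain ⟨t, ht, he⟩ := h
  exact ⟨t, ht.trans hB, he⟩

theorem Runs.to {c : Cmd Γ} {s s' s'' : St Γ} {B B' : ℕ} (h : Runs c s s' B) (hs : s' = s'')
    (hB : B ≤ B') : Runs c s s'' B' := hs ▸ h.mono hB

theorem Runs.skip (s : St Γ) : Runs .skip s s 1 := ⟨1, le_refl _, .skip s⟩

theorem Runs.push (k : ℕ) (a : Γ) (s : St Γ) :
    Runs (.push k a) s (Function.update s k (a :: s k)) 1 := ⟨1, le_refl _, .push k a s⟩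

theorem Runs.pop (k : ℕ) (s : St Γ) :
    Runs (.pop k) s (Function.update s k (s k).tail) 1 := ⟨1, le_refl _, .pop k s⟩

theorem Runs.seq {c d : Cmd Γ} {s s' s'' : St Γ} {B B' : ℕ} (h1 : Runs c s s' B)
    (h2 : Runs d s' s'' B') : Runs (.seq c d) s s'' (B + B' + 1) := by
  obtain ⟨t, ht, he⟩ := h1
  obtain ⟨t', ht', he'⟩ := h2
  exact ⟨t + t' + 1, by omega, .seq he he'⟩

theorem Runs.case {k : ℕ} {f : Option Γ → Cmd Γ} {s s' : St Γ} {B : ℕ}
    (h : Runs (f (s k).head?) s s' B) : Runs (.case k f) s s' (B + 1) := by
  obtain ⟨t, ht, he⟩ := h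
  exact ⟨t + 1, by omega, .case he⟩

theorem Runs.loop_nil {k : ℕ} {f : Γ → Cmd Γ} {s : St Γ} (h : s k = []) :
    Runs (.loop k f) s s 1 := ⟨1, le_refl _, .loop_nil h⟩

theorem Runs.loop_cons {k : ℕ} {f : Γ → Cmd Γ} {s s' s'' : St Γ} {a : Γ} {l : List Γ}
    {B B' : ℕ} (h : s k = a :: l) (h1 : Runs (f a) (Function.update s k l) s' B)
    (h2 : Runs (.loop k f) s' s'' B') : Runs (.loop k f) s s'' (B + B' + 1) := by
  obtain ⟨t, ht, he⟩ := h1
  obtain ⟨t', ht', he'⟩ := h2
  exact ⟨t + t' + 1, by omega, .loop_cons h he he'⟩

/-- The stacks grow at most by one symbol per step. -/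
theorem Exec.length_le {c : Cmd Γ} {s s' : St Γ} {t : ℕ} (h : Exec c s s' t) :
    ∀ j, (s' j).length ≤ (s j).length + t := by
  induction h with
  | skip s => intro j; omega
  | push k a s =>
    intro j
    by_cases hj : j = k
    · subst hj; simp
    · rw [Function.update_of_ne hj]; omega
  | pop k s =>
    intro j
    by_cases hj : j = k
    · subst hj; simp; omega
    · rw [Function.update_of_ne hj]; omega
  | seq _ _ ih1 ih2 => intro j; have := ih1 j; have := ih2 j; omega
  | case _ ih => intro j; have := ih j; omega
  | loop_nil _ => intro j; omega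
  | @loop_cons k f s s' s'' a l t t' hs _ _ ih1 ih2 =>
    intro j
    have h1 := ih1 j
    have h2 := ih2 j
    have : (Function.update s k l j).length ≤ (s j).length := by
      by_cases hj : j = k
      · subst hj; rw [hs]; simp
      · rw [Function.update_of_ne hj]
    omega

theorem Runs.length_le {c : Cmd Γ} {s s' : St Γ} {B : ℕ} (h : Runs c s s' B) (j : ℕ) :
    (s' j).length ≤ (s j).length + B := by
  obtain ⟨t, ht, he⟩ := h
  have := he.length_le j
  omega

/-- Shift all stack indices by `j`. -/
def Cmd.shift (j : ℕ) : Cmd Γ → Cmd Γ
  | .skip => .skip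
  | .push k a => .push (k + j) a
  | .pop k => .pop (k + j)
  | .seq c d => .seq (c.shift j) (d.shift j)
  | .case k f => .case (k + j) fun o => (f o).shift j
  | .loop k f => .loop (k + j) fun a => (f a).shift j

theorem Exec.shift_one {c : Cmd Γ} {s s' : St Γ} {t : ℕ} (x : List Γ) (h : Exec c s s' t) :
    Exec (c.shift 1) (cs x s) (cs x s') t := by
  induction h with
  | skip s => exact .skip _
  | push k a s =>
    have := Exec.push (k + 1) a (cs x s)
    simpa [Cmd.shift] using this
  | pop k s =>
    have := Exec.pop (k + 1) (cs x s)
    simpa [Cmd.shift] using this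
  | seq _ _ ih1 ih2 => exact .seq ih1 ih2
  | case _ ih => exact .case ih
  | loop_nil h => exact .loop_nil h
  | loop_cons hs _ _ ih1 ih2 =>
    refine .loop_cons (l := _) hs ?_ ih2
    rw [update_cs_succ]
    exact ih1

theorem Cmd.shift_shift (i j : ℕ) (c : Cmd Γ) : (c.shift i).shift j = c.shift (i + j) := by
  induction c with
  | skip => rfl
  | push k a => simp [Cmd.shift, Nat.add_assoc]
  | pop k => simp [Cmd.shift, Nat.add_assoc]
  | seq c d ih1 ih2 => simp [Cmd.shift, ih1, ih2]
  | case k f ih => simp [Cmd.shift, ih, Nat.add_assoc]
  | loop k f ih => simp [Cmd.shift, ih, Nat.add_assoc]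

theorem Runs.shift1 {c : Cmd Γ} {s s' : St Γ} {B : ℕ} (h : Runs c s s' B) (x : List Γ) :
    Runs (c.shift 1) (cs x s) (cs x s') B := by
  obtain ⟨t, ht, he⟩ := h
  exact ⟨t, ht, he.shift_one x⟩

theorem Runs.shift2 {c : Cmd Γ} {s s' : St Γ} {B : ℕ} (h : Runs c s s' B) (x y : List Γ) :
    Runs (c.shift 2) (cs x (cs y s)) (cs x (cs y s')) B := by
  have := (h.shift1 y).shift1 x
  rwa [Cmd.shift_shift] at this

theorem Runs.shift4 {c : Cmd Γ} {s s' : St Γ} {B : ℕ} (h : Runs c s s' B)
    (x y z w : List Γ) :
    Runs (c.shift 4) (cs x (cs y (cs z (cs w s)))) (cs x (cs y (cs z (cs w s')))) B := by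
  have := (h.shift2 z w).shift2 x y
  rwa [Cmd.shift_shift] at this

/-- Empty the stack `i`. -/
def clr (i : ℕ) : Cmd Γ := .loop i fun _ => .skip

theorem runs_clr (i : ℕ) (s : St Γ) :
    Runs (clr i) s (Function.update s i []) (2 * (s i).length + 1) := by
  generalize hl : s i = l
  induction l generalizing s with
  | nil =>
    have : Function.update s i [] = s := by rw [← hl]; simp
    rw [this]
    exact (Runs.loop_nil hl).mono (by simp)
  | cons a l ih =>
    have h2 := ih (Function.update s i l) (by simp)
    rw [Function.update_idem] at h2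
    refine (Runs.loop_cons hl (Runs.skip _) h2).mono ?_
    simp only [List.length_cons]; omega

/-- Move the content of the stack `i` to the stack `j` (reversing it). -/
def mv (i j : ℕ) : Cmd Γ := .loop i fun a => .push j a

theorem runs_mv {i j : ℕ} (hij : i ≠ j) (s : St Γ) :
    Runs (mv i j) s (Function.update (Function.update s i []) j ((s i).reverse ++ s j))
      (2 * (s i).length + 1) := by
  generalize hl : s i = l
  induction l generalizing s with
  | nil =>
    have e : Function.update s i [] = s := by rw [← hl, Function.update_eq_self]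
    have : Function.update (Function.update s i []) j (([] : List Γ).reverse ++ s j) = s := by
      rw [e]; simp
    rw [this]
    exact (Runs.loop_nil hl).mono (by simp)
  | cons a l ih =>
    have h2 := ih (Function.update (Function.update s i l) j
      (a :: (Function.update s i l) j)) (by
        rw [Function.update_of_ne hij, Function.update_self])
    refine (Runs.loop_cons hl (Runs.push _ _ _) ?_).mono (B := 1 + (2 * l.length + 1) + 1) ?_
    · refine cast ?_ h2
      congr 1
      rw [Function.update_comm hij.symm, Function.update_idem, Function.update_idem,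
        Function.update_self, Function.update_of_ne hij.symm]
      simp
    · simp only [List.length_cons]; omega

/-- Move the content of the stack `i` to both stacks `j` and `k` (reversing it). -/
def mv2 (i j k : ℕ) : Cmd Γ := .loop i fun a => .seq (.push j a) (.push k a)

theorem runs_mv2 {i j k : ℕ} (hij : i ≠ j) (hik : i ≠ k) (hjk : j ≠ k) (s : St Γ) :
    Runs (mv2 i j k) s (Function.update (Function.update (Function.update s i []) j
      ((s i).reverse ++ s j)) k ((s i).reverse ++ s k)) (4 * (s i).length + 1) := by
  generalize hl : s i = l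
  induction l generalizing s with
  | nil =>
    have e : Function.update s i [] = s := by rw [← hl, Function.update_eq_self]
    have : Function.update (Function.update (Function.update s i []) j
      (([] : List Γ).reverse ++ s j)) k (([] : List Γ).reverse ++ s k) = s := by
      rw [e]; simp
    rw [this]
    exact (Runs.loop_nil hl).mono (by simp)
  | cons a l ih =>
    have e1 : Function.update (Function.update (Function.update s i l) j
        (a :: (Function.update s i l) j)) k (a :: (Function.update (Function.update s i l) j
        (a :: (Function.update s i l) j)) k) =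
        Function.update (Function.update (Function.update s i l) j (a :: s j)) k (a :: s k) := by
      rw [Function.update_of_ne hij.symm, Function.update_of_ne hjk.symm,
        Function.update_of_ne hik.symm]
    have h2 := ih (Function.update (Function.update (Function.update s i l) j
      (a :: s j)) k (a :: s k)) (by
        rw [Function.update_of_ne hik, Function.update_of_ne hij, Function.update_self])
    refine (Runs.loop_cons hl ((Runs.push _ _ _).seq (Runs.push _ _ _)) ?_).mono
      (B := (1 + 1 + 1) + (4 * l.length + 1) + 1) ?_
    · rw [e1]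
      refine cast ?_ h2
      congr 1
      funext m
      by_cases hk : m = k
      · subst hk; simp
      · by_cases hj : m = j
        · subst hj
          simp [Function.update_of_ne hk]
        · by_cases hi : m = i
          · subst hi
            simp [Function.update_of_ne hk, Function.update_of_ne hj]
          · simp [Function.update_of_ne hk, Function.update_of_ne hj, Function.update_of_ne hi]
    · simp only [List.length_cons]; omega

/-- Copy the stack `i` on top of the stack `j` with the help of the empty stack `t`. -/
def cp (i j t : ℕ) : Cmd Γ := .seq (mv i t) (mv2 t i j)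

theorem runs_cp {i j t : ℕ} (hij : i ≠ j) (hit : i ≠ t) (hjt : j ≠ t) (s : St Γ)
    (ht : s t = []) :
    Runs (cp i j t) s (Function.update s j (s i ++ s j)) (6 * (s i).length + 3) := by
  have h1 := runs_mv hit s
  have h2 := runs_mv2 hit.symm hjt.symm hij
    (Function.update (Function.update s i []) t ((s i).reverse ++ s t))
  refine cast ?_ ((h1.seq h2).mono (B' := 6 * (s i).length + 3) ?_)
  · congr 1
    funext m
    by_cases hj : m = j
    · subst hj
      simp [ht, hjt, hij.symm]
    · by_cases hi : m = i
      · subst hi
        simp [ht, hj, hit]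
      · by_cases hmt : m = t
        · subst hmt
          simp [Function.update_of_ne hj, Function.update_of_ne hi, ht]
        · simp [Function.update_of_ne hj, Function.update_of_ne hi, Function.update_of_ne hmt]
  · rw [Function.update_self, ht]
    simp
    omega

/-- Write a word on top of the stack `j`. -/
def wr (j : ℕ) : List Γ → Cmd Γ
  | [] => .skip
  | a :: l => .seq (wr j l) (.push j a)

theorem runs_wr (j : ℕ) (l : List Γ) (s : St Γ) :
    Runs (wr j l) s (Function.update s j (l ++ s j)) (2 * l.length + 1) := by
  induction l with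
  | nil =>
    have : Function.update s j ([] ++ s j) = s := by simp
    rw [this]
    exact Runs.skip s
  | cons a l ih =>
    have h2 := ih.seq (Runs.push j a _)
    refine cast ?_ (h2.mono (B' := 2 * (a :: l).length + 1) ?_)
    · congr 1
      simp
    · simp only [List.length_cons]; omega

end Pool.Agent.Lib.MP_9c2350_lc
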