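import Pool.Agent.Lib.MP_9c2350_lc.Defs
import Pool.Agent.Lib.MP_9c2350_lc.Prog

/-!
Tree-like data, their codes as words and basic programs on them.
-/

set_option autoImplicit false

namespace Pool.Agent.Lib.MP_9c2350_lc



/-- Binary trees. -/
inductive Dat : Type
  | nil : Dat
  | cons (a b : Dat) : Dat

/-- The two symbols used in codes. -/
abbrev T : Sym := Sym.one
/-- The two symbols used in codes. -/
abbrev F : Sym := Sym.zero

/-- The code of a tree, a word. -/
def code : Dat → List Sym
  | .nil => [F]
  | .cons a b => T :: (code a ++ code b)

theorem code_ne_nil (d : Dat) : code d ≠ [] := by cases d <;> simp [code]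

theorem code_length_pos (d : Dat) : 0 < (code d).length :=
  List.length_pos_of_ne_nil (code_ne_nil d)

/-- The loop of `item`. -/
def itemLoop (i j k : ℕ) : Cmd Sym :=
  .loop k fun _ => .case i fun o => match o with
    | some (.one) => .seq (.pop i) (.seq (.push j T) (.seq (.push k F) (.push k F)))
    | some _ => .seq (.pop i) (.push j F)
    | none => .skip

/-- Move one code from the top of the stack `i` to the stack `j` (reversing it) with the help
of the empty stack `k`. -/
def item (i j k : ℕ) : Cmd Sym := .seq (.push k F) (itemLoop i j k)

theorem runs_itemLoop {i j k : ℕ} (hij : i ≠ j) (hik : i ≠ k) (hjk : j ≠ k) (n : ℕ) :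
    ∀ (ds : List Dat) (rest : List Sym) (s : St Sym), (ds.flatMap code).length = n →
      s i = ds.flatMap code ++ rest → s k = List.replicate ds.length F →
      Runs (itemLoop i j k) s (Function.update (Function.update (Function.update s i rest) j
        ((ds.flatMap code).reverse ++ s j)) k []) (9 * n + 1) := by
  induction n using Nat.strong_induction_on with
  | _ n ih =>
    intro ds rest s hn hi hk
    match ds with
    | [] =>
      simp only [List.flatMap_nil, List.nil_append, List.length_nil, List.replicate_zero] at hi hk
      have e : Function.update (Function.update (Function.update s i rest) j
          ((([] : List Dat).flatMap code).reverse ++ s j)) k [] = s := by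
        rw [← hi, ← hk]; simp
      rw [e]
      exact (Runs.loop_nil hk).mono (by omega)
    | .nil :: ds' =>
      have hk' : s k = F :: List.replicate ds'.length F := by
        rw [hk]; rfl
      have hi' : s i = F :: (ds'.flatMap code ++ rest) := by
        rw [hi]; simp [code]
      have hlen : (ds'.flatMap code).length + 1 = n := by
        rw [← hn]; simp [code]
      set s1 : St Sym := Function.update (Function.update (Function.update s k
        (List.replicate ds'.length F)) i (ds'.flatMap code ++ rest)) j (F :: s j) with hs1
      have key := ih (ds'.flatMap code).length (by omega) ds' rest s1 rfl
        (by simp [hs1, Function.update_of_ne hij])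
        (by simp [hs1, Function.update_of_ne hjk.symm, Function.update_of_ne hik.symm])
      refine (Runs.loop_cons hk' (B := 4) (s' := s1) ?_ key).to ?_ (by omega)
      rotate_left
      · funext m
        by_cases h1 : m = k
        · subst h1; simp
        · by_cases h2 : m = j
          · subst h2
            simp [Function.update_of_ne h1, hs1, code, List.append_assoc]
          · by_cases h3 : m = i
            · subst h3
              simp [Function.update_of_ne h1, Function.update_of_ne h2]
            · simp [Function.update_of_ne h1, Function.update_of_ne h2, Function.update_of_ne h3,
                hs1]
      · apply Runs.case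
        have : (Function.update s k (List.replicate ds'.length F) i).head? = some F := by
          rw [Function.update_of_ne hik, hi']; rfl
        rw [this]
        refine ((Runs.pop i _).seq (Runs.push j F _)).to ?_ (by omega)
        funext m
        by_cases h2 : m = j
        · subst h2
          simp [hs1, hij.symm, hjk]
        · by_cases h3 : m = i
          · subst h3
            simp [Function.update_of_ne h2, hs1, hik, hi']
          · simp [Function.update_of_ne h2, Function.update_of_ne h3, hs1]
    | .cons a b :: ds' =>
      have hk' : s k = F :: List.replicate ds'.length F := by
        rw [hk]; rfl
      have hi' : s i = T :: ((a :: b :: ds').flatMap code ++ rest) := by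
        rw [hi]; simp [code]
      have hlen : ((a :: b :: ds').flatMap code).length + 1 = n := by
        rw [← hn]; simp [code]
      set s1 : St Sym := Function.update (Function.update (Function.update s k
        (List.replicate (a :: b :: ds').length F)) i ((a :: b :: ds').flatMap code ++ rest)) j
        (T :: s j) with hs1
      have key := ih ((a :: b :: ds').flatMap code).length (by omega) (a :: b :: ds') rest s1 rfl
        (by simp [hs1, Function.update_of_ne hij])
        (by simp [hs1, Function.update_of_ne hjk.symm, Function.update_of_ne hik.symm])
      refine (Runs.loop_cons hk' (B := 8) (s' := s1) ?_ key).to ?_ (by omega)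
      rotate_left
      · funext m
        by_cases h1 : m = k
        · subst h1; simp
        · by_cases h2 : m = j
          · subst h2
            simp [Function.update_of_ne h1, hs1, code, List.append_assoc]
          · by_cases h3 : m = i
            · subst h3
              simp [Function.update_of_ne h1, Function.update_of_ne h2]
            · simp [Function.update_of_ne h1, Function.update_of_ne h2, Function.update_of_ne h3,
                hs1]
      · apply Runs.case
        have : (Function.update s k (List.replicate ds'.length F) i).head? = some T := by
          rw [Function.update_of_ne hik, hi']; rfl
        rw [this]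
        refine ((Runs.pop i _).seq ((Runs.push j T _).seq ((Runs.push k F _).seq
          (Runs.push k F _)))).to ?_ (by omega)
        funext m
        by_cases h1 : m = k
        · subst h1
          simp [hs1, hik.symm, hjk.symm, List.replicate_succ]
        · by_cases h2 : m = j
          · subst h2
            simp [hs1, hij.symm, h1]
          · by_cases h3 : m = i
            · subst h3
              simp [h1, h2, hs1, hi']
            · simp [h1, h2, h3, hs1]

theorem runs_item {i j k : ℕ} (hij : i ≠ j) (hik : i ≠ k) (hjk : j ≠ k) (d : Dat)
    (rest : List Sym) (s : St Sym) (hi : s i = code d ++ rest) (hk : s k = []) :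
    Runs (item i j k) s (Function.update (Function.update s i rest) j ((code d).reverse ++ s j))
      (9 * (code d).length + 3) := by
  have h2 := runs_itemLoop hij hik hjk (code d).length [d] rest
    (Function.update s k (F :: s k)) (by simp)
    (by rw [Function.update_of_ne hik, hi]; simp) (by simp [hk])
  refine ((Runs.push k F s).seq h2).to ?_ (by omega)
  funext m
  by_cases e1 : m = k
  · subst e1; simp [hik.symm, hjk.symm, hk]
  · by_cases e2 : m = j
    · subst e2
      simp [e1]
    · by_cases e3 : m = i
      · subst e3
        simp [e1, e2]
      · simp [e1, e2, e3]

end Pool.Agent.Lib.MP_9c2350_lc
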