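import Mathlib
import Pool.Agent.Lib.MP_9c2350_lc.Defs
import Pool.Agent.Lib.MP_9c2350_lc.Alg

section

/-!
Small integer combinations: if a finite set of bounded integer vectors generates the whole lattice
then every bounded integer vector is a combination of the set with bounded coefficients.
-/

set_option autoImplicit false

namespace Pool.Agent.Lib.MP_9c2350_lc

open Matrix

variable {ι : Type} [Fintype ι] [DecidableEq ι]

/-- The bound for determinants. -/
def detB (k L : ℕ) : ℕ := k.factorial * L ^ k

theorem abs_det_le (G : Matrix ι ι ℤ) (L : ℕ) (h : ∀ i j, |G i j| ≤ L) :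
    |G.det| ≤ detB (Fintype.card ι) L := by
  have := Matrix.det_le (A := G) (abv := AbsoluteValue.abs) (x := (L : ℤ)) h
  simpa [detB] using this

theorem abs_adjugate_le (G : Matrix ι ι ℤ) (L : ℕ) (hL : 1 ≤ L) (h : ∀ i j, |G i j| ≤ L)
    (i j : ι) : |G.adjugate i j| ≤ detB (Fintype.card ι) L := by
  rw [Matrix.adjugate_apply]
  apply abs_det_le
  intro a b
  rw [Matrix.updateRow_apply]
  split_ifs with h1
  · rw [Pi.single_apply]
    split_ifs
    · simp; exact_mod_cast hL
    · simp
  · exact h a b

/-- Independent vectors inside a generating set. -/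
theorem exists_indep (S : Finset (ι → ℤ)) (hspan : Submodule.span ℤ (S : Set (ι → ℤ)) = ⊤) :
    ∃ G : Matrix ι ι ℤ, (∀ i, G i ∈ S) ∧ G.det ≠ 0 := by
  classical
  let φ : (ι → ℤ) → (ι → ℚ) := fun g i => (g i : ℚ)
  have hφadd : ∀ a b, φ (a + b) = φ a + φ b := fun a b => by funext i; simp [φ]
  have hφsmul : ∀ (c : ℤ) a, φ (c • a) = (c : ℚ) • φ a := fun c a => by funext i; simp [φ]
  let s : Set (ι → ℚ) := φ '' (S : Set (ι → ℤ))
  have hmem : ∀ v : ι → ℤ, φ v ∈ Submodule.span ℚ s := by
    intro v
    have hv : v ∈ Submodule.span ℤ (S : Set (ι → ℤ)) := by rw [hspan]; trivial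
    induction hv using Submodule.span_induction with
    | mem x hx => exact Submodule.subset_span ⟨x, hx, rfl⟩
    | zero =>
      have : φ 0 = 0 := by funext i; simp [φ]
      rw [this]; exact Submodule.zero_mem _
    | add x y _ _ hx hy => rw [hφadd]; exact Submodule.add_mem _ hx hy
    | smul c x _ hx => rw [hφsmul]; exact Submodule.smul_mem _ _ hx
  have hs : Submodule.span ℚ s = ⊤ := by
    rw [eq_top_iff]
    rintro x -
    have : x = ∑ i, x i • φ (Pi.single i 1) := by
      funext j
      simp only [Finset.sum_apply, Pi.smul_apply, smul_eq_mul, φ, Pi.single_apply]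
      simp
    rw [this]
    exact Submodule.sum_mem _ fun i _ => Submodule.smul_mem _ _ (hmem _)
  obtain ⟨b, hbs, hbspan, hbli⟩ := exists_linearIndependent ℚ s
  rw [hs] at hbspan
  let B : Module.Basis b ℚ (ι → ℚ) := Module.Basis.mk hbli (by
    rw [Subtype.range_coe_subtype, Set.ofPred_mem_eq, hbspan])
  let e : ι ≃ b := (Pi.basisFun ℚ ι).indexEquiv B
  have hch : ∀ i : ι, ∃ g ∈ S, φ g = (e i : ι → ℚ) := fun i => hbs (e i).2
  choose G hG hGe using hch
  refine ⟨Matrix.of G, hG, fun hdet => ?_⟩
  have hli : LinearIndependent ℚ (fun i : ι => ((e i : b) : ι → ℚ)) :=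
    hbli.comp _ e.injective
  have hli' : LinearIndependent ℚ (((Matrix.of G).map (Int.castRingHom ℚ)).row) := by
    have : ((Matrix.of G).map (Int.castRingHom ℚ)).row = fun i : ι => ((e i : b) : ι → ℚ) := by
      funext i
      rw [← hGe]
      rfl
    rw [this]
    exact hli
  rw [Matrix.linearIndependent_rows_iff_isUnit, Matrix.isUnit_iff_isUnit_det] at hli'
  have hd : ((Matrix.of G).map (Int.castRingHom ℚ)).det = ((Matrix.of G).det : ℚ) := by
    have := (Int.castRingHom ℚ).map_det (Matrix.of G)
    rw [RingHom.mapMatrix_apply] at this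
    exact this.symm
  rw [hd, hdet] at hli'
  simp at hli'

/-- The bound of the coefficients. -/
def coefB (k L s V : ℕ) : ℕ := detB k L + k * (k * (V + s * detB k L * L) * detB k L)

theorem lin_bound (S : Finset (ι → ℤ)) (L : ℕ) (hL : 1 ≤ L)
    (hS : ∀ g ∈ S, ∀ i, |g i| ≤ L) (hspan : Submodule.span ℤ (S : Set (ι → ℤ)) = ⊤)
    (V : ℕ) (v : ι → ℤ) (hv : ∀ i, |v i| ≤ V) :
    ∃ z : (ι → ℤ) → ℤ, v = ∑ g ∈ S, z g • g ∧
      ∀ g, |z g| ≤ coefB (Fintype.card ι) L S.card V := by
  classical
  obtain ⟨G, hGS, hdet⟩ := exists_indep S hspan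
  set D : ℤ := |G.det| with hD
  have hDpos : 0 < D := abs_pos.2 hdet
  have hDle : D ≤ detB (Fintype.card ι) L := abs_det_le G L fun i j => hS _ (hGS i) j
  have hv' : v ∈ Submodule.span ℤ (S : Set (ι → ℤ)) := by rw [hspan]; trivial
  obtain ⟨c, hc⟩ := Submodule.mem_span_finset'.1 hv'
  let r : (ι → ℤ) → ℤ := fun g => if h : g ∈ S then c ⟨g, h⟩ % D else 0
  let q : (ι → ℤ) → ℤ := fun g => if h : g ∈ S then c ⟨g, h⟩ / D else 0
  have hrq : ∀ g (h : g ∈ S), c ⟨g, h⟩ = r g + D * q g := by
    intro g h
    simp only [r, q, h, dif_pos]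
    exact (Int.emod_add_mul_ediv _ _).symm
  have hr0 : ∀ g, 0 ≤ r g := by
    intro g
    by_cases h : g ∈ S
    · simp only [r, h, dif_pos]; exact Int.emod_nonneg _ hDpos.ne'
    · simp only [r, h, dif_neg, not_false_eq_true, le_refl]
  have hrD : ∀ g, r g ≤ D := by
    intro g
    by_cases h : g ∈ S
    · simp only [r, h, dif_pos]; exact (Int.emod_lt_of_pos _ hDpos).le
    · simp only [r, h, dif_neg, not_false_eq_true]; exact hDpos.le
  have hvsum : v = (∑ g ∈ S, r g • g) + D • ∑ g ∈ S, q g • g := by
    rw [← hc, Finset.smul_sum, ← Finset.sum_add_distrib, ← Finset.sum_attach S]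
    rw [Finset.univ_eq_attach]
    refine Finset.sum_congr rfl fun g _ => ?_
    rw [hrq g.1 g.2, add_smul, mul_smul]
  set x : ι → ℤ := ∑ g ∈ S, q g • g with hx
  have ht : ∃ t : ι → ℤ, t ᵥ* G = D • x := by
    have h1 : (x ᵥ* G.adjugate) ᵥ* G = G.det • x := by
      rw [Matrix.vecMul_vecMul, Matrix.adjugate_mul, Matrix.vecMul_smul, Matrix.vecMul_one]
    rcases abs_choice G.det with h | h
    · exact ⟨_, by rw [h1, hD, h]⟩
    · refine ⟨-(x ᵥ* G.adjugate), ?_⟩
      rw [Matrix.neg_vecMul, h1, hD, h, neg_smul]
  obtain ⟨t, ht⟩ := ht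
  have hwle : ∀ i, |(D • x) i| ≤ V + S.card * detB (Fintype.card ι) L * L := by
    intro i
    have e : (D • x) i = v i - ∑ g ∈ S, r g * g i := by
      have := congrFun hvsum i
      rw [Pi.add_apply, Finset.sum_apply] at this
      simp only [Pi.smul_apply, smul_eq_mul] at this ⊢
      linarith
    rw [e]
    have h1 : |∑ g ∈ S, r g * g i| ≤ S.card * detB (Fintype.card ι) L * L := by
      refine (Finset.abs_sum_le_sum_abs _ _).trans ?_
      have h2 : ∀ g ∈ S, |r g * g i| ≤ (detB (Fintype.card ι) L : ℤ) * L := by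
        intro g hg
        rw [abs_mul, abs_of_nonneg (hr0 g)]
        exact mul_le_mul ((hrD g).trans hDle) (hS g hg i) (abs_nonneg _) (by positivity)
      refine (Finset.sum_le_card_nsmul S _ _ h2).trans (le_of_eq ?_)
      rw [nsmul_eq_mul]; ring
    have h3 := hv i
    have h4 := abs_sub (v i) (∑ g ∈ S, r g * g i)
    linarith
  have htle : ∀ i, |t i| ≤ Fintype.card ι *
      ((V + S.card * detB (Fintype.card ι) L * L) * detB (Fintype.card ι) L) := by
    intro i
    have h1 : (D • x) ᵥ* G.adjugate = G.det • t := by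
      rw [← ht, Matrix.vecMul_vecMul, Matrix.mul_adjugate, Matrix.vecMul_smul, Matrix.vecMul_one]
    have h2 : G.det * t i = ∑ j, (D • x) j * G.adjugate j i := by
      have := congrFun h1 i
      simpa [Matrix.vecMul, dotProduct] using this.symm
    have h3 : |t i| ≤ |G.det * t i| := by
      rw [abs_mul]
      have : 1 ≤ |G.det| := Int.one_le_abs hdet
      nlinarith [abs_nonneg (t i)]
    refine h3.trans ?_
    rw [h2]
    refine (Finset.abs_sum_le_sum_abs _ _).trans ?_
    have h4 : ∀ j ∈ (Finset.univ : Finset ι), |(D • x) j * G.adjugate j i| ≤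
        ((V + S.card * detB (Fintype.card ι) L * L) * detB (Fintype.card ι) L : ℤ) := by
      intro j _
      rw [abs_mul]
      exact mul_le_mul (hwle j) (abs_adjugate_le G L hL (fun i j => hS _ (hGS i) j) j i)
        (abs_nonneg _) (by exact_mod_cast Nat.zero_le _)
    refine (Finset.sum_le_card_nsmul _ _ _ h4).trans (le_of_eq ?_)
    rw [nsmul_eq_mul, Finset.card_univ]
  refine ⟨fun g => r g + ∑ i, if G i = g then t i else 0, ?_, fun g => ?_⟩
  · simp only [add_smul, Finset.sum_add_distrib]
    conv_lhs => rw [hvsum]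
    congr 1
    rw [← ht]
    have e1 : ∀ g ∈ S, (∑ i, if G i = g then t i else 0) • g =
        ∑ i, if G i = g then t i • g else 0 := by
      intro g _
      rw [Finset.sum_smul]
      exact Finset.sum_congr rfl fun i _ => by split_ifs <;> simp
    rw [Finset.sum_congr rfl e1, Finset.sum_comm]
    funext j
    rw [Finset.sum_apply]
    simp only [Matrix.vecMul, dotProduct]
    refine Finset.sum_congr rfl fun i _ => ?_
    rw [Finset.sum_ite_eq S (G i) fun g => t i • g, if_pos (hGS i)]
    rfl
  · have h1 : |∑ i, if G i = g then t i else 0| ≤ (Fintype.card ι : ℤ) * (Fintype.card ι *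
      ((V + S.card * detB (Fintype.card ι) L * L) * detB (Fintype.card ι) L)) := by
      refine (Finset.abs_sum_le_sum_abs _ _).trans ?_
      have h2 : ∀ i ∈ (Finset.univ : Finset ι), |if G i = g then t i else 0| ≤
          (Fintype.card ι *
            ((V + S.card * detB (Fintype.card ι) L * L) * detB (Fintype.card ι) L) : ℤ) := by
        intro i _
        split_ifs
        · exact htle i
        · rw [abs_zero]; exact_mod_cast Nat.zero_le _
      refine (Finset.sum_le_card_nsmul _ _ _ h2).trans (le_of_eq ?_)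
      rw [nsmul_eq_mul, Finset.card_univ]
    have h3 := abs_add_le (r g) (∑ i, if G i = g then t i else 0)
    rw [abs_of_nonneg (hr0 g)] at h3
    have h4 := (hrD g).trans hDle
    unfold coefB
    push_cast
    linarith

end Pool.Agent.Lib.MP_9c2350_lc
end

section

section

/-!
Coloured walks and the positivity of Hurwitz products.
-/

set_option autoImplicit false

namespace Pool.Agent.Lib.MP_9c2350_lc

variable {n m : ℕ}

/-- `Wk R α i j`: there is a walk from `i` to `j` with `α c` edges of colour `c` for all `c`. -/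
inductive Wk (R : Fin m → Fin n → Fin n → Prop) : (Fin m → ℕ) → Fin n → Fin n → Prop
  | nil (i : Fin n) : Wk R 0 i i
  | cons {c : Fin m} {i k j : Fin n} {α : Fin m → ℕ} :
      R c i k → Wk R α k j → Wk R (Pi.single c 1 + α) i j

variable {R : Fin m → Fin n → Fin n → Prop}

theorem Wk.append {α β : Fin m → ℕ} {i k j : Fin n} (h1 : Wk R α i k) (h2 : Wk R β k j) :
    Wk R (α + β) i j := by
  induction h1 with
  | nil i => simpa using h2
  | cons h _ ih => rw [add_assoc]; exact .cons h (ih h2)

theorem Wk.edge {c : Fin m} {i j : Fin n} (h : R c i j) : Wk R (Pi.single c 1) i j := by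
  have := Wk.cons h (Wk.nil j)
  rwa [add_zero] at this

/-- Number of occurrences of each colour. -/
def cnt (l : List (Fin m)) : Fin m → ℕ := fun c => l.count c

theorem cnt_cons (c : Fin m) (l : List (Fin m)) : cnt (c :: l) = Pi.single c 1 + cnt l := by
  funext d
  simp only [cnt, List.count_cons, Pi.add_apply]
  by_cases h : c = d
  · subst h; simp; omega
  · rw [Pi.single_eq_of_ne (fun e => h e.symm)]
    simp [h]

theorem length_eq_sum_cnt (l : List (Fin m)) : l.length = ∑ c, cnt l c := by
  induction l with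
  | nil => simp [cnt]
  | cons c l ih =>
    rw [cnt_cons, List.length_cons, ih]
    simp only [Pi.add_apply, Finset.sum_add_distrib]
    rw [Finset.sum_pi_single']
    simp
    omega

variable (A : Fin m → Matrix (Fin n) (Fin n) ℚ≥0)

theorem wk_of_prod_pos (l : List (Fin m)) (i j : Fin n) (h : 0 < (l.map A).prod i j) :
    Wk (fun c a b => 0 < A c a b) (cnt l) i j := by
  induction l generalizing i with
  | nil =>
    simp only [List.map_nil, List.prod_nil, Matrix.one_apply] at h
    split_ifs at h with hij
    · subst hij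
      have : cnt ([] : List (Fin m)) = 0 := by funext c; simp [cnt]
      rw [this]
      exact .nil i
    · exact absurd h (lt_irrefl _)
  | cons c l ih =>
    rw [List.map_cons, List.prod_cons, Matrix.mul_apply, Finset.sum_pos_iff] at h
    obtain ⟨k, _, hk⟩ := h
    have h1 : 0 < A c i k := pos_of_ne_zero fun e => by rw [e, zero_mul] at hk; exact lt_irrefl _ hk
    have h2 : 0 < (l.map A).prod k j :=
      pos_of_ne_zero fun e => by rw [e, mul_zero] at hk; exact lt_irrefl _ hk
    rw [cnt_cons]
    exact .cons h1 (ih k h2)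

theorem prod_pos_of_wk {α : Fin m → ℕ} {i j : Fin n}
    (h : Wk (fun c a b => 0 < A c a b) α i j) :
    ∃ l : List (Fin m), cnt l = α ∧ 0 < (l.map A).prod i j := by
  induction h with
  | nil i =>
    refine ⟨[], by funext c; simp [cnt], ?_⟩
    simp
  | @cons c i k j α h1 _ ih =>
    obtain ⟨l, hl, hp⟩ := ih
    refine ⟨c :: l, by rw [cnt_cons, hl], ?_⟩
    rw [List.map_cons, List.prod_cons, Matrix.mul_apply, Finset.sum_pos_iff]
    exact ⟨k, Finset.mem_univ _, mul_pos h1 hp⟩

theorem cnt_ofFn {N : ℕ} (d : Fin N → Fin m) (c : Fin m) :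
    cnt (List.ofFn d) c = (Finset.univ.filter fun k => d k = c).card := by
  unfold cnt
  induction N with
  | zero => simp
  | succ N ih =>
    rw [List.ofFn_succ, List.count_cons, ih, Fin.card_filter_univ_succ]
    by_cases h : d 0 = c
    · simp [h]
    · simp [h]

theorem hurwitz_pos_iff (α : Fin m → ℕ) (i j : Fin n) :
    0 < hurwitz A α i j ↔ Wk (fun c a b => 0 < A c a b) α i j := by
  unfold hurwitz
  rw [Matrix.sum_apply, Finset.sum_pos_iff]
  constructor
  · rintro ⟨d, hd, hp⟩
    rw [Finset.mem_filter] at hd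
    have e1 : (List.ofFn fun k => A (d k)) = (List.ofFn d).map A := by
      rw [List.map_ofFn]; rfl
    rw [e1] at hp
    have h := wk_of_prod_pos A _ i j hp
    have e2 : cnt (List.ofFn d) = α := by
      funext c
      rw [cnt_ofFn, hd.2 c]
    rwa [e2] at h
  · intro h
    obtain ⟨l, hl, hp⟩ := prod_pos_of_wk A h
    have hlen : ∑ c, α c = l.length := by rw [← hl, length_eq_sum_cnt]
    refine ⟨fun k => l.get (Fin.cast hlen k), ?_, ?_⟩
    · rw [Finset.mem_filter]
      refine ⟨Finset.mem_univ _, fun c => ?_⟩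
      rw [← cnt_ofFn]
      have : List.ofFn (fun k : Fin (∑ c, α c) => l.get (Fin.cast hlen k)) = l := by
        apply List.ext_get
        · simp [hlen]
        · intro i h1 h2
          simp
      rw [this, hl]
    · have : (List.ofFn fun k : Fin (∑ c, α c) => A (l.get (Fin.cast hlen k))) = l.map A := by
        apply List.ext_get
        · simp [hlen]
        · intro i h1 h2
          simp
      rw [this]
      exact hp

/-! ### Inserting closed walks -/

/-- Colours of the walk from `i` through the vertices of a list to `j`. -/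
def tc (p : Fin n → Fin n → Fin m → ℕ) : Fin n → List (Fin n) → Fin n → Fin m → ℕ
  | i, [], j => p i j
  | i, v :: vs, j => p i v + tc p v vs j

theorem wk_tour {p : Fin n → Fin n → Fin m → ℕ} (hp : ∀ a b, Wk R (p a b) a b)
    {Γ : Fin n → Fin m → ℕ} (hΓ : ∀ v, Wk R (Γ v) v v) (vs : List (Fin n)) (i j : Fin n) :
    Wk R (tc p i vs j + (vs.map Γ).sum) i j := by
  induction vs generalizing i with
  | nil => simpa [tc] using hp i j
  | cons v vs ih =>
    have := (hp i v).append ((hΓ v).append (ih v))
    have e : tc p i (v :: vs) j + ((v :: vs).map Γ).sum =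
        p i v + (Γ v + (tc p v vs j + (vs.map Γ).sum)) := by
      rw [tc, List.map_cons, List.sum_cons]
      abel
    rw [e]
    exact this

theorem wk_tour' {p : Fin n → Fin n → Fin m → ℕ} (hp : ∀ a b, Wk R (p a b) a b)
    {Γ : Fin n → Fin m → ℕ} (hΓ : ∀ v, Wk R (Γ v) v v) (i j : Fin n) :
    Wk R (tc p i (List.finRange n) j + ∑ v, Γ v) i j := by
  have h := wk_tour hp hΓ (List.finRange n) i j
  have e : ((List.finRange n).map Γ).sum = ∑ v, Γ v := by
    rw [← List.ofFn_eq_map, List.sum_ofFn]
  rwa [e] at h

theorem tc_le {p : Fin n → Fin n → Fin m → ℕ} {K : ℕ} (hK : ∀ a b c, p a b c ≤ K)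
    (vs : List (Fin n)) (i j : Fin n) (c : Fin m) : tc p i vs j c ≤ (vs.length + 1) * K := by
  induction vs generalizing i with
  | nil => simpa [tc] using hK i j c
  | cons v vs ih =>
    have h1 := ih v
    have h2 := hK i v c
    rw [tc, Pi.add_apply, List.length_cons]
    have : (vs.length + 1 + 1) * K = (vs.length + 1) * K + K := Nat.succ_mul _ _
    omega

/-! ### Short walks -/

theorem exists_short {R : Fin m → Fin n → Fin n → Prop}
    (h : ∀ a b, ∃ α, Wk R α a b) (a b : Fin n) : ∃ α, Wk R α a b ∧ ∑ c, α c ≤ n := by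
  classical
  have hex : ∀ a, ∃ k, ∃ α, Wk R α a b ∧ ∑ c, α c = k := fun a => by
    obtain ⟨α, hα⟩ := h a b
    exact ⟨_, α, hα, rfl⟩
  let d : Fin n → ℕ := fun a => Nat.find (hex a)
  have hd : ∀ a, ∃ α, Wk R α a b ∧ ∑ c, α c = d a := fun a => Nat.find_spec (hex a)
  have hmin : ∀ a α, Wk R α a b → d a ≤ ∑ c, α c := fun a α hα =>
    Nat.find_min' (hex a) ⟨α, hα, rfl⟩
  have hsum : ∀ (c : Fin m) (α : Fin m → ℕ),
      ∑ c', (Pi.single c 1 + α : Fin m → ℕ) c' = 1 + ∑ c', α c' := by
    intro c α
    simp only [Pi.add_apply, Finset.sum_add_distrib]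
    rw [Finset.sum_pi_single']
    simp
  have hpred : ∀ a k, d a = k + 1 → ∃ a', d a' = k := by
    intro a k hk
    obtain ⟨α, hα, hs⟩ := hd a
    cases hα with
    | nil => simp at hs; omega
    | @cons c _ a' _ α' hR hα' =>
      refine ⟨a', ?_⟩
      rw [hsum] at hs
      have h1 := hmin a' α' hα'
      obtain ⟨β, hβ, hβs⟩ := hd a'
      have h2 := hmin a _ (Wk.cons hR hβ)
      rw [hsum] at h2
      omega
  have hall : ∀ k j, ∀ a, d a = j + k → ∃ a', d a' = j := by
    intro k
    induction k with
    | zero => intro j a ha; exact ⟨a, by simpa using ha⟩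
    | succ k ih =>
      intro j a ha
      obtain ⟨a', ha'⟩ := hpred a (j + k) (by omega)
      exact ih j a' ha'
  obtain ⟨α, hα, hs⟩ := hd a
  refine ⟨α, hα, ?_⟩
  rw [hs]
  have : ∀ j : Fin (d a + 1), ∃ a', d a' = j := fun j =>
    hall (d a - j) j a (by have := j.2; omega)
  choose g hg using this
  have hinj : Function.Injective g := by
    intro x y hxy
    apply Fin.ext
    rw [← hg x, ← hg y, hxy]
  have := Fintype.card_le_of_injective g hinj
  simp only [Fintype.card_fin] at this
  omega

end Pool.Agent.Lib.MP_9c2350_lc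
end

section

/-!
Integral circulations and their decomposition into cycles.
-/

set_option autoImplicit false

namespace Pool.Agent.Lib.MP_9c2350_lc

variable {n m : ℕ}

/-- Multiplicities of the coloured edges. -/
abbrev Fl (m n : ℕ) := Fin m → Fin n → Fin n → ℕ

/-- Flow out of a vertex. -/
def outF (x : Fl m n) (v : Fin n) : ℕ := ∑ c, ∑ b, x c v b

/-- Flow into a vertex. -/
def inF (x : Fl m n) (v : Fin n) : ℕ := ∑ c, ∑ a, x c a v

/-- The colours of a flow. -/
def col (x : Fl m n) : Fin m → ℕ := fun c => ∑ a, ∑ b, x c a b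

/-- Total multiplicity. -/
def tot (x : Fl m n) : ℕ := ∑ c, ∑ a, ∑ b, x c a b

/-- The flow only uses edges of the graph. -/
def Supp (R : Fin m → Fin n → Fin n → Prop) (x : Fl m n) : Prop := ∀ c a b, x c a b ≠ 0 → R c a b

/-- Circulations. -/
def Bal (x : Fl m n) : Prop := ∀ v, outF x v = inF x v

variable {R : Fin m → Fin n → Fin n → Prop}

theorem outF_add (x y : Fl m n) (v : Fin n) : outF (x + y) v = outF x v + outF y v := by
  simp [outF, Finset.sum_add_distrib]

theorem inF_add (x y : Fl m n) (v : Fin n) : inF (x + y) v = inF x v + inF y v := by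
  simp [inF, Finset.sum_add_distrib]

theorem col_add (x y : Fl m n) : col (x + y) = col x + col y := by
  funext c; simp [col, Finset.sum_add_distrib]

theorem tot_add (x y : Fl m n) : tot (x + y) = tot x + tot y := by
  simp [tot, Finset.sum_add_distrib]

/-- A single edge. -/
def edgeF (c : Fin m) (a b : Fin n) : Fl m n := fun c' a' b' =>
  if c' = c ∧ a' = a ∧ b' = b then 1 else 0

theorem outF_edge (c : Fin m) (a b v : Fin n) : outF (edgeF c a b) v = if v = a then 1 else 0 := by
  unfold outF edgeF
  by_cases h : v = a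
  · subst h
    simp only [true_and, if_true]
    rw [Finset.sum_eq_single c, Finset.sum_eq_single b] <;> simp +contextual
  · simp [h]

theorem inF_edge (c : Fin m) (a b v : Fin n) : inF (edgeF c a b) v = if v = b then 1 else 0 := by
  unfold inF edgeF
  by_cases h : v = b
  · subst h
    simp only [and_true, if_true]
    rw [Finset.sum_eq_single c, Finset.sum_eq_single a] <;> simp +contextual
  · simp [h]

theorem col_edge (c : Fin m) (a b : Fin n) : col (edgeF c a b) = Pi.single c 1 := by
  funext c'
  unfold col edgeF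
  by_cases h : c' = c
  · subst h
    rw [Pi.single_eq_same, Finset.sum_eq_single a, Finset.sum_eq_single b] <;>
      simp +contextual
  · rw [Pi.single_eq_of_ne h]
    simp [h]

/-- The flow of a walk. -/
theorem flow_of_wk {α : Fin m → ℕ} {i j : Fin n} (h : Wk R α i j) :
    ∃ x : Fl m n, Supp R x ∧ col x = α ∧
      ∀ v, outF x v + (if v = j then 1 else 0) = inF x v + (if v = i then 1 else 0) := by
  induction h with
  | nil i =>
    refine ⟨0, fun c a b h => absurd rfl h, ?_, fun v => ?_⟩
    · funext c; simp [col]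
    · simp [outF, inF]
  | @cons c i k j α hR _ ih =>
    obtain ⟨x, hs, hc, hx⟩ := ih
    refine ⟨edgeF c i k + x, ?_, ?_, fun v => ?_⟩
    · intro c' a b hne
      by_cases h : c' = c ∧ a = i ∧ b = k
      · obtain ⟨rfl, rfl, rfl⟩ := h; exact hR
      · apply hs
        intro h0
        apply hne
        simp [edgeF, h, h0]
    · rw [col_add, col_edge, hc]
    · rw [outF_add, inF_add, outF_edge, inF_edge]
      have := hx v
      omega

theorem bal_of_closed {α : Fin m → ℕ} {i : Fin n} (h : Wk R α i i) :
    ∃ x : Fl m n, Supp R x ∧ col x = α ∧ Bal x := by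
  obtain ⟨x, h1, h2, h3⟩ := flow_of_wk h
  exact ⟨x, h1, h2, fun v => by have := h3 v; omega⟩

/-- Sum over `k < p` of the edges `(cc k, u k, u (k+1))`. -/
def pathF (cc : ℕ → Fin m) (u : ℕ → Fin n) (p : ℕ) : Fl m n :=
  ∑ k ∈ Finset.range p, edgeF (cc k) (u k) (u (k + 1))

theorem pathF_succ (cc : ℕ → Fin m) (u : ℕ → Fin n) (p : ℕ) :
    pathF cc u (p + 1) = pathF cc u p + edgeF (cc p) (u p) (u (p + 1)) := by
  unfold pathF; rw [Finset.sum_range_succ]

theorem pathF_zero (cc : ℕ → Fin m) (u : ℕ → Fin n) : pathF cc u 0 = 0 := by simp [pathF]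

theorem wk_pathF (cc : ℕ → Fin m) (u : ℕ → Fin n) (p : ℕ) (h : ∀ k < p, R (cc k) (u k) (u (k + 1))) :
    Wk R (col (pathF cc u p)) (u 0) (u p) := by
  induction p with
  | zero =>
    rw [pathF_zero]
    have : col (0 : Fl m n) = 0 := by funext c; simp [col]
    rw [this]
    exact .nil _
  | succ p ih =>
    rw [pathF_succ, col_add, col_edge]
    exact (ih fun k hk => h k (by omega)).append (Wk.edge (h p (by omega)))

theorem outF_pathF (cc : ℕ → Fin m) (u : ℕ → Fin n) (p : ℕ) (v : Fin n) :
    outF (pathF cc u p) v = ∑ k ∈ Finset.range p, if v = u k then 1 else 0 := by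
  induction p with
  | zero => rw [pathF_zero]; simp [outF]
  | succ p ih => rw [pathF_succ, outF_add, ih, outF_edge, Finset.sum_range_succ]

theorem inF_pathF (cc : ℕ → Fin m) (u : ℕ → Fin n) (p : ℕ) (v : Fin n) :
    inF (pathF cc u p) v = ∑ k ∈ Finset.range p, if v = u (k + 1) then 1 else 0 := by
  induction p with
  | zero => rw [pathF_zero]; simp [inF]
  | succ p ih => rw [pathF_succ, inF_add, ih, inF_edge, Finset.sum_range_succ]

theorem bal_pathF (cc : ℕ → Fin m) (u : ℕ → Fin n) (p : ℕ) (h : u p = u 0) :
    Bal (pathF cc u p) := by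
  intro v
  rw [outF_pathF, inF_pathF]
  have h1 := Finset.sum_range_succ (fun k => if v = u k then 1 else 0) p
  have h2 := Finset.sum_range_succ' (fun k => if v = u k then 1 else 0) p
  rw [h1] at h2
  simp only [h] at h2
  omega

theorem pathF_apply (cc : ℕ → Fin m) (u : ℕ → Fin n) (p : ℕ) (c : Fin m) (a b : Fin n) :
    pathF cc u p c a b =
      ∑ k ∈ Finset.range p, if c = cc k ∧ a = u k ∧ b = u (k + 1) then 1 else 0 := by
  induction p with
  | zero => simp [pathF_zero]
  | succ p ih => rw [pathF_succ, Finset.sum_range_succ, ← ih]; rfl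

theorem pathF_le_one (cc : ℕ → Fin m) (u : ℕ → Fin n) (p : ℕ)
    (hinj : ∀ k < p, ∀ k' < p, u k = u k' → k = k') (c : Fin m) (a b : Fin n) :
    pathF cc u p c a b ≤ 1 := by
  rw [pathF_apply, Finset.sum_boole]
  simp only [Nat.cast_id]
  rw [Finset.card_le_one]
  intro k hk k' hk'
  rw [Finset.mem_filter, Finset.mem_range] at hk hk'
  exact hinj k hk.1 k' hk'.1 (hk.2.2.1.symm.trans hk'.2.2.1)

theorem exists_of_pathF_ne_zero {cc : ℕ → Fin m} {u : ℕ → Fin n} {p : ℕ} {c : Fin m}
    {a b : Fin n} (h : pathF cc u p c a b ≠ 0) : ∃ k < p, c = cc k ∧ a = u k ∧ b = u (k + 1) := by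
  rw [pathF_apply] at h
  obtain ⟨k, hk, hk'⟩ := Finset.exists_ne_zero_of_sum_ne_zero h
  refine ⟨k, Finset.mem_range.1 hk, ?_⟩
  by_contra h'
  rw [if_neg h'] at hk'
  exact hk' rfl

/-- Simple circulations: zero-one valued circulations whose colours are those of a closed walk. -/
structure Simple (R : Fin m → Fin n → Fin n → Prop) (y : Fl m n) : Prop where
  le_one : ∀ c a b, y c a b ≤ 1
  supp : Supp R y
  bal : Bal y
  walk : ∃ v, Wk R (col y) v v

/-- Every nonzero circulation contains a cycle. -/
theorem exists_simple (x : Fl m n) (hs : Supp R x) (hb : Bal x) (hx : tot x ≠ 0) :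
    ∃ y, Simple R y ∧ tot y ≠ 0 ∧ ∀ c a b, y c a b ≤ x c a b := by
  classical
  obtain ⟨c₀, _, h0⟩ := Finset.exists_ne_zero_of_sum_ne_zero hx
  obtain ⟨a₀, _, h0⟩ := Finset.exists_ne_zero_of_sum_ne_zero h0
  obtain ⟨b₀, _, h0⟩ := Finset.exists_ne_zero_of_sum_ne_zero h0
  have hchoose : ∀ v, ∃ cb : Fin m × Fin n, outF x v ≠ 0 → x cb.1 v cb.2 ≠ 0 := by
    intro v
    by_cases h : outF x v = 0
    · exact ⟨(c₀, b₀), fun h' => absurd h h'⟩
    · obtain ⟨c, _, h1⟩ := Finset.exists_ne_zero_of_sum_ne_zero h
      obtain ⟨b, _, h1⟩ := Finset.exists_ne_zero_of_sum_ne_zero h1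
      exact ⟨(c, b), fun _ => h1⟩
  choose g hg using hchoose
  let f : Fin n → Fin n := fun v => (g v).2
  let w : ℕ → Fin n := fun k => f^[k] a₀
  have hw : ∀ k, w (k + 1) = f (w k) := fun k => Function.iterate_succ_apply' f k a₀
  have hP0 : outF x a₀ ≠ 0 := by
    intro h
    apply h0
    unfold outF at h
    have := (Finset.sum_eq_zero_iff.1 h) c₀ (Finset.mem_univ _)
    exact (Finset.sum_eq_zero_iff.1 this) b₀ (Finset.mem_univ _)
  have hPs : ∀ v, outF x v ≠ 0 → outF x (f v) ≠ 0 := by
    intro v hv h
    apply hg v hv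
    rw [hb] at h
    unfold inF at h
    have := (Finset.sum_eq_zero_iff.1 h) (g v).1 (Finset.mem_univ _)
    exact (Finset.sum_eq_zero_iff.1 this) v (Finset.mem_univ _)
  have hP : ∀ k, outF x (w k) ≠ 0 := by
    intro k
    induction k with
    | zero => exact hP0
    | succ k ih => rw [hw]; exact hPs _ ih
  have hex : ∃ p, ∃ i, w (i + (p + 1)) = w i := by
    obtain ⟨i, j, hij, he⟩ := Finite.exists_ne_map_eq_of_infinite w
    rcases lt_or_gt_of_ne hij with h | h
    · exact ⟨j - i - 1, i, by rw [show i + (j - i - 1 + 1) = j by omega]; exact he.symm⟩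
    · exact ⟨i - j - 1, j, by rw [show j + (i - j - 1 + 1) = i by omega]; exact he⟩
  obtain ⟨i, hi⟩ := Nat.find_spec hex
  set p := Nat.find hex with hp
  let u : ℕ → Fin n := fun k => w (i + k)
  let cc : ℕ → Fin m := fun k => (g (u k)).1
  have hu : ∀ k, u (k + 1) = (g (u k)).2 := fun k => hw (i + k)
  have hinj : ∀ k < p + 1, ∀ k' < p + 1, u k = u k' → k = k' := by
    have key : ∀ k k', k < k' → k' < p + 1 → u k ≠ u k' := by
      intro k k' hkk hk' he
      have : k' - k - 1 < p := by omega
      apply Nat.find_min hex this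
      refine ⟨i + k, ?_⟩
      rw [show i + k + (k' - k - 1 + 1) = i + k' by omega]
      exact he.symm
    intro k hk k' hk' he
    rcases lt_trichotomy k k' with h | h | h
    · exact absurd he (key k k' h hk')
    · exact h
    · exact absurd he.symm (key k' k h hk)
  have hxu : ∀ k, x (cc k) (u k) (u (k + 1)) ≠ 0 := fun k => by
    rw [hu]; exact hg _ (hP _)
  have hclosed : u (p + 1) = u 0 := hi
  refine ⟨pathF cc u (p + 1), ⟨pathF_le_one cc u (p + 1) hinj, ?_, bal_pathF cc u (p + 1) hclosed,
    ⟨u 0, ?_⟩⟩, ?_, ?_⟩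
  · intro c a b hne
    obtain ⟨k, _, rfl, rfl, rfl⟩ := exists_of_pathF_ne_zero hne
    exact hs _ _ _ (hxu k)
  · have := wk_pathF (R := R) cc u (p + 1) fun k _ => hs _ _ _ (hxu k)
    rwa [hclosed] at this
  · intro h
    have h1 := (Finset.sum_eq_zero_iff.1 h) (cc 0) (Finset.mem_univ _)
    have h2 := (Finset.sum_eq_zero_iff.1 h1) (u 0) (Finset.mem_univ _)
    have h3 := (Finset.sum_eq_zero_iff.1 h2) (u (0 + 1)) (Finset.mem_univ _)
    rw [pathF_apply] at h3
    have h4 := (Finset.sum_eq_zero_iff.1 h3) 0 (Finset.mem_range.2 (by omega))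
    simp at h4
  · intro c a b
    by_cases h : pathF cc u (p + 1) c a b = 0
    · rw [h]; exact Nat.zero_le _
    · obtain ⟨k, _, rfl, rfl, rfl⟩ := exists_of_pathF_ne_zero h
      have h1 := pathF_le_one cc u (p + 1) hinj (cc k) (u k) (u (k + 1))
      have h2 := hxu k
      omega

/-- Decomposition of a circulation into cycles. -/
theorem decomp (N : ℕ) : ∀ x : Fl m n, tot x = N → Supp R x → Bal x →
    ∃ L : List (Fl m n), (∀ y ∈ L, Simple R y) ∧ x = L.sum := by
  induction N using Nat.strong_induction_on with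
  | _ N ih =>
    intro x hN hs hb
    by_cases h0 : tot x = 0
    · refine ⟨[], by simp, ?_⟩
      funext c a b
      have h1 := (Finset.sum_eq_zero_iff.1 h0) c (Finset.mem_univ _)
      have h2 := (Finset.sum_eq_zero_iff.1 h1) a (Finset.mem_univ _)
      have h3 := (Finset.sum_eq_zero_iff.1 h2) b (Finset.mem_univ _)
      simpa using h3
    · obtain ⟨y, hy, hy0, hle⟩ := exists_simple x hs hb h0
      have hxy : x = y + (x - y) := by
        funext c a b
        have := hle c a b
        simp only [Pi.add_apply, Pi.sub_apply]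
        omega
      have ht : tot x = tot y + tot (x - y) := by
        conv_lhs => rw [hxy]
        rw [tot_add]
      obtain ⟨L, hL, hsum⟩ := ih (tot (x - y)) (by omega) (x - y) rfl
        (fun c a b hne => hs c a b fun h => hne (by simp [h]))
        (fun v => by
          have h1 := hb v
          rw [hxy, outF_add, inF_add] at h1
          have h2 := hy.bal v
          omega)
      refine ⟨y :: L, ?_, ?_⟩
      · intro z hz
        rcases List.mem_cons.1 hz with h | h
        · rw [h]; exact hy
        · exact hL z h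
      · rw [List.sum_cons, ← hsum]; exact hxy

/-- The colours of a circulation are those of closed walks. -/
theorem closed_of_bal (x : Fl m n) (hs : Supp R x) (hb : Bal x) :
    ∃ Γ : Fin n → Fin m → ℕ, (∀ v, Wk R (Γ v) v v) ∧ col x = ∑ v, Γ v := by
  obtain ⟨L, hL, rfl⟩ := decomp (R := R) (tot x) x rfl hs hb
  clear hs hb
  induction L with
  | nil =>
    refine ⟨fun _ => 0, fun v => .nil v, ?_⟩
    funext c; simp [col]
  | cons y L ih =>
    obtain ⟨Γ, h1, h2⟩ := ih fun z hz => hL z (by simp [hz])
    obtain ⟨v, hv⟩ := (hL y (by simp)).walk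
    refine ⟨Γ + Pi.single v (col y), fun w => ?_, ?_⟩
    · by_cases h : w = v
      · subst h
        rw [Pi.add_apply, Pi.single_eq_same]
        exact (h1 w).append hv
      · rw [Pi.add_apply, Pi.single_eq_of_ne h, add_zero]
        exact h1 w
    · rw [List.sum_cons, col_add, h2]
      simp only [Pi.add_apply, Finset.sum_add_distrib]
      rw [Finset.sum_pi_single']
      simp [add_comm]

end Pool.Agent.Lib.MP_9c2350_lc
end

section

/-!
What the algorithm computes.
-/

set_option autoImplicit false
set_option linter.unusedSimpArgs false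
set_option linter.unusedVariables false

namespace Pool.Agent.Lib.MP_9c2350_lc

open Matrix

/-- The value of a binary number, least significant digit first. -/
def val : Num2 → ℕ
  | [] => 0
  | b :: l => b.toNat + 2 * val l

theorem val_append (l m : Num2) : val (l ++ m) = val l + 2 ^ l.length * val m := by
  induction l with
  | nil => simp [val]
  | cons b l ih => simp only [List.cons_append, val, ih, List.length_cons, pow_succ]; ring

theorem val_replicate (k : ℕ) : val (List.replicate k false) = 0 := by
  induction k with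
  | zero => rfl
  | succ k ih => simp [List.replicate_succ, val, ih]

theorem val_headD_tail (y : Num2) : val y = (y.headD false).toNat + 2 * val y.tail := by
  cases y with
  | nil => rfl
  | cons b y => rfl

theorem addStep_val (s : Bool × (Num2 × Num2)) (b : Bool) :
    val (addStep s b).2.2.reverse + 2 ^ (addStep s b).2.2.length *
      ((addStep s b).1.toNat + val (addStep s b).2.1) =
    val s.2.2.reverse + 2 ^ s.2.2.length * (s.1.toNat + val s.2.1 + b.toNat) := by
  rw [val_headD_tail s.2.1]
  unfold addStep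
  simp only [List.reverse_cons, val_append, List.length_reverse, List.length_cons, val, pow_succ]
  generalize s.2.1.headD false = h
  generalize s.1 = c
  have key : ∀ (c h b : Bool),
      ((b ^^ h) ^^ c).toNat + 2 * ((b && h) || ((b && c) || (h && c))).toNat =
      c.toNat + h.toNat + b.toNat := by decide
  calc _ = val s.2.2.reverse + 2 ^ s.2.2.length *
        (((b ^^ h) ^^ c).toNat + 2 * ((b && h) || ((b && c) || (h && c))).toNat) +
        2 * 2 ^ s.2.2.length * val s.2.1.tail := by ring
    _ = val s.2.2.reverse + 2 ^ s.2.2.length * (c.toNat + h.toNat + b.toNat) +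
        2 * 2 ^ s.2.2.length * val s.2.1.tail := by rw [key]
    _ = _ := by ring

theorem foldl_addStep_val (l : List Bool) (s : Bool × (Num2 × Num2)) :
    val (l.foldl addStep s).2.2.reverse + 2 ^ (l.foldl addStep s).2.2.length *
      ((l.foldl addStep s).1.toNat + val (l.foldl addStep s).2.1) =
    val s.2.2.reverse + 2 ^ s.2.2.length * (s.1.toNat + val s.2.1 + val l) := by
  induction l generalizing s with
  | nil => simp [val]
  | cons b l ih =>
    have h1 := addStep_val s b
    have h2 : (addStep s b).2.2.length = s.2.2.length + 1 := by simp [addStep]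
    rw [List.foldl_cons, ih, val]
    calc _ = (val (addStep s b).2.2.reverse + 2 ^ (addStep s b).2.2.length *
          ((addStep s b).1.toNat + val (addStep s b).2.1)) +
          2 ^ (addStep s b).2.2.length * val l := by ring
      _ = _ := by rw [h1, h2]; ring

theorem add_val (x y : Num2) : val (add x y) = val x + val y := by
  unfold add
  simp only [List.reverse_cons, val_append, List.length_reverse, val]
  have h1 := foldl_addStep_val x (false, (y, []))
  set s := x.foldl addStep (false, (y, [])) with hs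
  have h2 := foldl_addStep_val s.2.1 (s.1, ([], s.2.2))
  set s' := s.2.1.foldl addStep (s.1, ([], s.2.2)) with hs'
  have h3 : s'.2.1 = [] := by rw [hs', foldl_addStep_drop]; simp
  rw [h3] at h2
  simp only [val, List.reverse_nil, List.length_nil, pow_zero, Bool.toNat_false] at h1 h2
  calc _ = val s'.2.2.reverse + 2 ^ s'.2.2.length * (s'.1.toNat + 0) := by ring
    _ = val s.2.2.reverse + 2 ^ s.2.2.length * (s.1.toNat + val s.2.1) := by rw [h2]; ring
    _ = _ := by rw [h1]; ring

theorem strip_cons (b : Bool) (l : Num2) :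
    strip (b :: l) = if b || !(strip l).isEmpty then b :: strip l else [] := by
  unfold strip
  rw [List.reverse_cons, List.foldl_append]
  rfl

theorem strip_eq (l : Num2) : strip l = (val l).bits := by
  induction l with
  | nil => simp [strip, val]
  | cons b l ih =>
    rw [strip_cons, ih, val]
    have e : b.toNat + 2 * val l = Nat.bit b (val l) := by
      cases b <;> simp [Nat.bit_val]; omega
    rw [e]
    by_cases h : val l = 0 ∧ b = false
    · obtain ⟨h1, h2⟩ := h
      rw [h1, h2]
      simp
    · rw [Nat.bits_append_bit _ _ (by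
        intro h1
        cases b
        · exact absurd ⟨h1, rfl⟩ h
        · rfl)]
      cases b with
      | true => simp
      | false =>
        have hne : val l ≠ 0 := fun h1 => h ⟨h1, rfl⟩
        have : (val l).bits ≠ [] := by
          intro h2
          apply hne
          have h3 := congrArg List.length h2
          rw [List.length_nil] at h3
          rw [Nat.size_eq_bits_len] at h3
          exact Nat.size_eq_zero.1 h3
        simp [this]

/-! ### Vectors -/

/-- Entry of a vector. -/
def ent (v : Vec2) (i : ℕ) : ℕ := val (v.getD i [])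

theorem ent_zero (v : Vec2) : ent v 0 = val (v.headD []) := by cases v <;> rfl

theorem ent_succ (v : Vec2) (i : ℕ) : ent v (i + 1) = ent v.tail i := by
  cases v with
  | nil => simp [ent]
  | cons a v => simp [ent]

theorem foldl_dotStep_val (row : List Bool) (s : Vec2 × Num2) :
    val (row.foldl dotStep s).2 =
      val s.2 + ∑ i ∈ Finset.range row.length, (row.getD i false).toNat * ent s.1 i := by
  induction row generalizing s with
  | nil => simp
  | cons b row ih =>
    rw [List.foldl_cons, ih, List.length_cons, Finset.sum_range_succ', ]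
    have h1 : val (dotStep s b).2 = val s.2 + b.toNat * ent s.1 0 := by
      unfold dotStep
      cases b
      · simp
      · simp [add_val, ent_zero]
    have h2 : (dotStep s b).1 = s.1.tail := rfl
    rw [h1, h2]
    simp only [List.getD_cons_succ, List.getD_cons_zero, ent_succ]
    ring

theorem dot_val (row : List Bool) (v : Vec2) :
    val (dot row v) = ∑ i ∈ Finset.range row.length, (row.getD i false).toNat * ent v i := by
  have := foldl_dotStep_val row (v, [])
  simpa [dot, val] using this

theorem foldl_accStep_get (v : Vec2) (A : List (List Bool)) (s : Vec2 × Vec2) :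
    (A.foldl (accStep v) s).2.reverse = s.2.reverse ++
      (List.range A.length).map fun i => add (s.1.getD i []) (dot (A.getD i []) v) := by
  induction A generalizing s with
  | nil => simp
  | cons r A ih =>
    rw [List.foldl_cons, ih, List.length_cons, List.range_succ_eq_map, List.map_cons,
      List.map_map]
    have h1 : (accStep v s r).1 = s.1.tail := rfl
    have h2 : (accStep v s r).2 = add (s.1.headD []) (dot r v) :: s.2 := rfl
    rw [h1, h2, List.reverse_cons, List.append_assoc]
    congr 1
    have h3 : (s.1.getD 0 []) = s.1.headD [] := by cases s.1 <;> rfl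
    have h4 : ∀ i, s.1.tail.getD i [] = s.1.getD (i + 1) [] := by
      intro i
      cases s.1 <;> simp
    simp only [List.singleton_append, List.getD_cons_zero, h3, Function.comp_def,
      List.getD_cons_succ, h4, Nat.succ_eq_add_one]

theorem accum_ent (v w : Vec2) (A : List (List Bool)) (i : ℕ) (hi : i < A.length) :
    ent (accum v w A) i = ent w i + val (dot (A.getD i []) v) := by
  unfold ent accum
  rw [foldl_accStep_get]
  simp only [List.reverse_nil, List.nil_append]
  rw [List.getD_eq_getElem _ _ (by simpa using hi)]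
  simp [add_val]

/-! ### The family as lists -/

variable {n m : ℕ}

/-- The list of rows of a zero-one matrix. -/
def rows (B : Fin n → Fin n → Bool) : List (List Bool) := List.ofFn fun a => List.ofFn fun b => B a b

/-- The family as a list. -/
def famOf (pat : Fin m → Fin n → Fin n → Bool) : Fam := List.ofFn fun c => rows (pat c)

theorem rows_length (B : Fin n → Fin n → Bool) : (rows B).length = n := by simp [rows]

theorem rows_getD (B : Fin n → Fin n → Bool) (a : Fin n) :
    (rows B).getD a [] = List.ofFn fun b => B a b := by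
  rw [List.getD_eq_getElem _ _ (by simp [rows])]
  simp [rows]

/-- The vector of entries. -/
def entF (n : ℕ) (v : Vec2) : Fin n → ℕ := fun a => ent v a

theorem dot_row (r : Fin n → Bool) (v : Vec2) :
    val (dot (List.ofFn r) v) = ∑ b, (r b).toNat * entF n v b := by
  rw [dot_val, List.length_ofFn, Finset.sum_range]
  refine Finset.sum_congr rfl fun b _ => ?_
  rw [List.getD_eq_getElem _ _ (by simp)]
  simp [entF]

/-- The zero-one matrix of a pattern. -/
def patM (B : Fin n → Fin n → Bool) : Matrix (Fin n) (Fin n) ℕ := Matrix.of fun a b => (B a b).toNat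

/-- `1 + ∑ A`. -/
def PM (pat : Fin m → Fin n → Fin n → Bool) : Matrix (Fin n) (Fin n) ℕ := 1 + ∑ c, patM (pat c)

theorem accum_rows (v w : Vec2) (B : Fin n → Fin n → Bool) :
    entF n (accum v w (rows B)) = entF n w + (patM B).mulVec (entF n v) := by
  funext a
  have := accum_ent v w (rows B) a (by rw [rows_length]; exact a.2)
  rw [rows_getD, dot_row] at this
  simpa [entF, Matrix.mulVec, dotProduct, patM] using this

theorem foldl_accum (v w : Vec2) (l : List (Fin n → Fin n → Bool)) :
    entF n ((l.map rows).foldl (fun w A => accum v w A) w) =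
      entF n w + ((l.map patM).sum).mulVec (entF n v) := by
  induction l generalizing w with
  | nil => simp
  | cons B l ih =>
    rw [List.map_cons, List.foldl_cons, ih, accum_rows, List.map_cons, List.sum_cons,
      Matrix.add_mulVec, add_assoc]

theorem stepv_ent (pat : Fin m → Fin n → Fin n → Bool) (v : Vec2) :
    entF n (stepv (famOf pat) v) = (PM pat).mulVec (entF n v) := by
  have h := foldl_accum v v (List.ofFn pat)
  have e1 : (List.ofFn pat).map rows = famOf pat := by
    simp [famOf, List.map_ofFn, Function.comp_def]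
  have e2 : ((List.ofFn pat).map patM).sum = ∑ c, patM (pat c) := by
    rw [List.map_ofFn, List.sum_ofFn]; rfl
  rw [e1, e2] at h
  unfold stepv PM
  rw [h, Matrix.add_mulVec, Matrix.one_mulVec]

theorem foldl_iter_ent (pat : Fin m → Fin n → Fin n → Bool) (A : List (List Bool)) (v : Vec2) :
    entF n (iter (famOf pat) A v) = (PM pat ^ A.length).mulVec (entF n v) := by
  unfold iter
  induction A generalizing v with
  | nil => simp
  | cons r A ih =>
    rw [List.foldl_cons, ih, stepv_ent, List.length_cons, pow_succ, Matrix.mulVec_mulVec]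

theorem iter_ent (pat : Fin m → Fin n → Fin n → Bool) (B : Fin n → Fin n → Bool) (v : Vec2) :
    entF n (iter (famOf pat) (rows B) v) = (PM pat ^ n).mulVec (entF n v) := by
  rw [foldl_iter_ent, rows_length]

/-- Unit vectors. -/
def unitV (k : ℕ) : Vec2 := List.replicate k [] ++ [[true]]

theorem unitV_ent (a : Fin n) : entF n (unitV a) = Pi.single a 1 := by
  funext b
  unfold entF ent unitV
  by_cases h : b = a
  · subst h
    rw [Pi.single_eq_same, List.getD_append_right _ _ _ _ (by simp)]
    simp [val]
  · rw [Pi.single_eq_of_ne h]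
    have h' : (b : ℕ) ≠ a := fun e => h (Fin.ext e)
    rcases lt_or_gt_of_ne h' with h1 | h1
    · rw [List.getD_append _ _ _ _ (by simpa using h1)]
      simp [val]
    · rw [List.getD_append_right _ _ _ _ (by simp; omega), List.getD_eq_default _ _ (by
        simp; omega)]
      rfl

theorem foldl_alStep_val (pat : Fin m → Fin n → Fin n → Bool) (A : List (List Bool))
    (hA : A.length = n) (B : List (List Bool)) (k : ℕ) (acc : Num2) :
    val (B.foldl (alStep (famOf pat) A) (unitV k, acc)).2 =
      val acc + ∑ i ∈ Finset.range B.length,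
        val (dot (B.getD i []) (iter (famOf pat) A (unitV (k + i)))) := by
  induction B generalizing k acc with
  | nil => simp
  | cons r B ih =>
    rw [List.foldl_cons, List.length_cons, Finset.sum_range_succ']
    have e : alStep (famOf pat) A (unitV k, acc) r =
        (unitV (k + 1), add acc (dot r (iter (famOf pat) A (unitV k)))) := by
      simp [alStep, unitV, List.replicate_succ]
    rw [e, ih, add_val]
    simp only [List.getD_cons_succ, List.getD_cons_zero, add_zero]
    have : ∀ i, k + 1 + i = k + (i + 1) := fun i => by omega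
    simp only [this]
    ring

/-- The value of an entry of the colour vector before scaling. -/
theorem alphaOf_val (pat : Fin m → Fin n → Fin n → Bool) (c : Fin m) :
    val (alphaOf (famOf pat) (rows (pat c))) =
      ∑ a, ∑ b, (pat c a b).toNat * (PM pat ^ n) b a := by
  unfold alphaOf
  have h := foldl_alStep_val pat (rows (pat c)) (rows_length _) (rows (pat c)) 0 []
  have e : unitV 0 = [[true]] := rfl
  rw [e] at h
  rw [h, rows_length, Finset.sum_range]
  simp only [val, zero_add]
  refine Finset.sum_congr rfl fun a _ => ?_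
  rw [rows_getD, dot_row]
  refine Finset.sum_congr rfl fun b _ => ?_
  rw [iter_ent, unitV_ent]
  simp

/-! ### The whole algorithm -/

theorem algo_eq (pat : Fin m → Fin n → Fin n → Bool) (x : List Sym)
    (hx : parse x = famOf pat) :
    algo x = encVector fun c => 2 ^ (x.length * (x.length * 10)) *
      ∑ a, ∑ b, (pat c a b).toNat * (PM pat ^ n) b a := by
  unfold encVector
  have hmap : ∀ g : List (List Bool) → List Sym,
      (famOf pat).map g = List.ofFn fun c => g (rows (pat c)) := by
    intro g; simp [famOf, List.map_ofFn, Function.comp_def]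
  unfold algo outp
  rw [hx, List.flatMap_def, List.map_map, hmap]
  congr 1
  congr 1
  funext c
  simp only [Function.comp_apply, digits]
  congr 2
  rw [strip_eq, val_append, zeros_eq, val_replicate, List.length_replicate, zero_add,
    alphaOf_val]

end Pool.Agent.Lib.MP_9c2350_lc
end

section

/-!
The parser reads the encoding of a family of matrices correctly.
-/

set_option autoImplicit false
set_option linter.unusedSimpArgs false
set_option linter.unusedVariables false

namespace Pool.Agent.Lib.MP_9c2350_lc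

/-- The parser as a right fold. -/
def pf (init : Fam) (x : List Sym) : Fam := x.foldr (fun s fam => pstep fam s) init

theorem parse_eq (x : List Sym) : parse x = pf [] x := by
  unfold parse pf
  rw [List.foldl_reverse]

theorem pf_append (init : Fam) (x y : List Sym) : pf init (x ++ y) = pf (pf init y) x := by
  unfold pf; rw [List.foldr_append]

theorem pf_bits (l : List Bool) (b : Bool) (r : List Bool) (M : List (List Bool)) (fam : Fam) :
    pf (((b :: r) :: M) :: fam) (l.map dig) = (((l.any _root_.id || b) :: r) :: M) :: fam := by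
  induction l with
  | nil => simp [pf]
  | cons a l ih =>
    have : pf (((b :: r) :: M) :: fam) ((a :: l).map dig) =
      pstep (pf (((b :: r) :: M) :: fam) (l.map dig)) (dig a) := rfl
    rw [this, ih]
    cases a <;> simp [dig, pstep]

theorem bits_any (k : ℕ) : (k.bits.any _root_.id) = decide (k ≠ 0) := by
  have h : ∀ l : List Bool, l.any _root_.id = decide (val l ≠ 0) := by
    intro l
    induction l with
    | nil => simp [val]
    | cons b l ih => cases b <;> simp [val, ih]
  have hv : ∀ k : ℕ, val k.bits = k := by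
    intro k
    induction k using Nat.binaryRec' with
    | zero => simp [val]
    | bit b n hn ih =>
      rw [Nat.bits_append_bit _ _ hn, val, ih, Nat.bit_val]
      omega
  rw [h, hv]

theorem pf_digits (k : ℕ) (b : Bool) (r : List Bool) (M : List (List Bool)) (fam : Fam) :
    pf (((b :: r) :: M) :: fam) (digits k) = (((decide (k ≠ 0) || b) :: r) :: M) :: fam := by
  rw [digits, pf_bits, bits_any]

theorem pf_entry (q : ℚ≥0) (r : List Bool) (M : List (List Bool)) (fam : Fam) :
    pf ((r :: M) :: fam) (encEntry q) = ((decide (0 < q) :: r) :: M) :: fam := by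
  unfold encEntry
  rw [pf_append, pf_append, pf_append]
  have e1 : pf ((r :: M) :: fam) [.comma] = ((false :: r) :: M) :: fam := rfl
  rw [e1, pf_digits]
  have e2 : ∀ b, pf (((b :: r) :: M) :: fam) [.slash] = ((false :: r) :: M) :: fam := fun b => rfl
  rw [e2, pf_digits]
  have : (q.num ≠ 0) ↔ 0 < q := by
    rw [pos_iff_ne_zero, NNRat.num_ne_zero]
  simp [this]

theorem pf_entries {n : ℕ} (f : Fin n → ℚ≥0) (js : List (Fin n)) (r : List Bool)
    (M : List (List Bool)) (fam : Fam) :
    pf ((r :: M) :: fam) (js.map fun j => encEntry (f j)).flatten =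
      (((js.map fun j => decide (0 < f j)) ++ r) :: M) :: fam := by
  induction js with
  | nil => rfl
  | cons j js ih =>
    rw [List.map_cons, List.flatten_cons, pf_append, ih, pf_entry]
    rfl

theorem ofFn_eq_map {n : ℕ} {β : Type} (f : Fin n → β) : List.ofFn f = (List.finRange n).map f := by
  rw [List.ofFn_eq_map]

theorem pf_row {n : ℕ} (f : Fin n → ℚ≥0) (M : List (List Bool)) (fam : Fam) :
    pf (M :: fam) (encRow f) = ((List.ofFn fun j => decide (0 < f j)) :: M) :: fam := by
  unfold encRow
  rw [pf_append]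
  have e1 : pf (M :: fam) [.semi] = ([] :: M) :: fam := rfl
  rw [e1, ofFn_eq_map, pf_entries, List.append_nil, ofFn_eq_map]

theorem pf_rows {n k : ℕ} (f : Fin k → Fin n → ℚ≥0) (is : List (Fin k)) (M : List (List Bool))
    (fam : Fam) :
    pf (M :: fam) (is.map fun i => encRow (f i)).flatten =
      ((is.map fun i => List.ofFn fun j => decide (0 < f i j)) ++ M) :: fam := by
  induction is with
  | nil => rfl
  | cons i is ih =>
    rw [List.map_cons, List.flatten_cons, pf_append, ih, pf_row]
    rfl

theorem pf_matrix {n : ℕ} (B : Matrix (Fin n) (Fin n) ℚ≥0) (fam : Fam) :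
    pf fam (encMatrix B) = rows (fun a b => decide (0 < B a b)) :: fam := by
  unfold encMatrix
  rw [pf_append]
  have e1 : pf fam [.bar] = [] :: fam := rfl
  rw [e1, ofFn_eq_map, pf_rows (fun i j => B i j), List.append_nil, rows, ofFn_eq_map]

/-- The zero pattern of a family. -/
def patOf {n m : ℕ} (A : Fin m → Matrix (Fin n) (Fin n) ℚ≥0) : Fin m → Fin n → Fin n → Bool :=
  fun c a b => decide (0 < A c a b)

theorem parse_encFamily {n m : ℕ} (A : Fin m → Matrix (Fin n) (Fin n) ℚ≥0) :
    parse (encFamily A) = famOf (patOf A) := by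
  have h : ∀ cs : List (Fin m), pf [] (cs.map fun c => encMatrix (A c)).flatten =
      cs.map fun c => rows (patOf A c) := by
    intro cs
    induction cs with
    | nil => rfl
    | cons c cs ih =>
      rw [List.map_cons, List.flatten_cons, pf_append, ih, pf_matrix]
      rfl
  rw [parse_eq, encFamily, ofFn_eq_map, h, famOf, ofFn_eq_map]

/-! ### Length of the input -/

theorem encEntry_length (q : ℚ≥0) : 3 ≤ (encEntry q).length := by
  have h : 1 ≤ (digits q.den).length := by
    rw [digits, List.length_map, Nat.size_eq_bits_len]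
    exact Nat.size_pos.2 q.den_pos
  simp only [encEntry, List.length_append, List.length_cons, List.length_nil]
  omega

theorem sum_map_const_le {β : Type} (f : β → List Sym) (k : ℕ) (h : ∀ b, k ≤ (f b).length)
    (l : List β) : l.length * k ≤ (l.map f).flatten.length := by
  induction l with
  | nil => simp
  | cons b l ih =>
    have := h b
    rw [List.map_cons, List.flatten_cons, List.length_append, List.length_cons, Nat.succ_mul]
    omega

theorem encRow_length {n : ℕ} (r : Fin n → ℚ≥0) : 3 * n + 1 ≤ (encRow r).length := by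
  unfold encRow
  have := sum_map_const_le (fun j => encEntry (r j)) 3 (fun j => encEntry_length _)
    (List.finRange n)
  rw [List.length_finRange] at this
  rw [List.length_append, ofFn_eq_map]
  simp only [List.length_cons, List.length_nil]
  omega

theorem encMatrix_length {n : ℕ} (M : Matrix (Fin n) (Fin n) ℚ≥0) :
    n * (3 * n + 1) + 1 ≤ (encMatrix M).length := by
  unfold encMatrix
  have := sum_map_const_le (fun i => encRow fun j => M i j) (3 * n + 1)
    (fun j => encRow_length _)
    (List.finRange n)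
  rw [List.length_finRange] at this
  rw [List.length_append, ofFn_eq_map]
  simp only [List.length_cons, List.length_nil]
  omega

theorem encFamily_length {n m : ℕ} (A : Fin m → Matrix (Fin n) (Fin n) ℚ≥0) :
    m * (n * (3 * n + 1) + 1) ≤ (encFamily A).length := by
  unfold encFamily
  have := sum_map_const_le (fun c => encMatrix (A c)) (n * (3 * n + 1) + 1)
    (fun j => encMatrix_length _) (List.finRange m)
  rw [List.length_finRange] at this
  rw [ofFn_eq_map]
  exact this

end Pool.Agent.Lib.MP_9c2350_lc
end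

section

/-!
The output of the algorithm is a colour vector with a positive Hurwitz product.
-/

set_option autoImplicit false

namespace Pool.Agent.Lib.MP_9c2350_lc

variable {n m : ℕ}

/-! ### The bound -/

theorem bound_aux (Q k F L s V T : ℕ) (hQ : 3 ≤ Q) (hk : k ≤ Q) (hF : F ≤ Q) (hT : T ≤ Q)
    (hL : L ≤ Q) (hs : s ≤ Q) (hV : V ≤ Q) :
    s * (F * T + k * (k * (V + s * (F * T) * L) * (F * T))) ≤ Q ^ 10 := by
  have h1 : F * T ≤ Q * Q := Nat.mul_le_mul hF hT
  have h2 : s * (F * T) * L ≤ Q * (Q * Q) * Q := by gcongr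
  have hQ1 : 1 ≤ Q := by omega
  have h3 : V + s * (F * T) * L ≤ 2 * Q ^ 4 := by
    have : Q ≤ Q ^ 4 := by nlinarith [Nat.pow_le_pow_right hQ1 (show 1 ≤ 4 by norm_num)]
    have e : Q * (Q * Q) * Q = Q ^ 4 := by ring
    omega
  have h4 : k * (k * (V + s * (F * T) * L) * (F * T)) ≤ Q * (Q * (2 * Q ^ 4) * (Q * Q)) := by
    gcongr
  have h5 : F * T + k * (k * (V + s * (F * T) * L) * (F * T)) ≤ 3 * Q ^ 8 := by
    have e : Q * (Q * (2 * Q ^ 4) * (Q * Q)) = 2 * Q ^ 8 := by ring
    have : Q * Q ≤ Q ^ 8 := by
      have := Nat.pow_le_pow_right hQ1 (show 2 ≤ 8 by norm_num)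
      rwa [pow_two] at this
    omega
  calc s * (F * T + k * (k * (V + s * (F * T) * L) * (F * T))) ≤ Q * (3 * Q ^ 8) := by gcongr
    _ ≤ Q * (Q * Q ^ 8) := by gcongr
    _ = Q ^ 10 := by ring

theorem bound (n m k s ℓ : ℕ) (hn : 0 < n) (hm : 0 < m) (hk : k ≤ m)
    (hs : s ≤ (n * n + 1) ^ k) (hℓ : m * (n * (3 * n + 1) + 1) ≤ ℓ) :
    s * coefB k (n * n) s ((n + 1) * n) ≤ 2 ^ (ℓ * (ℓ * 10)) := by
  have h0 : n * (3 * n + 1) + 1 = 3 * (n * n) + n + 1 := by ring
  rw [h0] at hℓ
  have hnn : 1 ≤ n * n := Nat.mul_pos hn hn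
  have hℓ1 : 3 * (n * n) + n + 1 ≤ ℓ := le_trans (by nlinarith) hℓ
  have hℓm : m ≤ ℓ := le_trans (by nlinarith) hℓ
  have hlt : ℓ < 2 ^ ℓ := Nat.lt_two_pow_self
  have hℓℓ : ℓ ≤ 2 ^ (ℓ * ℓ) := hlt.le.trans (Nat.pow_le_pow_right (by norm_num) (by nlinarith))
  have hpow : ∀ a, a ≤ ℓ → a ^ k ≤ 2 ^ (ℓ * ℓ) := by
    intro a ha
    calc a ^ k ≤ (2 ^ ℓ) ^ k := Nat.pow_le_pow_left (ha.trans hlt.le) _
      _ = 2 ^ (ℓ * k) := by rw [pow_mul]
      _ ≤ 2 ^ (ℓ * ℓ) := Nat.pow_le_pow_right (by norm_num) (Nat.mul_le_mul_left _ (hk.trans hℓm))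
  have hfac : k.factorial ≤ 2 ^ (ℓ * ℓ) :=
    (Nat.factorial_le_pow k).trans (hpow k (hk.trans hℓm))
  have := bound_aux (2 ^ (ℓ * ℓ)) k k.factorial (n * n) s ((n + 1) * n) ((n * n) ^ k)
    (by
      calc 3 ≤ ℓ := by omega
        _ ≤ _ := hℓℓ)
    ((hk.trans hℓm).trans hℓℓ) hfac (hpow _ (by omega)) (by omega)
    (hs.trans (hpow _ (by omega))) (by
      have : (n + 1) * n = n * n + n := by ring
      omega)
  unfold coefB detB
  refine this.trans (le_of_eq ?_)
  rw [← pow_mul]
  congr 1
  ring

/-! ### The circulation computed by the algorithm -/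

theorem PM_diag (pat : Fin m → Fin n → Fin n → Bool) (i : Fin n) : 1 ≤ PM pat i i := by
  unfold PM
  rw [Matrix.add_apply, Matrix.one_apply_eq]
  omega

theorem PM_edge (pat : Fin m → Fin n → Fin n → Bool) {c : Fin m} {i j : Fin n}
    (h : pat c i j = true) : 1 ≤ PM pat i j := by
  unfold PM
  rw [Matrix.add_apply, Matrix.sum_apply]
  have h1 : patM (pat c) i j = 1 := by simp [patM, h]
  have h2 : patM (pat c) i j ≤ ∑ c, patM (pat c) i j :=
    Finset.single_le_sum (f := fun c => patM (pat c) i j) (fun _ _ => Nat.zero_le _)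
      (Finset.mem_univ c)
  omega

theorem mul_entry_pos {M K : Matrix (Fin n) (Fin n) ℕ} {i l j : Fin n} (h1 : 1 ≤ M i l)
    (h2 : 1 ≤ K l j) : 1 ≤ (M * K) i j := by
  rw [Matrix.mul_apply]
  have h3 : M i l * K l j ≤ ∑ l, M i l * K l j :=
    Finset.single_le_sum (f := fun l => M i l * K l j) (fun _ _ => Nat.zero_le _)
      (Finset.mem_univ l)
  have h4 : 1 ≤ M i l * K l j := Nat.mul_pos h1 h2
  omega

theorem PM_pow_pos (pat : Fin m → Fin n → Fin n → Bool) {α : Fin m → ℕ} {i j : Fin n}
    (h : Wk (fun c a b => pat c a b = true) α i j) :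
    ∀ k, ∑ c, α c ≤ k → 1 ≤ (PM pat ^ k) i j := by
  induction h with
  | nil i =>
    intro k _
    induction k with
    | zero => simp
    | succ k ih => rw [pow_succ]; exact mul_entry_pos (ih (by simp)) (PM_diag pat i)
  | @cons c i l j α hR _ ih =>
    intro k hk
    have e : ∑ c', (Pi.single c 1 + α : Fin m → ℕ) c' = 1 + ∑ c', α c' := by
      simp only [Pi.add_apply, Finset.sum_add_distrib]
      rw [Finset.sum_pi_single']
      simp
    rw [e] at hk
    obtain ⟨k', rfl⟩ : ∃ k', k = k' + 1 := ⟨k - 1, by omega⟩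
    rw [pow_succ']
    exact mul_entry_pos (PM_edge pat hR) (ih k' (by omega))

/-- The circulation `u`. -/
def uF (pat : Fin m → Fin n → Fin n → Bool) : Fl m n :=
  fun c a b => (pat c a b).toNat * (PM pat ^ n) b a

theorem uF_bal (pat : Fin m → Fin n → Fin n → Bool) : Bal (uF pat) := by
  intro v
  have e1 : outF (uF pat) v = ((∑ c, patM (pat c)) * PM pat ^ n) v v := by
    rw [Finset.sum_mul, Matrix.sum_apply]
    unfold outF uF
    refine Finset.sum_congr rfl fun c _ => ?_
    rw [Matrix.mul_apply]
    rfl
  have e2 : inF (uF pat) v = (PM pat ^ n * (∑ c, patM (pat c))) v v := by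
    rw [Finset.mul_sum, Matrix.sum_apply]
    unfold inF uF
    refine Finset.sum_congr rfl fun c _ => ?_
    rw [Matrix.mul_apply]
    exact Finset.sum_congr rfl fun a _ => mul_comm _ _
  rw [e1, e2]
  have : Commute (∑ c, patM (pat c)) (PM pat ^ n) := by
    apply Commute.pow_right
    unfold PM
    exact (Commute.one_right _).add_right (Commute.refl _)
  rw [this.eq]

/-! ### The main argument -/

section

variable (R : Fin m → Fin n → Fin n → Prop)

/-- The colours that occur. -/
abbrev Occ : Type := {c : Fin m // ∃ a b, R c a b}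

/-- The colours of a flow as an integer vector over the occurring colours. -/
def colI (y : Fl m n) : Occ R → ℤ := fun c => (col y c.1 : ℤ)

theorem colI_add (x y : Fl m n) : colI R (x + y) = colI R x + colI R y := by
  funext c
  unfold colI
  rw [col_add]
  simp

open Classical in
/-- The colour vectors of the simple circulations. -/
noncomputable def simS : Finset (Occ R → ℤ) :=
  (Fintype.piFinset fun _ : Occ R => Finset.Icc (0 : ℤ) ((n * n : ℕ) : ℤ)).filter
    fun g => ∃ y, Simple R y ∧ colI R y = g

open Classical in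
theorem simS_card : (simS R).card ≤ (n * n + 1) ^ Fintype.card (Occ R) := by
  unfold simS
  refine (Finset.card_filter_le _ _).trans (le_of_eq ?_)
  rw [Fintype.card_piFinset]
  simp only [Int.card_Icc, Finset.prod_const, sub_zero, Finset.card_univ]
  have h1 : ((((n * n : ℕ) : ℤ) + 1).toNat) = n * n + 1 := by omega
  rw [h1]

theorem simple_col_le {y : Fl m n} (hy : ∀ c a b, y c a b ≤ 1) (c : Fin m) :
    col y c ≤ n * n := by
  unfold col
  calc ∑ a, ∑ b, y c a b ≤ ∑ a : Fin n, ∑ b : Fin n, 1 :=
        Finset.sum_le_sum fun a _ => Finset.sum_le_sum fun b _ => hy c a b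
    _ = n * n := by simp

theorem colI_mem {y : Fl m n} (hy : Simple R y) : colI R y ∈ simS R := by
  classical
  unfold simS
  rw [Finset.mem_filter, Fintype.mem_piFinset]
  refine ⟨fun c => ?_, y, hy, rfl⟩
  rw [Finset.mem_Icc]
  unfold colI
  refine ⟨by positivity, ?_⟩
  exact_mod_cast simple_col_le hy.le_one c.1

theorem colI_mem_span {x : Fl m n} (hs : Supp R x) (hb : Bal x) :
    colI R x ∈ Submodule.span ℤ (simS R : Set (Occ R → ℤ)) := by
  obtain ⟨L, hL, rfl⟩ := decomp (R := R) (tot x) x rfl hs hb
  clear hs hb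
  induction L with
  | nil =>
    have : colI R (0 : Fl m n) = 0 := by funext c; simp [colI, col]
    rw [List.sum_nil, this]
    exact Submodule.zero_mem _
  | cons y L ih =>
    rw [List.sum_cons, colI_add]
    exact Submodule.add_mem _ (Submodule.subset_span (colI_mem R (hL y (by simp))))
      (ih fun z hz => hL z (by simp [hz]))

theorem span_simS {α₀ : Fin m → ℕ} (h : ∀ i j, Wk R α₀ i j) :
    Submodule.span ℤ (simS R : Set (Occ R → ℤ)) = ⊤ := by
  classical
  have hclosed : ∀ {α : Fin m → ℕ} {i : Fin n}, Wk R α i i →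
      (fun c : Occ R => (α c.1 : ℤ)) ∈ Submodule.span ℤ (simS R : Set (Occ R → ℤ)) := by
    intro α i hα
    obtain ⟨x, hs, hc, hb⟩ := bal_of_closed hα
    have := colI_mem_span R hs hb
    unfold colI at this
    rwa [hc] at this
  have hsingle : ∀ c : Occ R, (Pi.single c 1 : Occ R → ℤ) ∈
      Submodule.span ℤ (simS R : Set (Occ R → ℤ)) := by
    rintro ⟨c, a, b, hab⟩
    have h1 := hclosed (Wk.cons hab (h b a))
    have h2 := hclosed (h a a)
    have e : (Pi.single ⟨c, a, b, hab⟩ 1 : Occ R → ℤ) =
        (fun c' : Occ R => (((Pi.single c 1 + α₀ : Fin m → ℕ) c'.1 : ℕ) : ℤ)) -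
          (fun c' : Occ R => (α₀ c'.1 : ℤ)) := by
      funext c'
      simp only [Pi.sub_apply, Pi.add_apply, Nat.cast_add, add_sub_cancel_right]
      by_cases hc : c' = ⟨c, a, b, hab⟩
      · subst hc; simp
      · rw [Pi.single_eq_of_ne hc, Pi.single_eq_of_ne]
        · simp
        · intro h'; exact hc (Subtype.ext h')
    rw [e]
    exact Submodule.sub_mem _ h1 h2
  rw [eq_top_iff]
  rintro x -
  have : x = ∑ i, x i • (Pi.single i 1 : Occ R → ℤ) := by
    funext j
    simp only [Finset.sum_apply, Pi.smul_apply, smul_eq_mul, Pi.single_apply]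
    simp
  rw [this]
  exact Submodule.sum_mem _ fun i _ => Submodule.smul_mem _ _ (hsingle i)

theorem swap3 {γ : Type} (s : Finset γ) {p q : ℕ} (z : γ → ℤ) (f : γ → Fin p → Fin q → ℕ) :
    ∑ a, ∑ b, ∑ g ∈ s, z g * (f g a b : ℤ) = ∑ g ∈ s, z g * ((∑ a, ∑ b, f g a b : ℕ) : ℤ) := by
  have h1 : ∀ a, ∑ b, ∑ g ∈ s, z g * (f g a b : ℤ) = ∑ g ∈ s, ∑ b, z g * (f g a b : ℤ) :=
    fun a => Finset.sum_comm
  simp only [h1]
  rw [Finset.sum_comm]
  refine Finset.sum_congr rfl fun g _ => ?_
  push_cast
  simp only [Finset.mul_sum]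

/-- Flow out of a vertex for integer flows. -/
def outZ (x : Fin m → Fin n → Fin n → ℤ) (v : Fin n) : ℤ := ∑ c, ∑ b, x c v b

/-- Flow into a vertex for integer flows. -/
def inZ (x : Fin m → Fin n → Fin n → ℤ) (v : Fin n) : ℤ := ∑ c, ∑ a, x c a v

open Classical in
/-- A small integer circulation with prescribed colours. -/
theorem exists_small {α₀ : Fin m → ℕ} (h : ∀ i j, Wk R α₀ i j) (hn : 0 < n)
    (v : Fin m → ℕ) (hv : ∀ c, v c ≤ (n + 1) * n) (hv0 : ∀ c, (¬ ∃ a b, R c a b) → v c = 0) :
    ∃ x : Fin m → Fin n → Fin n → ℤ, ∃ k s : ℕ, (∀ c a b, x c a b ≠ 0 → R c a b) ∧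
      (∀ w, outZ x w = inZ x w) ∧ (∀ c, ∑ a, ∑ b, x c a b = v c) ∧
      k ≤ m ∧ s ≤ (n * n + 1) ^ k ∧
      ∀ c a b, |x c a b| ≤ ((s * coefB k (n * n) s ((n + 1) * n) : ℕ) : ℤ) := by
  have hcard : Fintype.card (Occ R) ≤ m := by
    have := Fintype.card_subtype_le (fun c : Fin m => ∃ a b, R c a b)
    rwa [Fintype.card_fin] at this
  have hS : ∀ g ∈ simS R, ∀ i, |g i| ≤ ((n * n : ℕ) : ℤ) := by
    intro g hg i
    unfold simS at hg
    rw [Finset.mem_filter, Fintype.mem_piFinset] at hg
    have := Finset.mem_Icc.1 (hg.1 i)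
    rw [abs_of_nonneg this.1]
    exact this.2
  have hex : ∀ g : Occ R → ℤ, ∃ y : Fl m n, g ∈ simS R → Simple R y ∧ colI R y = g := by
    intro g
    by_cases hg : g ∈ simS R
    · have hg' := hg
      unfold simS at hg'
      obtain ⟨y, hy⟩ := (Finset.mem_filter.1 hg').2
      exact ⟨y, fun _ => hy⟩
    · exact ⟨0, fun h => absurd h hg⟩
  choose Y hY using hex
  obtain ⟨z, hz, hzb⟩ := lin_bound (simS R) (n * n) (Nat.mul_pos hn hn) hS (span_simS R h)
    ((n + 1) * n) (fun c : Occ R => (v c.1 : ℤ)) (fun c => by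
      rw [abs_of_nonneg (by positivity)]; exact_mod_cast hv c.1)
  have hsupp : ∀ c a b, (∑ g ∈ simS R, z g * (Y g c a b : ℤ)) ≠ 0 → R c a b := by
    intro c a b hne
    obtain ⟨g, hg, hne⟩ := Finset.exists_ne_zero_of_sum_ne_zero hne
    exact (hY g hg).1.supp c a b fun h0 => hne (by rw [h0]; simp)
  refine ⟨fun c a b => ∑ g ∈ simS R, z g * (Y g c a b : ℤ), Fintype.card (Occ R),
    (simS R).card, hsupp, ?_, ?_, hcard, simS_card R, ?_⟩
  · intro w
    unfold outZ inZ
    rw [swap3 (simS R) z fun g c b => Y g c w b, swap3 (simS R) z fun g c a => Y g c a w]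
    refine Finset.sum_congr rfl fun g hg => ?_
    have := (hY g hg).1.bal w
    unfold outF inF at this
    rw [this]
  · intro c
    by_cases hc : ∃ a b, R c a b
    · have h1 := congrFun hz ⟨c, hc⟩
      simp only [Finset.sum_apply, Pi.smul_apply, smul_eq_mul] at h1
      rw [h1, swap3 (simS R) z fun g a b => Y g c a b]
      refine Finset.sum_congr rfl fun g hg => ?_
      have := congrFun (hY g hg).2 ⟨c, hc⟩
      unfold colI col at this
      rw [this]
    · rw [hv0 c hc]
      have : ∀ a b, (∑ g ∈ simS R, z g * (Y g c a b : ℤ)) = 0 := by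
        intro a b
        by_contra hne
        exact hc ⟨a, b, hsupp c a b hne⟩
      simp [this]
  · intro c a b
    refine (Finset.abs_sum_le_sum_abs _ _).trans ?_
    have h1 : ∀ g ∈ simS R, |z g * (Y g c a b : ℤ)| ≤
        (coefB (Fintype.card (Occ R)) (n * n) (simS R).card ((n + 1) * n) : ℤ) := by
      intro g hg
      rw [abs_mul]
      have h2 := (hY g hg).1.le_one c a b
      have h3 : |(Y g c a b : ℤ)| ≤ 1 := by
        rw [abs_of_nonneg (by positivity)]; exact_mod_cast h2
      calc |z g| * |(Y g c a b : ℤ)| ≤ |z g| * 1 :=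
            mul_le_mul_of_nonneg_left h3 (abs_nonneg _)
        _ = |z g| := mul_one _
        _ ≤ _ := hzb g
    refine (Finset.sum_le_card_nsmul _ _ _ h1).trans (le_of_eq ?_)
    rw [nsmul_eq_mul]
    push_cast
    rfl

end

/-- The main combinatorial statement. -/
theorem wk_output (pat : Fin m → Fin n → Fin n → Bool) (hn : 0 < n) (hm : 0 < m) {α₀ : Fin m → ℕ}
    (h : ∀ i j, Wk (fun c a b => pat c a b = true) α₀ i j) (ℓ : ℕ)
    (hℓ : m * (n * (3 * n + 1) + 1) ≤ ℓ) (i j : Fin n) :
    Wk (fun c a b => pat c a b = true)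
      (fun c => 2 ^ (ℓ * (ℓ * 10)) * ∑ a, ∑ b, (pat c a b).toNat * (PM pat ^ n) b a) i j := by
  classical
  set R : Fin m → Fin n → Fin n → Prop := fun c a b => pat c a b = true with hR
  set N := 2 ^ (ℓ * (ℓ * 10)) with hN
  have hshort : ∀ a b, ∃ α, Wk R α a b ∧ ∑ c, α c ≤ n :=
    exists_short fun a b => ⟨α₀, h a b⟩
  choose p hp hpn using hshort
  have hple : ∀ a b c, p a b c ≤ n := fun a b c =>
    (Finset.single_le_sum (f := fun c => p a b c) (fun _ _ => Nat.zero_le _)
      (Finset.mem_univ c)).trans (hpn a b)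
  set v : Fin m → ℕ := tc p i (List.finRange n) j with hv
  have hvle : ∀ c, v c ≤ (n + 1) * n := by
    intro c
    have := tc_le hple (List.finRange n) i j c
    rwa [List.length_finRange] at this
  have hwv : Wk R v i j := by
    have := wk_tour' (R := R) hp (Γ := fun _ => 0) (fun v => .nil v) i j
    simpa using this
  have hv0 : ∀ c, (¬ ∃ a b, R c a b) → v c = 0 := by
    intro c hc
    obtain ⟨x, hs, hcx, _⟩ := flow_of_wk hwv
    rw [← hcx]
    unfold col
    apply Finset.sum_eq_zero
    intro a _
    apply Finset.sum_eq_zero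
    intro b _
    by_contra hne
    exact hc ⟨a, b, hs c a b hne⟩
  obtain ⟨x, k, s, hx1, hx2, hx3, hk, hs, hx4⟩ := exists_small R h hn v hvle hv0
  have hb := bound n m k s ℓ hn hm hk hs hℓ
  have hxN : ∀ c a b, x c a b ≤ N := by
    intro c a b
    refine (le_abs_self _).trans ((hx4 c a b).trans ?_)
    exact_mod_cast hb
  have hu1 : ∀ c a b, R c a b → 1 ≤ uF pat c a b := by
    intro c a b hab
    have h1 : (pat c a b).toNat = 1 := by simp [show pat c a b = true from hab]
    unfold uF
    rw [h1, one_mul]
    exact PM_pow_pos pat (hp b a) n (hpn b a)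
  have hu0 : ∀ c a b, ¬ R c a b → uF pat c a b = 0 := by
    intro c a b hab
    have h1 : pat c a b = false := by simpa [hR] using hab
    simp [uF, h1]
  have hW : ∀ c a b, ∃ w : ℕ, (w : ℤ) = N * uF pat c a b - x c a b := by
    intro c a b
    by_cases hab : R c a b
    · refine ⟨(N * uF pat c a b - x c a b : ℤ).toNat, Int.toNat_of_nonneg ?_⟩
      have h1 := hxN c a b
      have h2 : (N : ℤ) * 1 ≤ N * uF pat c a b :=
        mul_le_mul_of_nonneg_left (by exact_mod_cast hu1 c a b hab) (by positivity)
      linarith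
    · have h1 : x c a b = 0 := by
        by_contra hne
        exact hab (hx1 c a b hne)
      exact ⟨0, by rw [h1, hu0 c a b hab]; simp⟩
  choose W hW using hW
  have hWs : Supp R W := by
    intro c a b hne
    by_contra hab
    have h1 : x c a b = 0 := by
      by_contra hne
      exact hab (hx1 c a b hne)
    have h2 := hW c a b
    rw [h1, hu0 c a b hab] at h2
    simp at h2
    exact hne h2
  have hWb : Bal W := by
    intro w
    have h1 := uF_bal pat w
    have h2 := hx2 w
    unfold outZ inZ at h2
    unfold outF inF at h1 ⊢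
    zify
    zify at h1
    simp only [hW, Finset.sum_sub_distrib, ← Finset.mul_sum]
    rw [h1, h2]
  obtain ⟨Γ, hΓ, hcol⟩ := closed_of_bal W hWs hWb
  have hfin := wk_tour' (R := R) hp hΓ i j
  rw [← hcol, ← hv] at hfin
  have e : (fun c => N * ∑ a, ∑ b, (pat c a b).toNat * (PM pat ^ n) b a) = v + col W := by
    funext c
    have h3 := hx3 c
    rw [Pi.add_apply]
    unfold col
    zify
    simp only [hW, Finset.sum_sub_distrib, ← Finset.mul_sum]
    rw [h3]
    unfold uF
    push_cast
    ring
  rw [e]
  exact hfin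

end Pool.Agent.Lib.MP_9c2350_lc
end
end
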