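import Pool.Agent.Lib.MP_9c2350_lc.Dat

/-!
Functions computed by stack programs in polynomial time, with closure properties.
-/

set_option autoImplicit false
set_option linter.unusedSimpArgs false

namespace Pool.Agent.Lib.MP_9c2350_lc



/-! ### Polynomial bounds -/

theorem eval_mono (p : Polynomial ℕ) {a b : ℕ} (h : a ≤ b) : p.eval a ≤ p.eval b := by
  rw [Polynomial.eval_eq_sum, Polynomial.eval_eq_sum]
  exact Finset.sum_le_sum fun i _ => Nat.mul_le_mul_left _ (Nat.pow_le_pow_left h i)

/-- Monotone functions bounded by polynomials. -/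
def PB (g : ℕ → ℕ) : Prop := Monotone g ∧ ∃ p : Polynomial ℕ, ∀ n, g n ≤ p.eval n

theorem PB.const (c : ℕ) : PB fun _ => c :=
  ⟨monotone_const, Polynomial.C c, fun n => by simp⟩

theorem PB.id : PB fun n => n := ⟨monotone_id, Polynomial.X, fun n => by simp⟩

theorem PB.add {f g : ℕ → ℕ} (hf : PB f) (hg : PB g) : PB fun n => f n + g n := by
  obtain ⟨mf, p, hp⟩ := hf
  obtain ⟨mg, q, hq⟩ := hg
  exact ⟨mf.add mg, p + q, fun n => by rw [Polynomial.eval_add]; exact Nat.add_le_add (hp n) (hq n)⟩

theorem PB.mul {f g : ℕ → ℕ} (hf : PB f) (hg : PB g) : PB fun n => f n * g n := by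
  obtain ⟨mf, p, hp⟩ := hf
  obtain ⟨mg, q, hq⟩ := hg
  exact ⟨fun a b h => Nat.mul_le_mul (mf h) (mg h), p * q,
    fun n => by rw [Polynomial.eval_mul]; exact Nat.mul_le_mul (hp n) (hq n)⟩

theorem PB.comp {f g : ℕ → ℕ} (hf : PB f) (hg : PB g) : PB fun n => f (g n) := by
  obtain ⟨mf, p, hp⟩ := hf
  obtain ⟨mg, q, hq⟩ := hg
  exact ⟨mf.comp mg, p.comp q, fun n => by
    rw [Polynomial.eval_comp]; exact (hp _).trans (eval_mono p (hq n))⟩

/-! ### Encodings -/

/-- Types whose elements are represented by trees. -/
class Enc (α : Type) where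
  /-- the tree of an element -/
  enc : α → Dat

/-- The word of an element. -/
def word {α : Type} [Enc α] (x : α) : List Sym := code (Enc.enc x)

/-- The size of an element. -/
def sz {α : Type} [Enc α] (x : α) : ℕ := (word x).length

instance : Enc Dat := ⟨id⟩
instance : Enc Unit := ⟨fun _ => .nil⟩
instance : Enc Bool := ⟨fun b => if b then .cons .nil .nil else .nil⟩
instance {α β : Type} [Enc α] [Enc β] : Enc (α × β) := ⟨fun x => .cons (Enc.enc x.1) (Enc.enc x.2)⟩
instance {α : Type} [Enc α] : Enc (List α) :=
  ⟨fun l => l.foldr (fun a d => .cons (Enc.enc a) d) .nil⟩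

theorem word_pair {α β : Type} [Enc α] [Enc β] (x : α) (y : β) :
    word (x, y) = T :: (word x ++ word y) := rfl
theorem word_nil {α : Type} [Enc α] : word ([] : List α) = [F] := rfl
theorem word_cons {α : Type} [Enc α] (a : α) (l : List α) :
    word (a :: l) = T :: (word a ++ word l) := rfl
theorem word_true : word true = [T, F, F] := rfl
theorem word_false : word false = [F] := rfl

theorem sz_pair {α β : Type} [Enc α] [Enc β] (x : α) (y : β) :
    sz (x, y) = sz x + sz y + 1 := by simp [sz, word_pair]
theorem sz_nil {α : Type} [Enc α] : sz ([] : List α) = 1 := rfl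
theorem sz_cons {α : Type} [Enc α] (a : α) (l : List α) :
    sz (a :: l) = sz a + sz l + 1 := by simp [sz, word_cons]
theorem sz_pos {α : Type} [Enc α] (x : α) : 0 < sz x := code_length_pos _
theorem sz_bool (b : Bool) : sz b ≤ 3 := by cases b <;> simp [sz, word_true, word_false]
theorem sz_append {α : Type} [Enc α] (l l' : List α) : sz (l ++ l') + 1 = sz l + sz l' := by
  induction l with
  | nil => simp [sz_nil]; omega
  | cons a l ih => rw [List.cons_append, sz_cons, sz_cons]; omega
theorem length_le_sz {α : Type} [Enc α] (l : List α) : l.length < sz l := by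
  induction l with
  | nil => simp [sz_nil]
  | cons a l ih => rw [sz_cons, List.length_cons]; omega
theorem sz_le_of_mem {α : Type} [Enc α] {l : List α} {a : α} (h : a ∈ l) : sz a < sz l := by
  induction l with
  | nil => simp at h
  | cons b l ih =>
    rw [sz_cons]
    rcases List.mem_cons.1 h with h | h
    · subst h; have := sz_pos l; omega
    · have := ih h; omega

/-- A list whose elements have size at most `B`. -/
theorem sz_list_le {α : Type} [Enc α] (l : List α) (B : ℕ) (h : ∀ a ∈ l, sz a ≤ B) :
    sz l ≤ l.length * (B + 1) + 1 := by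
  induction l with
  | nil => simp [sz_nil]
  | cons a l ih =>
    have h1 := h a (by simp)
    have h2 := ih fun b hb => h b (by simp [hb])
    rw [sz_cons, List.length_cons, Nat.succ_mul]
    omega

/-! ### Polynomial time -/

/-- Polynomial time functions between encoded types. -/
def Poly {α β : Type} [Enc α] [Enc β] (f : α → β) : Prop :=
  ∃ (c : Cmd Sym) (g : ℕ → ℕ), PB g ∧
    ∀ x, Runs c (cs (word x) E) (cs (word (f x)) E) (g (sz x))

variable {α β γ σ δ : Type} [Enc α] [Enc β] [Enc γ] [Enc σ] [Enc δ]

theorem Poly.of_eq {f g : α → β} (hf : Poly f) (h : ∀ x, f x = g x) : Poly g := by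
  have : f = g := funext h
  exact this ▸ hf

theorem Poly.of_word {f : α → β} {α' β' : Type} [Enc α'] [Enc β'] {g : α' → β'}
    (hg : Poly g) (e : α → α') (h : ∀ x, word x = word (e x))
    (h' : ∀ x, word (f x) = word (g (e x))) : Poly f := by
  obtain ⟨c, p, hp, H⟩ := hg
  refine ⟨c, p, hp, fun x => ?_⟩
  have := H (e x)
  rw [← h x, ← h' x] at this
  have e2 : sz (e x) = sz x := by simp only [sz, h x]
  rwa [e2] at this

theorem Poly.id : Poly (fun x : α => x) :=
  ⟨.skip, fun _ => 1, PB.const 1, fun _ => Runs.skip _⟩

/-- The size of the value is polynomially bounded. -/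
theorem Poly.size {f : α → β} (hf : Poly f) : ∃ g, PB g ∧ ∀ x, sz (f x) ≤ g (sz x) := by
  obtain ⟨c, g, hg, H⟩ := hf
  refine ⟨fun n => n + g n, PB.id.add hg, fun x => ?_⟩
  have := (H x).length_le 0
  simpa [sz] using this

theorem Poly.comp {f : β → γ} {g : α → β} (hf : Poly f) (hg : Poly g) :
    Poly (fun x => f (g x)) := by
  obtain ⟨q, hq, Hq⟩ := hg.size
  obtain ⟨c, p, hp, H⟩ := hf
  obtain ⟨d, r, hr, H'⟩ := hg
  refine ⟨.seq d c, fun n => r n + p (q n) + 1, (hr.add (hp.comp hq)).add (PB.const 1),
    fun x => ?_⟩
  refine ((H' x).seq (H (g x))).mono ?_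
  have := hp.1 (Hq x)
  show r (sz x) + p (sz (g x)) + 1 ≤ r (sz x) + p (q (sz x)) + 1
  omega

theorem Poly.const (b : β) : Poly (fun _ : α => b) := by
  refine ⟨.seq (clr 0) (wr 0 (word b)), fun n => (2 * n + 1) + (2 * (word b).length + 1) + 1,
    (((PB.const 2).mul PB.id).add (PB.const 1)).add (PB.const _) |>.add (PB.const 1),
    fun x => ?_⟩
  have h1 := runs_clr 0 (cs (word x) E)
  simp only [update_cs_zero, cs_zero] at h1
  have h2 := runs_wr 0 (word b) (cs [] E)
  simp only [update_cs_zero, cs_zero, List.append_nil] at h2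
  exact h1.seq h2

theorem Poly.pair {f : α → β} {g : α → γ} (hf : Poly f) (hg : Poly g) :
    Poly (fun x => (f x, g x)) := by
  obtain ⟨qf, hqf, Hqf⟩ := hf.size
  obtain ⟨qg, hqg, Hqg⟩ := hg.size
  obtain ⟨c, p, hp, H⟩ := hf
  obtain ⟨d, r, hr, H'⟩ := hg
  refine ⟨.seq (cp 0 1 2) (.seq (d.shift 1) (.seq (mv 0 2) (.seq (mv 1 3) (.seq (mv 3 0)
    (.seq (mv 2 1) (.seq (c.shift 1) (.seq (mv 1 2) (.seq (mv 2 0) (.push 0 T))))))))),
    fun n => (6 * n + 3) + (r n) + (2 * n + 1) + (2 * qg n + 1) + (2 * qg n + 1) + (2 * n + 1)
      + p n + (2 * qf n + 1) + (2 * qf n + 1) + 1 + 9, ?_, fun x => ?_⟩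
  · have l6 := ((PB.const 6).mul PB.id).add (PB.const 3)
    have l2 := ((PB.const 2).mul PB.id).add (PB.const 1)
    have g2 := ((PB.const 2).mul hqg).add (PB.const 1)
    have f2 := ((PB.const 2).mul hqf).add (PB.const 1)
    exact (((((((((l6.add hr).add l2).add g2).add g2).add l2).add hp).add f2).add f2).add
      (PB.const 1)).add (PB.const 9)
  · have h1 := runs_cp (i := 0) (j := 1) (t := 2) (by decide) (by decide) (by decide)
      (cs (word x) E) rfl
    simp only [update_cs_zero, cs_zero, update_cs_succ, cs_succ, update_E_zero, E_apply,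
      List.append_nil] at h1
    have h2 := (H' x).shift1 (word x)
    have h3 := runs_mv (i := 0) (j := 2) (by decide) (cs (word x) (cs (word (g x)) E))
    simp only [update_cs_zero, cs_zero, update_cs_succ, cs_succ, update_E_zero, E_apply,
      List.append_nil] at h3
    have h4 := runs_mv (i := 1) (j := 3) (by decide)
      (cs [] (cs (word (g x)) (cs (word x).reverse E)))
    simp only [update_cs_zero, cs_zero, update_cs_succ, cs_succ, update_E_zero, E_apply,
      List.append_nil] at h4
    have h5 := runs_mv (i := 3) (j := 0) (by decide)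
      (cs [] (cs [] (cs (word x).reverse (cs (word (g x)).reverse E))))
    simp only [update_cs_zero, cs_zero, update_cs_succ, cs_succ, update_E_zero, E_apply,
      List.append_nil, List.reverse_reverse, cs_nil_E] at h5
    have h6 := runs_mv (i := 2) (j := 1) (by decide)
      (cs (word (g x)) (cs [] (cs (word x).reverse E)))
    simp only [update_cs_zero, cs_zero, update_cs_succ, cs_succ, update_E_zero, E_apply,
      List.append_nil, List.reverse_reverse, cs_nil_E] at h6
    have h7 := (H x).shift1 (word (g x))
    have h8 := runs_mv (i := 1) (j := 2) (by decide) (cs (word (g x)) (cs (word (f x)) E))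
    simp only [update_cs_zero, cs_zero, update_cs_succ, cs_succ, update_E_zero, E_apply,
      List.append_nil] at h8
    have h9 := runs_mv (i := 2) (j := 0) (by decide)
      (cs (word (g x)) (cs [] (cs (word (f x)).reverse E)))
    simp only [update_cs_zero, cs_zero, update_cs_succ, cs_succ, update_E_zero, E_apply,
      List.append_nil, List.reverse_reverse, cs_nil_E] at h9
    have h10 := Runs.push 0 T (cs (word (f x) ++ word (g x)) E)
    simp only [update_cs_zero, cs_zero] at h10
    refine (h1.seq (h2.seq (h3.seq (h4.seq (h5.seq (h6.seq (h7.seq (h8.seq (h9.seq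
      h10))))))))).to rfl ?_
    have e1 := Hqg x
    have e2 := Hqf x
    simp only [sz, List.length_reverse] at e1 e2 ⊢
    omega

theorem Poly.isNil : Poly (fun d : Dat => match d with | .nil => true | .cons _ _ => false) := by
  refine ⟨.case 0 fun o => .seq (clr 0) (wr 0 (if o = some T then [F] else [T, F, F])),
    fun n => (2 * n + 1) + 7 + 1 + 1, ?_, fun x => ?_⟩
  · exact (((((PB.const 2).mul PB.id).add (PB.const 1)).add (PB.const 7)).add
      (PB.const 1)).add (PB.const 1)
  · apply Runs.case
    have h1 := runs_clr 0 (cs (word x) E)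
    simp only [update_cs_zero, cs_zero] at h1
    cases x with
    | nil =>
      have h2 := runs_wr 0 [T, F, F] (cs [] E)
      simp only [update_cs_zero, cs_zero, List.append_nil] at h2
      exact (h1.seq h2).mono (by simp [sz])
    | cons a b =>
      have h2 := runs_wr 0 [F] (cs [] E)
      simp only [update_cs_zero, cs_zero, List.append_nil] at h2
      exact (h1.seq h2).mono (by simp [sz])

/-- First component of a tree. -/
def Dat.car : Dat → Dat
  | .nil => .nil
  | .cons a _ => a

/-- Second component of a tree. -/
def Dat.cdr : Dat → Dat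
  | .nil => .nil
  | .cons _ b => b

theorem Poly.car : Poly Dat.car := by
  refine ⟨.case 0 fun o => if o = some T then
      .seq (.pop 0) (.seq (item 0 1 2) (.seq (clr 0) (mv 1 0))) else .skip,
    fun n => 1 + (9 * n + 3) + (2 * n + 1) + (2 * n + 1) + 3 + 1, ?_, fun x => ?_⟩
  · have l9 := ((PB.const 9).mul PB.id).add (PB.const 3)
    have l2 := ((PB.const 2).mul PB.id).add (PB.const 1)
    exact ((((((PB.const 1).add l9).add l2).add l2).add (PB.const 3)).add (PB.const 1))
  · apply Runs.case
    cases x with
    | nil =>
      exact (Runs.skip _).mono (by omega)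
    | cons a b =>
      have h1 := Runs.pop 0 (cs (word (Dat.cons a b)) E)
      simp only [update_cs_zero, cs_zero] at h1
      have h2 := runs_item (i := 0) (j := 1) (k := 2) (by decide) (by decide) (by decide) a
        (code b) (cs (code a ++ code b) E) rfl rfl
      simp only [update_cs_zero, cs_zero, update_cs_succ, cs_succ, update_E_zero, E_apply,
        List.append_nil] at h2
      have h3 := runs_clr 0 (cs (code b) (cs (code a).reverse E))
      simp only [update_cs_zero, cs_zero] at h3
      have h4 := runs_mv (i := 1) (j := 0) (by decide) (cs [] (cs (code a).reverse E))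
      simp only [update_cs_zero, cs_zero, update_cs_succ, cs_succ, update_E_zero, E_apply,
        List.append_nil, List.reverse_reverse, cs_nil_E] at h4
      refine (h1.seq (h2.seq (h3.seq h4))).to rfl ?_
      have e : sz (Dat.cons a b) = (code a).length + (code b).length + 1 := by
        simp [sz, word, Enc.enc, code]
      simp only [List.length_reverse]
      omega

theorem Poly.cdr : Poly Dat.cdr := by
  refine ⟨.case 0 fun o => if o = some T then
      .seq (.pop 0) (.seq (item 0 1 2) (clr 1)) else .skip,
    fun n => 1 + (9 * n + 3) + (2 * n + 1) + 2 + 1, ?_, fun x => ?_⟩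
  · have l9 := ((PB.const 9).mul PB.id).add (PB.const 3)
    have l2 := ((PB.const 2).mul PB.id).add (PB.const 1)
    exact ((((PB.const 1).add l9).add l2).add (PB.const 2)).add (PB.const 1)
  · apply Runs.case
    cases x with
    | nil =>
      exact (Runs.skip _).mono (by omega)
    | cons a b =>
      have h1 := Runs.pop 0 (cs (word (Dat.cons a b)) E)
      simp only [update_cs_zero, cs_zero] at h1
      have h2 := runs_item (i := 0) (j := 1) (k := 2) (by decide) (by decide) (by decide) a
        (code b) (cs (code a ++ code b) E) rfl rfl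
      simp only [update_cs_zero, cs_zero, update_cs_succ, cs_succ, update_E_zero, E_apply,
        List.append_nil] at h2
      have h3 := runs_clr 1 (cs (code b) (cs (code a).reverse E))
      simp only [update_cs_zero, cs_zero, update_cs_succ, cs_succ, update_E_zero, E_apply,
        List.append_nil, List.reverse_reverse, cs_nil_E] at h3
      refine (h1.seq (h2.seq h3)).to rfl ?_
      have e : sz (Dat.cons a b) = (code a).length + (code b).length + 1 := by
        simp [sz, word, Enc.enc, code]
      simp only [List.length_reverse]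
      omega

theorem Poly.fst : Poly (fun x : α × β => x.1) :=
  Poly.car.of_word (fun x => Enc.enc x) (fun _ => rfl) (fun _ => rfl)

theorem Poly.snd : Poly (fun x : α × β => x.2) :=
  Poly.cdr.of_word (fun x => Enc.enc x) (fun _ => rfl) (fun _ => rfl)

theorem Poly.cons {f : α → γ} {g : α → List γ} (hf : Poly f) (hg : Poly g) :
    Poly (fun x => f x :: g x) :=
  (Poly.pair hf hg).of_word (fun x => x) (fun _ => rfl) (fun _ => rfl)

theorem Poly.ite {b : α → Bool} {f g : α → β} (hb : Poly b) (hf : Poly f) (hg : Poly g) :
    Poly (fun x => if b x then f x else g x) := by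
  obtain ⟨c, p, hp, H⟩ := hf
  obtain ⟨d, r, hr, H'⟩ := hg
  obtain ⟨cb, q, hq, Hb⟩ := hb
  refine ⟨.seq (cp 0 1 2) (.seq (cb.shift 1) (.case 1 fun o => if o = some T then
      .seq (clr 1) c else .seq (clr 1) d)),
    fun n => (6 * n + 3) + q n + (7 + p n + r n + 1 + 1) + 2, ?_, fun x => ?_⟩
  · have l6 := ((PB.const 6).mul PB.id).add (PB.const 3)
    exact ((l6.add hq).add (((((PB.const 7).add hp).add hr).add (PB.const 1)).add
      (PB.const 1))).add (PB.const 2)
  · have h1 := runs_cp (i := 0) (j := 1) (t := 2) (by decide) (by decide) (by decide)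
      (cs (word x) E) rfl
    simp only [update_cs_zero, cs_zero, update_cs_succ, cs_succ, update_E_zero, E_apply,
      List.append_nil] at h1
    have h2 := (Hb x).shift1 (word x)
    refine (h1.seq (h2.seq (Runs.case (B := 7 + p (sz x) + r (sz x) + 1) ?_))).mono ?_
    · cases hbx : b x with
      | true =>
        have h3 := runs_clr 1 (cs (word x) (cs (word true) E))
        simp only [update_cs_zero, cs_zero, update_cs_succ, cs_succ, update_E_zero, E_apply,
          List.append_nil, List.reverse_reverse, cs_nil_E] at h3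
        refine Runs.to (B := 7 + p (sz x) + 1) (s' := cs (word (f x)) E) ?_ (by simp [hbx])
          (by omega)
        exact h3.seq (H x)
      | false =>
        have h3 := runs_clr 1 (cs (word x) (cs (word false) E))
        simp only [update_cs_zero, cs_zero, update_cs_succ, cs_succ, update_E_zero, E_apply,
          List.append_nil, List.reverse_reverse, cs_nil_E] at h3
        refine Runs.to (B := 3 + r (sz x) + 1) (s' := cs (word (g x)) E) ?_ (by simp [hbx])
          (by omega)
        exact h3.seq (H' x)
    · simp only [sz]; omega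

end Pool.Agent.Lib.MP_9c2350_lc
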